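import Mathlib

/-!
# Presentations by quadratic relations
-/

namespace Pool.Agent.Helper83.Bass

open Function MvPolynomial

universe u

lemma totalDegree_X_le {k : Type*} [CommRing k] {ι : Type*} (i : ι) :
    (X i : MvPolynomial ι k).totalDegree ≤ 1 := by
  refine (totalDegree_monomial_le (Finsupp.single i 1) (1 : k)).trans ?_
  simp [Finsupp.sum_single_index]

variable {k : Type u} [CommRing k] [IsNoetherianRing k]

/-- every finitely generated algebra over a noetherian ring has a finite presentation by relations
of degree at most two -/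
theorem exists_quad (B : Type u) [CommRing B] [Algebra k B] [Algebra.FiniteType k B] :
    ∃ (τ : Type) (_ : Fintype τ) (r : ℕ) (π : MvPolynomial τ k →ₐ[k] B)
      (g : Fin r → MvPolynomial τ k), Surjective π ∧
      RingHom.ker π.toRingHom = Ideal.span (Set.range g) ∧ ∀ j, (g j).totalDegree ≤ 2 := by
  classical
  obtain ⟨n, f, hf⟩ := Algebra.FiniteType.iff_quotient_mvPolynomial''.mp
    (inferInstance : Algebra.FiniteType k B)
  obtain ⟨H, hH⟩ := IsNoetherian.noetherian (RingHom.ker f.toRingHom)
  let D : ℕ := 1 + ∑ h ∈ H, h.totalDegree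
  let A : Finset (Fin n →₀ ℕ) := (Finsupp.finite_of_degree_le (σ := Fin n) D).toFinset
  have hA : ∀ α : Fin n →₀ ℕ, α ∈ A ↔ α.degree ≤ D := by
    intro α
    simp [A]
  let π : MvPolynomial A k →ₐ[k] B := aeval (fun α => f (monomial α.1 1))
  have hπX : ∀ α : A, π (X α) = f (monomial α.1 1) := fun α => aeval_X _ _
  let Rel : Set (MvPolynomial A k) := {p | p.totalDegree ≤ 2 ∧ π p = 0}
  obtain ⟨s, hs, hs'⟩ := (Submodule.fg_span_iff_fg_span_finset_subset
    (R := MvPolynomial A k) Rel).mp (IsNoetherian.noetherian (Ideal.span Rel))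
  let g : Fin s.card → MvPolynomial A k := fun i => (s.equivFin.symm i).val
  have hg : Set.range g = (s : Set (MvPolynomial A k)) := by
    ext p
    constructor
    · rintro ⟨i, rfl⟩
      exact (s.equivFin.symm i).2
    · intro hp
      exact ⟨s.equivFin ⟨p, hp⟩, by simp [g]⟩
  have hspan : Ideal.span Rel = Ideal.span (Set.range g) := by
    rw [hg]; exact hs'
  have h0 : (0 : Fin n →₀ ℕ) ∈ A := by rw [hA, map_zero]; exact Nat.zero_le _
  have h1 : ∀ i : Fin n, Finsupp.single i 1 ∈ A := fun i => by
    rw [hA, Finsupp.degree_single]; exact Nat.le_add_right _ _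
  -- surjectivity
  have hsurj : Surjective π := by
    intro x
    obtain ⟨p, rfl⟩ := hf x
    refine ⟨aeval (fun i => X ⟨Finsupp.single i 1, h1 i⟩) p, ?_⟩
    have : π.comp (aeval (fun i => X ⟨Finsupp.single i 1, h1 i⟩)) = f := by
      apply MvPolynomial.algHom_ext
      intro i
      rw [AlgHom.comp_apply, aeval_X, hπX]
      rfl
    exact DFunLike.congr_fun this p
  refine ⟨A, inferInstance, s.card, π, g, hsurj, ?_, fun j => (hs (s.equivFin.symm j).2).1⟩
  rw [← hspan]
  apply le_antisymm
  swap
  · rw [Ideal.span_le]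
    exact fun p hp => hp.2
  -- the inverse
  let I : Ideal (MvPolynomial A k) := Ideal.span Rel
  let q : MvPolynomial A k →ₐ[k] MvPolynomial A k ⧸ I := Ideal.Quotient.mkₐ k I
  have hq : ∀ p : MvPolynomial A k, p.totalDegree ≤ 2 → π p = 0 → q p = 0 := fun p h h' =>
    Ideal.Quotient.eq_zero_iff_mem.mpr (Ideal.subset_span ⟨h, h'⟩)
  let θ : MvPolynomial (Fin n) k →ₐ[k] MvPolynomial A k ⧸ I :=
    aeval (fun i => q (X ⟨Finsupp.single i 1, h1 i⟩))
  have hθ : ∀ (d : ℕ) (α : A), α.1.degree = d → θ (monomial α.1 1) = q (X α) := by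
    intro d
    induction d with
    | zero =>
        intro α hα
        have hα0 : α = ⟨0, h0⟩ := Subtype.ext ((Finsupp.degree_eq_zero_iff _).mp hα)
        subst hα0
        have e1 : (monomial (0 : Fin n →₀ ℕ) (1 : k) : MvPolynomial (Fin n) k) = 1 := rfl
        rw [e1, map_one]
        have := hq (X ⟨0, h0⟩ - 1) (by
          refine (totalDegree_sub _ _).trans ?_
          refine max_le ((totalDegree_X_le _).trans (by norm_num)) ?_
          rw [totalDegree_one]; norm_num) (by
            rw [map_sub, hπX, e1, map_one, map_one, sub_self])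
        rw [map_sub, map_one, sub_eq_zero] at this
        exact this.symm
    | succ d ih =>
        intro α hα
        have hne : α.1 ≠ 0 := by
          intro h
          rw [h, map_zero] at hα
          omega
        obtain ⟨i, hi⟩ := Finsupp.ne_iff.mp hne
        have hi' : 1 ≤ α.1 i := Nat.one_le_iff_ne_zero.mpr hi
        have hsum : α.1 - Finsupp.single i 1 + Finsupp.single i 1 = α.1 :=
          tsub_add_cancel_of_le (by rw [Finsupp.single_le_iff]; exact hi')
        have hβ : α.1 - Finsupp.single i 1 ∈ A := by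
          rw [hA]
          exact (Finsupp.degree_mono tsub_le_self).trans ((hA _).mp α.2)
        have hdeg : (α.1 - Finsupp.single i 1).degree = d := by
          have := congrArg Finsupp.degree hsum
          rw [map_add, hα, Finsupp.degree_single] at this
          omega
        have hmon : (monomial α.1 (1 : k) : MvPolynomial (Fin n) k) =
            monomial (α.1 - Finsupp.single i 1) 1 * X i := by
          rw [X, monomial_mul, one_mul, hsum]
        rw [hmon, map_mul, ih ⟨_, hβ⟩ hdeg]
        have hθX : θ (X i) = q (X ⟨Finsupp.single i 1, h1 i⟩) := aeval_X _ _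
        rw [hθX, ← map_mul, ← sub_eq_zero, ← map_sub]
        refine hq _ ?_ ?_
        · refine (totalDegree_sub _ _).trans (max_le ?_ ((totalDegree_X_le _).trans (by norm_num)))
          refine (totalDegree_mul _ _).trans ?_
          exact add_le_add (totalDegree_X_le _) (totalDegree_X_le _)
        · rw [map_sub, map_mul, hπX, hπX, hπX, hmon, map_mul]
          exact sub_self _
  have hθH : ∀ h ∈ H, θ h = 0 := by
    intro h hh
    have hsupp : ∀ α ∈ h.support, α ∈ A := by
      intro α hα
      rw [hA]
      have h2 : α.degree ≤ h.totalDegree := le_totalDegree hα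
      have h3 : h.totalDegree ≤ ∑ h ∈ H, h.totalDegree :=
        Finset.single_le_sum (f := fun h => h.totalDegree) (fun _ _ => Nat.zero_le _) hh
      exact h2.trans (h3.trans (Nat.le_add_left _ _))
    let p : MvPolynomial A k := ∑ α ∈ h.support.attach,
      C (coeff α.1 h) * X ⟨α.1, hsupp α.1 α.2⟩
    have e1 : ∀ {T : Type u} [CommRing T] [Algebra k T] (ψ : MvPolynomial (Fin n) k →ₐ[k] T),
        ψ h = ∑ α ∈ h.support.attach, algebraMap k T (coeff α.1 h) * ψ (monomial α.1 1) := by
      intro T _ _ ψ
      conv_lhs => rw [h.as_sum, map_sum, ← Finset.sum_attach]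
      refine Finset.sum_congr rfl (fun α _ => ?_)
      have : (monomial α.1 (coeff α.1 h) : MvPolynomial (Fin n) k) =
          algebraMap k _ (coeff α.1 h) * monomial α.1 1 := by
        rw [algebraMap_eq, C_mul_monomial, mul_one]
      rw [this, map_mul, AlgHom.commutes]
    have hp2 : p.totalDegree ≤ 2 := by
      refine (totalDegree_finsetSum _ _).trans (Finset.sup_le (fun α _ => ?_))
      refine (totalDegree_mul _ _).trans ?_
      rw [totalDegree_C, zero_add]
      exact (totalDegree_X_le _).trans (by norm_num)
    have hC : ∀ c : k, (C c : MvPolynomial A k) = algebraMap k _ c := fun c => rfl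
    have hpπ : π p = 0 := by
      have h0 : f h = 0 := by
        have : h ∈ RingHom.ker f.toRingHom := by rw [← hH]; exact Ideal.subset_span hh
        exact this
      rw [← h0, e1 f, map_sum]
      refine Finset.sum_congr rfl (fun α _ => ?_)
      rw [map_mul, hC, AlgHom.commutes, hπX]
    have h2 := hq p hp2 hpπ
    rw [e1 θ, ← h2, map_sum]
    refine Finset.sum_congr rfl (fun α _ => ?_)
    rw [map_mul, hC, AlgHom.commutes, ← hθ _ ⟨α.1, hsupp α.1 α.2⟩ rfl]
  have hker : ∀ p, f p = 0 → θ p = 0 := by
    intro p hp
    have : p ∈ Ideal.span (H : Set (MvPolynomial (Fin n) k)) := by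
      have h2 : p ∈ RingHom.ker f.toRingHom := hp
      rw [← hH] at h2
      exact h2
    have h2 : Ideal.span (H : Set (MvPolynomial (Fin n) k)) ≤ RingHom.ker θ.toRingHom :=
      Ideal.span_le.mpr (fun h hh => hθH h hh)
    exact h2 this
  let η : MvPolynomial A k →ₐ[k] MvPolynomial (Fin n) k := aeval (fun α => monomial α.1 1)
  have hη : f.comp η = π := by
    apply MvPolynomial.algHom_ext
    intro α
    rw [AlgHom.comp_apply, aeval_X, hπX]
  have hη' : θ.comp η = q := by
    apply MvPolynomial.algHom_ext
    intro α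
    rw [AlgHom.comp_apply, aeval_X]
    exact hθ _ α rfl
  intro p hp
  have hp' : π p = 0 := hp
  rw [← hη, AlgHom.comp_apply] at hp'
  have := hker _ hp'
  rw [← AlgHom.comp_apply, hη'] at this
  exact Ideal.Quotient.eq_zero_iff_mem.mp this

end Pool.Agent.Helper83.Bass
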