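import Pool.Agent.Helper83.Bass.Smooth
import Pool.Agent.Helper83.Bass.Quad

/-!
# Smooth affine cubic hypersurfaces and `G₀` of finitely generated algebras
-/

namespace Pool.Agent.Helper83.Bass

open Pool.Agent.Helper11 Function MvPolynomial

universe u

lemma totalDegree_cub {k : Type u} [CommRing k] {τ σ : Type} [Fintype σ]
    (g : σ → MvPolynomial τ k) (hg : ∀ j, (g j).totalDegree ≤ 2) : (cub g).totalDegree ≤ 3 := by
  unfold cub
  refine (totalDegree_sub _ _).trans (max_le ((totalDegree_sub _ _).trans (max_le ?_ ?_)) ?_)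
  · refine (totalDegree_pow _ _).trans ?_
    calc 2 * (X (Sum.inr (Sum.inr ())) : MvPolynomial (τ ⊕ σ ⊕ Unit) k).totalDegree
        ≤ 2 * 1 := Nat.mul_le_mul_left 2 (totalDegree_X_le _)
      _ ≤ 3 := by norm_num
  · exact (totalDegree_X_le _).trans (by norm_num)
  · refine (totalDegree_finsetSum _ _).trans (Finset.sup_le (fun j _ => ?_))
    refine (totalDegree_mul _ _).trans ?_
    have h1 : (X (Sum.inr (Sum.inl j)) : MvPolynomial (τ ⊕ σ ⊕ Unit) k).totalDegree ≤ 1 :=
      totalDegree_X_le _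
    have h2 : (rename Sum.inl (g j) : MvPolynomial (τ ⊕ σ ⊕ Unit) k).totalDegree ≤ 2 :=
      (totalDegree_rename_le _ _).trans (hg j)
    omega

theorem cubic_universal (k : Type) [CommRing k] [IsNoetherianRing k] (B : Type) [CommRing B]
    [Algebra k B] [Algebra.FiniteType k B] :
    ∃ (ι : Type) (_ : Fintype ι) (f : MvPolynomial ι k), f.totalDegree ≤ 3 ∧
      Algebra.Smooth k (MvPolynomial ι k ⧸ Ideal.span {f}) ∧
      ∃ (i : G0 B →+ G0 (MvPolynomial ι k ⧸ Ideal.span {f}))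
        (p : G0 (MvPolynomial ι k ⧸ Ideal.span {f}) →+ G0 B), ∀ x, p (i x) = x := by
  obtain ⟨τ, _, r, π, g, hπ, hker, hdeg⟩ := exists_quad (k := k) B
  obtain ⟨i, p, -, h⟩ := retract π.toRingHom hπ g hker
  exact ⟨τ ⊕ Fin r ⊕ Unit, inferInstance, cub g, totalDegree_cub g hdeg, smooth_WW g, i, p, h⟩

end Pool.Agent.Helper83.Bass
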