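import Pool.Agent.Helper83.Bass.Iso
import Pool.Agent.Helper11.KosStep

/-!
# Evaluation at a rational point of the hypersurface
-/

namespace Pool.Agent.Helper83.Bass

open Pool.Agent.Helper11 Function MvPolynomial TensorProduct Matrix

universe u

section regular

variable {S : Type u} [CommRing S]

lemma XM_equiv (l : List (S × S)) {M M' : Type u} [AddCommGroup M] [Module S M]
    [AddCommGroup M'] [Module S M'] (e : M ≃ₗ[S] M') (m : M) :
    m ∈ XM l M ↔ e m ∈ XM l M' := by
  induction l generalizing m with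
  | nil =>
      change m = 0 ↔ e m = 0
      rw [LinearEquiv.map_eq_zero_iff]
  | cons p l ih =>
      constructor
      · intro h
        obtain ⟨a, ha, _, ⟨b, rfl⟩, rfl⟩ := Submodule.mem_sup.mp h
        rw [map_add]
        refine Submodule.add_mem_sup ((ih a).mp ha) ⟨e b, ?_⟩
        exact (map_smul e p.1 b).symm
      · intro h
        obtain ⟨a, ha, _, ⟨b, rfl⟩, hab⟩ := Submodule.mem_sup.mp h
        obtain ⟨a, rfl⟩ := e.surjective a
        obtain ⟨b, rfl⟩ := e.surjective b
        have : m = a + p.1 • b := by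
          apply e.injective
          rw [map_add, map_smul, ← hab]
          rfl
        rw [this]
        exact Submodule.add_mem_sup ((ih a).mpr ha) ⟨b, rfl⟩

lemma Reg_equiv (l : List (S × S)) {M M' : Type u} [AddCommGroup M] [Module S M]
    [AddCommGroup M'] [Module S M'] (e : M ≃ₗ[S] M') (h : Reg l M') : Reg l M := by
  induction l with
  | nil => trivial
  | cons p l ih =>
      refine ⟨ih h.1, fun m hm => ?_⟩
      rw [XM_equiv l e] at hm ⊢
      rw [map_smul] at hm
      exact h.2 _ hm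

lemma XM_prod (l : List (S × S)) {M M' : Type u} [AddCommGroup M] [Module S M]
    [AddCommGroup M'] [Module S M'] (m : M × M') :
    m ∈ XM l (M × M') ↔ m.1 ∈ XM l M ∧ m.2 ∈ XM l M' := by
  induction l generalizing m with
  | nil =>
      change m = 0 ↔ m.1 = 0 ∧ m.2 = 0
      exact Prod.ext_iff
  | cons p l ih =>
      constructor
      · intro h
        obtain ⟨a, ha, _, ⟨b, rfl⟩, rfl⟩ := Submodule.mem_sup.mp h
        obtain ⟨h1, h2⟩ := (ih a).mp ha
        exact ⟨Submodule.add_mem_sup h1 ⟨b.1, rfl⟩, Submodule.add_mem_sup h2 ⟨b.2, rfl⟩⟩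
      · rintro ⟨h1, h2⟩
        obtain ⟨a, ha, _, ⟨b, rfl⟩, hab⟩ := Submodule.mem_sup.mp h1
        obtain ⟨a', ha', _, ⟨b', rfl⟩, hab'⟩ := Submodule.mem_sup.mp h2
        have : m = (a, a') + p.1 • (b, b') := Prod.ext hab.symm hab'.symm
        rw [this]
        exact Submodule.add_mem_sup ((ih (a, a')).mpr ⟨ha, ha'⟩) ⟨(b, b'), rfl⟩

lemma Reg_prod (l : List (S × S)) {M M' : Type u} [AddCommGroup M] [Module S M]
    [AddCommGroup M'] [Module S M'] (h : Reg l M) (h' : Reg l M') : Reg l (M × M') := by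
  induction l with
  | nil => trivial
  | cons p l ih =>
      refine ⟨ih h.1 h'.1, fun m hm => ?_⟩
      rw [XM_prod] at hm ⊢
      exact ⟨h.2 _ hm.1, h'.2 _ hm.2⟩

lemma XM_le (l : List (S × S)) {M : Type u} [AddCommGroup M] [Module S M] (N : Submodule S M)
    (h : ∀ p ∈ l, ∀ m : M, p.1 • m ∈ N) : XM l M ≤ N := by
  induction l with
  | nil => exact bot_le
  | cons p l ih =>
      refine sup_le (ih (fun q hq => h q (List.mem_cons_of_mem _ hq))) ?_
      rintro _ ⟨m, rfl⟩
      exact h p List.mem_cons_self m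

lemma smul_mem_XM (l : List (S × S)) {M : Type u} [AddCommGroup M] [Module S M] (p : S × S)
    (hp : p ∈ l) (m : M) : p.1 • m ∈ XM l M := by
  induction l with
  | nil => exact absurd hp List.not_mem_nil
  | cons q l ih =>
      rcases List.mem_cons.mp hp with rfl | hp
      · exact Submodule.mem_sup_right ⟨m, rfl⟩
      · exact Submodule.mem_sup_left (ih hp)

variable {W : Type u} [CommRing W] [Algebra S W]

/-- the image of a list of pairs -/
def mapl (W : Type u) [CommRing W] [Algebra S W] (l : List (S × S)) : List (W × W) :=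
  l.map (fun p => (algebraMap S W p.1, algebraMap S W p.2))

lemma XM_mapl (l : List (S × S)) {M : Type u} [AddCommGroup M] [Module S M] [Module W M]
    [IsScalarTower S W M] (m : M) : m ∈ XM (mapl W l) M ↔ m ∈ XM l M := by
  induction l generalizing m with
  | nil => exact Iff.rfl
  | cons p l ih =>
      constructor
      · intro h
        obtain ⟨a, ha, _, ⟨b, rfl⟩, rfl⟩ := Submodule.mem_sup.mp h
        refine Submodule.add_mem_sup ((ih a).mp ha) ⟨b, ?_⟩
        exact (algebraMap_smul W p.1 b).symm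
      · intro h
        obtain ⟨a, ha, _, ⟨b, rfl⟩, rfl⟩ := Submodule.mem_sup.mp h
        refine Submodule.add_mem_sup ((ih a).mpr ha) ⟨b, ?_⟩
        exact algebraMap_smul W p.1 b

lemma Reg_mapl (l : List (S × S)) {M : Type u} [AddCommGroup M] [Module S M] [Module W M]
    [IsScalarTower S W M] (h : Reg l M) : Reg (mapl W l) M := by
  induction l with
  | nil => trivial
  | cons p l ih =>
      refine ⟨ih h.1, fun m hm => ?_⟩
      change m ∈ XM (mapl W l) M
      change algebraMap S W p.1 • m ∈ XM (mapl W l) M at hm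
      rw [XM_mapl] at hm ⊢
      rw [algebraMap_smul] at hm
      exact h.2 _ hm

end regular

section tpart

variable {k : Type u} [CommRing k] {τ σ : Type} [Fintype σ] {g : σ → MvPolynomial τ k}

variable (g) in
/-- the ideal `(z, y)` of `W` -/
noncomputable def JJ : Ideal (WR g) :=
  Ideal.span (Set.range (fun i : τ ⊕ σ => algebraMap (MvPolynomial (τ ⊕ σ) k) (WR g) (X i)))

lemma algD_y (j : σ) : algebraMap (MvPolynomial (τ ⊕ σ) k) (WR g) (X (Sum.inr j)) = yW g j := by
  rw [algD_apply, emb, rename_X]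
  rfl

lemma y_mem (j : σ) : yW g j ∈ JJ g := by
  rw [← algD_y]
  exact Ideal.subset_span ⟨Sum.inr j, rfl⟩

lemma tt_mem : tW g ^ 2 - tW g ∈ JJ g := by
  rw [tW_rel]
  exact Ideal.sum_mem _ (fun j _ => Ideal.mul_mem_right _ _ (y_mem j))

variable (g) in
/-- evaluation at the point `z = 0`, `y = 0`, `t = 1` -/
lemma exists_point : ∃ ε : WR g →+* k, (∀ r, ε (algebraMap k _ r) = r) ∧
    (∀ i : τ ⊕ σ, ε (algebraMap (MvPolynomial (τ ⊕ σ) k) (WR g) (X i)) = 0) ∧
    ε (tW g) = 1 := by
  obtain ⟨ε, h1, h2, h3⟩ := exists_lift g (constantCoeff : MvPolynomial τ k →+* k) 0 1 (by simp)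
  refine ⟨ε, ?_, ?_, h3⟩
  · intro r
    have := h1 (C r)
    rw [constantCoeff_C] at this
    rw [IsScalarTower.algebraMap_apply k (MvPolynomial τ k) (WR g), MvPolynomial.algebraMap_eq]
    exact this
  · rintro (i | j)
    · have := h1 (X i)
      rw [constantCoeff_X] at this
      rw [← this, algD_apply, algA_apply, emb, rename_X, rename_X]
      rfl
    · rw [algD_y, h2]
      rfl

lemma sub_point {ε : WR g →+* k} (h1 : ∀ r, ε (algebraMap k _ r) = r)
    (h2 : ∀ i : τ ⊕ σ, ε (algebraMap (MvPolynomial (τ ⊕ σ) k) (WR g) (X i)) = 0)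
    (h3 : ε (tW g) = 1) (w : WR g) :
    w - algebraMap k _ (ε w) ∈ JJ g ⊔ Ideal.span {tW g - 1} := by
  let J := JJ g ⊔ Ideal.span {tW g - 1}
  obtain ⟨p, rfl⟩ := mkW_surj g w
  induction p using MvPolynomial.induction_on with
  | C r =>
      rw [← algK_apply, h1, sub_self]
      exact J.zero_mem
  | add p q hp hq =>
      have : mkW g (p + q) - algebraMap k _ (ε (mkW g (p + q))) =
          (mkW g p - algebraMap k _ (ε (mkW g p))) + (mkW g q - algebraMap k _ (ε (mkW g q))) := by
        rw [map_add, map_add, map_add]; ring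
      rw [this]
      exact J.add_mem hp hq
  | mul_X p i hp =>
      have hX : mkW g (X i) - algebraMap k _ (ε (mkW g (X i))) ∈ J := by
        rcases i with i | j | i
        · have h : mkW g (X (Sum.inl i)) =
              algebraMap (MvPolynomial (τ ⊕ σ) k) (WR g) (X (Sum.inl i)) := by
            rw [algD_apply, emb, rename_X]; rfl
          rw [h, h2, map_zero, sub_zero]
          exact Ideal.mem_sup_left (Ideal.subset_span ⟨_, rfl⟩)
        · have h : mkW g (X (Sum.inr (Sum.inl j))) =
              algebraMap (MvPolynomial (τ ⊕ σ) k) (WR g) (X (Sum.inr j)) := by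
            rw [algD_apply, emb, rename_X]; rfl
          rw [h, h2, map_zero, sub_zero]
          exact Ideal.mem_sup_left (Ideal.subset_span ⟨_, rfl⟩)
        · have h : mkW g (X (Sum.inr (Sum.inr i))) = tW g := rfl
          rw [h, h3, map_one]
          exact Ideal.mem_sup_right (Ideal.mem_span_singleton_self _)
      have : mkW g (p * X i) - algebraMap k _ (ε (mkW g (p * X i))) =
          (mkW g p - algebraMap k _ (ε (mkW g p))) * mkW g (X i) +
            algebraMap k _ (ε (mkW g p)) * (mkW g (X i) - algebraMap k _ (ε (mkW g (X i)))) := by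
        rw [map_mul, map_mul, map_mul]; ring
      rw [this]
      exact J.add_mem (J.mul_mem_right _ hp) (J.mul_mem_left _ hX)

lemma ker_point {ε : WR g →+* k} (h1 : ∀ r, ε (algebraMap k _ r) = r)
    (h2 : ∀ i : τ ⊕ σ, ε (algebraMap (MvPolynomial (τ ⊕ σ) k) (WR g) (X i)) = 0)
    (h3 : ε (tW g) = 1) : RingHom.ker ε ≤ JJ g ⊔ Ideal.span {tW g - 1} := by
  intro w hw
  have := sub_point h1 h2 h3 w
  rwa [RingHom.mem_ker.mp hw, map_zero, sub_zero] at this

variable [IsNoetherianRing k] [Finite τ]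

/-- the part of a module where `t` acts as one -/
noncomputable def tp (M : FGMod (WR g)) : FGMod (WR g) :=
  FGMod.of (WR g) (LinearMap.range (LinearMap.lsmul (WR g) M (tW g)))

omit [IsNoetherianRing k] [Finite τ] in
lemma t_idem (M : FGMod (WR g)) (hM : KilledBy (JJ g) M) (m : M) :
    tW g • (tW g • m) = tW g • m := by
  have h2 := hM _ tt_mem m
  rw [sub_smul, sub_eq_zero, pow_two, mul_smul] at h2
  exact h2

lemma tp_killed {ε : WR g →+* k} (h1 : ∀ r, ε (algebraMap k _ r) = r)
    (h2 : ∀ i : τ ⊕ σ, ε (algebraMap (MvPolynomial (τ ⊕ σ) k) (WR g) (X i)) = 0)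
    (h3 : ε (tW g) = 1) (M : FGMod (WR g)) (hM : KilledBy (JJ g) M) :
    KilledBy (RingHom.ker ε) (tp M) := by
  intro s hs x
  have hle : JJ g ⊔ Ideal.span {tW g - 1} ≤ Module.annihilator (WR g) (tp M) := by
    refine sup_le (fun s hs => Module.mem_annihilator.mpr (fun x => Subtype.ext (hM s hs _))) ?_
    rw [Ideal.span_le, Set.singleton_subset_iff]
    refine Module.mem_annihilator.mpr ?_
    rintro ⟨_, m, rfl⟩
    apply Subtype.ext
    change (tW g - 1) • (tW g • m) = 0
    rw [sub_smul, t_idem M hM, one_smul, sub_self]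
  exact Module.mem_annihilator.mp (hle (ker_point h1 h2 h3 hs)) x

/-- the functional on the modules killed by `(z, y)` -/
theorem isAdd_tp {Γ : Type*} [AddCommGroup Γ] {χ₀ : FGMod (WR g) → Γ} {ε : WR g →+* k}
    (h1 : ∀ r, ε (algebraMap k _ r) = r)
    (h2 : ∀ i : τ ⊕ σ, ε (algebraMap (MvPolynomial (τ ⊕ σ) k) (WR g) (X i)) = 0)
    (h3 : ε (tW g) = 1) (hχ : IsAdd (KilledBy (RingHom.ker ε)) χ₀) :
    IsAdd (KilledBy (JJ g)) (fun M => χ₀ (tp M)) where
  sq := subQuot_killedBy _
  add M' M M'' f g' hf hg hfg hM := by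
    have hM' := (subQuot_killedBy _).sub M' M f hf hM
    let f' : tp M' →ₗ[WR g] tp M := f.restrict
      (p := LinearMap.range (LinearMap.lsmul (WR g) M' (tW g)))
      (q := LinearMap.range (LinearMap.lsmul (WR g) M (tW g))) (by
        rintro _ ⟨m, rfl⟩
        exact ⟨f m, (map_smul f _ _).symm⟩)
    let g'' : tp M →ₗ[WR g] tp M'' := g'.restrict
      (p := LinearMap.range (LinearMap.lsmul (WR g) M (tW g)))
      (q := LinearMap.range (LinearMap.lsmul (WR g) M'' (tW g))) (by
        rintro _ ⟨m, rfl⟩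
        exact ⟨g' m, (map_smul g' _ _).symm⟩)
    refine hχ.add _ _ _ f' g'' ?_ ?_ ?_ (tp_killed h1 h2 h3 M hM)
    · intro x y hxy
      exact Subtype.ext (hf (congrArg Subtype.val hxy))
    · rintro ⟨_, m, rfl⟩
      obtain ⟨m, rfl⟩ := hg m
      exact ⟨⟨tW g • m, m, rfl⟩, Subtype.ext (map_smul g' _ _)⟩
    · rintro ⟨_, m, rfl⟩
      constructor
      · intro h
        have h' : g' (tW g • m) = 0 := congrArg Subtype.val h
        obtain ⟨y, hy⟩ := (hfg _).mp h'
        refine ⟨⟨tW g • y, y, rfl⟩, Subtype.ext ?_⟩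
        change f (tW g • y) = tW g • m
        rw [map_smul, hy, t_idem M hM]
      · rintro ⟨⟨y, hy⟩, h⟩
        have h' : f y = tW g • m := congrArg Subtype.val h
        apply Subtype.ext
        change g' (tW g • m) = 0
        rw [← h', hfg.apply_apply_eq_zero]

end tpart

section reg

variable {k : Type u} [CommRing k] {τ σ : Type} [Fintype σ] (g : σ → MvPolynomial τ k)

/-- the coordinates form a regular sequence on extended modules -/
theorem reg_bc (js : List (τ ⊕ σ)) (hjs : js.Nodup) (N : FGMod k) :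
    Reg (mapl (WR g) (lst (fun _ => (0 : k)) js)) (bc k (WR g) N) := by
  have h1 := reg_lst (N := N) (fun _ => (0 : k)) js hjs
  have h2 := Reg_prod _ h1 h1
  let e : (WR g ⊗[k] N) ≃ₗ[MvPolynomial (τ ⊕ σ) k]
      (MvPolynomial (τ ⊕ σ) k ⊗[k] N) × (MvPolynomial (τ ⊕ σ) k ⊗[k] N) :=
    (AlgebraTensorModule.congr (basisEquiv g).symm (LinearEquiv.refl k N)).trans
      (TensorProduct.prodLeft k (MvPolynomial (τ ⊕ σ) k) (MvPolynomial (τ ⊕ σ) k)
        (MvPolynomial (τ ⊕ σ) k) N)
  have h3 := Reg_equiv _ e h2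
  exact Reg_mapl (W := WR g) (lst (fun _ => (0 : k)) js) h3

/-- the Koszul functional at the rational point -/
theorem exists_rho [IsNoetherianRing k] [Finite τ] :
    ∃ ρ : G0 (WR g) →+ G0 k, (∀ N : FGMod k, ρ (G0.mk (bc k (WR g) N)) = G0.mk N) ∧
      ∀ M : FGMod (WR g), (∀ m : M, tW g • m = 0) → ρ (G0.mk M) = 0 := by
  classical
  haveI := Fintype.ofFinite τ
  obtain ⟨ε, hε1, hε2, hε3⟩ := exists_point g
  have hεs : Surjective ε := fun r => ⟨_, hε1 r⟩
  let js : List (τ ⊕ σ) := Finset.univ.toList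
  have hjs : js.Nodup := Finset.nodup_toList _
  have hall : ∀ j, j ∈ js := fun j => by simp [js]
  let l := mapl (WR g) (lst (fun _ => (0 : k)) js)
  have hmem : ∀ p ∈ l, ∃ i, p = (algebraMap (MvPolynomial (τ ⊕ σ) k) (WR g) (X i), 0) := by
    intro p hp
    obtain ⟨q, hq, rfl⟩ := List.mem_map.mp hp
    obtain ⟨i, -, rfl⟩ := List.mem_map.mp hq
    exact ⟨i, by rw [map_zero, map_zero]⟩
  have hmem' : ∀ i, (algebraMap (MvPolynomial (τ ⊕ σ) k) (WR g) (X i), (0 : WR g)) ∈ l := by
    intro i
    refine List.mem_map.mpr ⟨(X i, C 0), List.mem_map.mpr ⟨i, hall i, rfl⟩, ?_⟩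
    rw [map_zero, map_zero]
  have hcurv : curv l = 0 := by
    rw [curv]
    refine List.sum_eq_zero ?_
    intro x hx
    obtain ⟨p, hp, rfl⟩ := List.mem_map.mp hx
    obtain ⟨i, rfl⟩ := hmem p hp
    exact mul_zero _
  obtain ⟨ι₀, ι₁, _, _, _, _, φ, ψ, e, h1, h2, h3, h4⟩ := exists_kos l
  obtain ⟨I, hI⟩ := nullK_ideal (Ideal.span {curv l}) φ ψ
  have hJ : ∀ t ∈ JJ g, NullK (Ideal.span {curv l}) φ ψ t := by
    intro t ht
    rw [← hI]
    have hle : JJ g ≤ I := by
      rw [JJ, Ideal.span_le]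
      rintro _ ⟨i, rfl⟩
      exact (hI _).mpr ((h3 _ (hmem' i)).1.nullK)
    exact hle ht
  have hχ₀ := isAdd_desc ε hεs (G0.isAdd_mk (R := k))
  have hker : (⊥ : Ideal k).comap ε = RingHom.ker ε := rfl
  rw [hker] at hχ₀
  have hχ := isAdd_tp hε1 hε2 hε3 hχ₀
  have hper := isAdd_perχ hχ φ ψ hJ (compK_of_mul h1 h2)
  have hall0 : ∀ M : FGMod (WR g), KilledBy (Ideal.span {curv l}) M := by
    intro M s hs m
    rw [hcurv] at hs
    obtain ⟨a, rfl⟩ := Ideal.mem_span_singleton'.mp hs
    rw [mul_zero, zero_smul]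
  let Χ : FGMod (WR g) → G0 k := perχ (fun M => G0.mk (desc ε hεs (tp M))) φ ψ
  refine ⟨G0h.hom Χ (fun M' M M'' e => hper.add M' M M'' e.f e.g e.inj e.surj e.exact (hall0 M)),
    ?_, ?_⟩
  · intro N
    rw [G0h.hom_mk]
    let M : FGMod (WR g) := bc k (WR g) N
    have hreg : Reg l M := reg_bc g js hjs N
    obtain ⟨k1, k2, k3, k4⟩ := h4 M (fun p hp m => by
      obtain ⟨i, rfl⟩ := hmem p hp
      exact zero_smul _ _) hreg
    let Q : FGMod (WR g) := FGMod.of (WR g) (M ⧸ XM l M)
    have hq : ∀ m : M, (XM l M).mkQ m = 0 ↔ m ∈ XM l M := fun m => by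
      rw [Submodule.mkQ_apply, Submodule.Quotient.mk_eq_zero]
    have hval : Χ M = G0.mk (desc ε hεs (tp Q)) :=
      perχ_eq hχ φ ψ hJ l e M Q (hall0 M) k1 k2 k3 k4 (XM l M).mkQ (XM l M).mkQ_surjective hq
    refine hval.trans ?_
    refine mk_desc ε hεs (tp Q) N ?_
    let Z : FGMod (WR g) := restr ε hεs N
    let z : Z ≃+ N := restrEquiv ε hεs N
    have hz : ∀ (w : WR g) (x : Z), z (w • x) = ε w • z x := fun _ _ => rfl
    letI : Module k Z := Module.compHom Z (algebraMap k (WR g))
    haveI : IsScalarTower k (WR g) Z := ⟨fun c v m => by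
      rw [Algebra.smul_def, mul_smul]; rfl⟩
    let q₀ : N →ₗ[k] Z :=
      { toFun := fun n => z.symm n
        map_add' := fun x y => map_add z.symm x y
        map_smul' := fun r n => by
          apply z.injective
          rw [RingHom.id_apply]
          change z (z.symm _) = z (algebraMap k (WR g) r • _)
          rw [hz, AddEquiv.apply_symm_apply, AddEquiv.apply_symm_apply, hε1] }
    let q : M →ₗ[WR g] Z := LinearMap.liftBaseChange (WR g) q₀
    have hqt : ∀ (w : WR g) (n : N), z (q (w ⊗ₜ[k] n)) = ε w • n := by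
      intro w n
      have : q (w ⊗ₜ[k] n) = w • q₀ n := LinearMap.liftBaseChange_tmul _ _ _ _
      rw [this, hz]
      congr 1
    have hXq : XM l M ≤ LinearMap.ker q := by
      refine XM_le l _ (fun p hp m => ?_)
      obtain ⟨i, rfl⟩ := hmem p hp
      rw [LinearMap.mem_ker, map_smul]
      apply z.injective
      rw [hz, hε2, zero_smul, map_zero]
    have hJX : ∀ s ∈ JJ g, ∀ m : M, s • m ∈ XM l M := by
      intro s hs m
      have hle : JJ g ≤ (XM l M).colon {m} := by
        rw [JJ, Ideal.span_le]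
        rintro _ ⟨i, rfl⟩
        rw [SetLike.mem_coe, Submodule.mem_colon_singleton]
        exact smul_mem_XM l _ (hmem' i) m
      exact Submodule.mem_colon_singleton.mp (hle hs)
    have key : ∀ m : M, tW g • m - tW g • ((1 : WR g) ⊗ₜ[k] (z (q m)) : M) ∈ XM l M := by
      intro m
      induction m using TensorProduct.induction_on with
      | zero =>
          have h1 : q 0 = 0 := map_zero q
          have h2 : ((1 : WR g) ⊗ₜ[k] (z (q 0)) : M) = 0 := by
            rw [h1, map_zero]
            exact TensorProduct.tmul_zero _ _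
          refine (congrArg (fun y : M => tW g • (0 : M) - tW g • y ∈ XM l M) h2).mpr ?_
          rw [sub_self]
          exact Submodule.zero_mem _
      | tmul w n =>
          have h1 : ((1 : WR g) ⊗ₜ[k] (z (q (w ⊗ₜ[k] n))) : M) =
              (algebraMap k (WR g) (ε w)) ⊗ₜ[k] n := by
            rw [hqt, TensorProduct.tmul_smul, TensorProduct.smul_tmul', Algebra.smul_def, mul_one]
          rw [h1]
          have h2 : tW g • (w ⊗ₜ[k] n : M) - tW g • ((algebraMap k (WR g) (ε w)) ⊗ₜ[k] n : M) =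
              (tW g * (w - algebraMap k (WR g) (ε w))) • ((1 : WR g) ⊗ₜ[k] n : M) := by
            change (tW g * w) ⊗ₜ[k] n - (tW g * algebraMap k (WR g) (ε w)) ⊗ₜ[k] n =
              (tW g * (w - algebraMap k (WR g) (ε w)) * 1) ⊗ₜ[k] n
            rw [← TensorProduct.sub_tmul, mul_one, mul_sub]
          rw [h2]
          obtain ⟨a, ha, b, hb, hab⟩ := Submodule.mem_sup.mp (sub_point hε1 hε2 hε3 w)
          obtain ⟨c, rfl⟩ := Ideal.mem_span_singleton'.mp hb
          refine hJX _ ?_ _
          rw [← hab]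
          have : tW g * (a + c * (tW g - 1)) = tW g * a + c * (tW g ^ 2 - tW g) := by ring
          rw [this]
          exact (JJ g).add_mem ((JJ g).mul_mem_left _ ha) ((JJ g).mul_mem_left _ tt_mem)
      | add x y hx hy =>
          have h1 : q (x + y) = q x + q y := map_add q x y
          have h2 : ((1 : WR g) ⊗ₜ[k] (z (q (x + y))) : M) =
              ((1 : WR g) ⊗ₜ[k] (z (q x)) : M) + ((1 : WR g) ⊗ₜ[k] (z (q y)) : M) := by
            rw [h1, map_add]
            exact TensorProduct.tmul_add _ _ _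
          have h3 : tW g • (x + y : M) - tW g • ((1 : WR g) ⊗ₜ[k] (z (q (x + y))) : M) =
              (tW g • (x : M) - tW g • ((1 : WR g) ⊗ₜ[k] (z (q x)) : M)) +
              (tW g • (y : M) - tW g • ((1 : WR g) ⊗ₜ[k] (z (q y)) : M)) := by
            have h4 : tW g • (x + y : M) = tW g • (x : M) + tW g • (y : M) := smul_add _ _ _
            have h5 : tW g • (((1 : WR g) ⊗ₜ[k] (z (q x)) : M) +
                ((1 : WR g) ⊗ₜ[k] (z (q y)) : M)) = tW g • ((1 : WR g) ⊗ₜ[k] (z (q x)) : M) +
                tW g • ((1 : WR g) ⊗ₜ[k] (z (q y)) : M) := smul_add _ _ _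
            rw [h2, h4, h5]
            abel
          rw [h3]
          exact Submodule.add_mem _ hx hy
    let qb : Q →ₗ[WR g] Z := (XM l M).liftQ q hXq
    have hqb : ∀ m : M, qb ((XM l M).mkQ m) = q m := fun m => rfl
    let f : tp Q →ₗ[WR g] Z :=
      qb.comp (LinearMap.range (LinearMap.lsmul (WR g) Q (tW g))).subtype
    have hf : Bijective f := by
      constructor
      · rw [← LinearMap.ker_eq_bot, eq_bot_iff]
        rintro ⟨_, u, rfl⟩ hx
        obtain ⟨m, rfl⟩ := (XM l M).mkQ_surjective u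
        have hx' : qb (tW g • (XM l M).mkQ m) = 0 := hx
        rw [map_smul, hqb] at hx'
        have h5 : z (q m) = 0 := by
          have := congrArg z hx'
          rwa [hz, hε3, one_smul, map_zero] at this
        have h6 := key m
        have h7 : ((1 : WR g) ⊗ₜ[k] (z (q m)) : M) = 0 := by
          rw [h5]; exact TensorProduct.tmul_zero _ _
        rw [h7, smul_zero, sub_zero] at h6
        apply Subtype.ext
        change tW g • (XM l M).mkQ m = 0
        rw [← map_smul, hq]
        exact h6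
      · intro y
        refine ⟨⟨tW g • (XM l M).mkQ ((1 : WR g) ⊗ₜ[k] (z y)), _, rfl⟩, ?_⟩
        change qb (tW g • (XM l M).mkQ ((1 : WR g) ⊗ₜ[k] (z y))) = y
        rw [map_smul, hqb]
        apply z.injective
        rw [hz, hqt, map_one, one_smul, hε3, one_smul]
    exact LinearEquiv.ofBijective f hf
  · intro M hM
    rw [G0h.hom_mk]
    have hsub : ∀ P : FGMod (WR g), KilledBy (JJ g) P → (∀ x : P, tW g • x = 0) →
        G0.mk (desc ε hεs (tp P)) = 0 := by
      intro P hP ht
      haveI : Subsingleton (tp P) := ⟨by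
        rintro ⟨_, x, rfl⟩ ⟨_, y, rfl⟩
        apply Subtype.ext
        change tW g • x = tW g • y
        rw [ht, ht]⟩
      exact hχ₀.zero (tp P) (tp_killed hε1 hε2 hε3 P hP)
    have ht : ∀ {ι ι' : Type} [Fintype ι] [Fintype ι'] (φ : Matrix ι' ι (WR g))
        (ψ : Matrix ι ι' (WR g)) (x : perH φ ψ M), tW g • x = 0 := by
      intro ι ι' _ _ φ ψ x
      obtain ⟨⟨v, hv⟩, rfl⟩ := Submodule.mkQ_surjective _ x
      rw [← map_smul]
      have : tW g • (⟨v, hv⟩ : LinearMap.ker (act φ M)) = 0 :=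
        Subtype.ext (funext fun i => hM (v i))
      rw [this, map_zero]
    change G0.mk (desc ε hεs (tp (perH φ ψ M))) - G0.mk (desc ε hεs (tp (perH ψ φ M))) = 0
    rw [hsub _ (perH_killed φ ψ hJ M (hall0 M)) (ht φ ψ),
      hsub _ (perH_killed ψ φ (fun t ht => (hJ t ht).symm) M (hall0 M)) (ht ψ φ), sub_zero]

end reg

end Pool.Agent.Helper83.Bass
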