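import Pool.Agent.Helper83.Bass.SurjAll
import Pool.Agent.Helper83.Bass.Eval
import Pool.Agent.Helper83.Bass.Cubic

/-!
# `G₀` of the hypersurface
-/

namespace Pool.Agent.Helper83.Bass

open Pool.Agent.Helper11 Function MvPolynomial TensorProduct

universe u

/-- the pull back along a flat extension -/
theorem exists_pull (k W : Type u) [CommRing k] [CommRing W] [Algebra k W] [Module.Flat k W] :
    ∃ p : G0 k →+ G0 W, ∀ N : FGMod k, p (G0.mk N) = G0.mk (bc k W N) := by
  refine ⟨G0h.hom (fun N => G0.mk (bc k W N)) ?_, fun N => G0h.hom_mk _ _ N⟩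
  intro M' M M'' e
  obtain ⟨e'⟩ := exactF_baseChange (R := k) (A := W) M' M M'' e
  exact G0.mk_add _ _ _ e'.f e'.g e'.inj e'.surj e'.exact

variable {k : Type u} [CommRing k] [IsNoetherianRing k] {τ σ : Type} [Finite τ] [Fintype σ]
  {B : Type u} [CommRing B] (π : MvPolynomial τ k →+* B) (hπ : Surjective π)
  (g : σ → MvPolynomial τ k) (hker : RingHom.ker π = Ideal.span (Set.range g))

include hπ hker in
/-- **The computation**: `G₀(W) = G₀(k) ⊕ G₀(B)` -/
theorem exists_iso : ∃ e : G0 (WR g) ≃+ G0 k × G0 B,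
    ∀ N : FGMod k, e (G0.mk (bc k (WR g) N)) = (G0.mk N, 0) := by
  have : IsNoetherianRing B := isNoetherianRing_of_surjective _ _ π hπ
  have hg : ∀ j, π (g j) = 0 := fun j => by
    have : g j ∈ RingHom.ker π := by rw [hker]; exact Ideal.subset_span ⟨j, rfl⟩
    exact this
  obtain ⟨i, p, hi, hpi⟩ := retract π hπ g hker
  obtain ⟨F₀, hF₀⟩ := exists_eps g π hg 0 (Or.inl rfl)
  obtain ⟨F₁, hF₁⟩ := exists_eps g π hg 1 (Or.inr rfl)
  let i' : G0 B →+ G0 (WR g) := i
  let p' : G0 (WR g) →+ G0 B := p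
  have hpi' : ∀ x, p' (i' x) = x := hpi
  have hi' : ∀ N : FGMod B, i' (G0.mk N) = G0.mk (restr F₀ (hF₀.surj hπ) (polyMod σ N)) :=
    fun N => (hi N).trans (mk_eps hF₀ hπ N)
  obtain ⟨q, hq⟩ := exists_pull k (WR g)
  obtain ⟨ρ, hρ1, hρ2⟩ := exists_rho g
  have hρq : ∀ x, ρ (q x) = x := by
    intro x
    induction x using G0.induction with
    | hz => rw [map_zero, map_zero]
    | hm M => rw [hq, hρ1]
    | hn x hx => rw [map_neg, map_neg, hx]
    | ha x y hx hy => rw [map_add, map_add, hx, hy]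
  have hρi : ∀ x, ρ (i' x) = 0 := by
    intro x
    induction x using G0.induction with
    | hz => rw [map_zero, map_zero]
    | hm M =>
        rw [hi']
        refine hρ2 _ (fun m => ?_)
        apply (restrEquiv F₀ (hF₀.surj hπ) (polyMod σ M)).injective
        rw [restrEquiv_smul, hF₀.t, Nat.cast_zero, map_zero]
        exact zero_smul _ _
    | hn x hx => rw [map_neg, map_neg, hx, neg_zero]
    | ha x y hx hy => rw [map_add, map_add, hx, hy, add_zero]
  let Φ : G0 k × G0 B →+ G0 (WR g) := q.coprod i'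
  have hΦ : ∀ x y, Φ (x, y) = q x + i' y := fun x y => rfl
  have hinj : Injective Φ := by
    rw [injective_iff_map_eq_zero]
    rintro ⟨x, y⟩ h
    rw [hΦ] at h
    have hx : x = 0 := by
      have := congrArg ρ h
      rwa [map_add, hρq, hρi, add_zero, map_zero] at this
    rw [hx, map_zero, zero_add] at h
    have hy : y = 0 := by
      have := congrArg p' h
      rwa [hpi', map_zero] at this
    rw [hx, hy]
    rfl
  have hsurj : Surjective Φ := by
    have h0 : ∀ N : FGMod B, G0.mk (restr F₀ (hF₀.surj hπ) (polyMod σ N)) ∈ Φ.range := by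
      intro N
      rw [← hi']
      exact ⟨(0, G0.mk N), by rw [hΦ, map_zero, zero_add]⟩
    have hA : ∀ N : FGMod (MvPolynomial τ k),
        G0.mk (bc (MvPolynomial τ k) (WR g) N) ∈ Φ.range := by
      refine gen_mvPolynomial k τ _ (resClass_comap (resClass_mk Φ.range)
        exactF_baseChange (fun M N e => bc_iso e)) ?_
      intro L
      have h1 : G0.mk (bc (MvPolynomial τ k) (WR g) (bc k (MvPolynomial τ k) L)) =
        G0.mk (bc k (WR g) L) := mk_bc_bc L
      rw [h1, ← hq]
      exact ⟨(G0.mk L, 0), by rw [hΦ, map_zero, add_zero]⟩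
    have hall : ∀ M : FGMod (WR g), G0.mk M ∈ Φ.range :=
      mem_all hF₁ hF₀ hπ hker h0 hA
    have htop : Φ.range = ⊤ := by
      rw [eq_top_iff]
      rintro x -
      induction x using G0.induction with
      | hz => exact Φ.range.zero_mem
      | hm M => exact hall M
      | hn x hx => exact Φ.range.neg_mem hx
      | ha x y hx hy => exact Φ.range.add_mem hx hy
    exact AddMonoidHom.range_eq_top.mp htop
  refine ⟨(AddEquiv.ofBijective Φ ⟨hinj, hsurj⟩).symm, fun N => ?_⟩
  rw [AddEquiv.symm_apply_eq]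
  change _ = Φ (G0.mk N, 0)
  rw [hΦ, map_zero, add_zero, hq]

/-- the universality theorem -/
theorem cubic_iso (k : Type) [CommRing k] [IsNoetherianRing k] (B : Type) [CommRing B]
    [Algebra k B] [Algebra.FiniteType k B] :
    ∃ (ι : Type) (_ : Fintype ι) (f : MvPolynomial ι k), f.totalDegree ≤ 3 ∧
      Algebra.Smooth k (MvPolynomial ι k ⧸ Ideal.span {f}) ∧
      ∃ e : G0 (MvPolynomial ι k ⧸ Ideal.span {f}) ≃+ G0 k × G0 B,
        ∀ N : FGMod k, e (G0.mk (FGMod.of (MvPolynomial ι k ⧸ Ideal.span {f})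
          ((MvPolynomial ι k ⧸ Ideal.span {f}) ⊗[k] N))) = (G0.mk N, 0) := by
  obtain ⟨τ, _, r, π, g, hπ, hker, hdeg⟩ := exists_quad (k := k) B
  obtain ⟨e, he⟩ := exists_iso π.toRingHom hπ g hker
  exact ⟨τ ⊕ Fin r ⊕ Unit, inferInstance, cub g, totalDegree_cub g hdeg, smooth_WW g, e, he⟩

end Pool.Agent.Helper83.Bass
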