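import Pool.Agent.Helper83.Bass.Functors
import Pool.Agent.Helper11.PolyInd

/-!
# Modules over polynomial rings are generated by extended modules
-/

namespace Pool.Agent.Helper83.Bass

open Pool.Agent.Helper11 Function TensorProduct

universe u

/-- the extended module `S ⊗ N` -/
noncomputable abbrev bc (R S : Type u) [CommRing R] [CommRing S] [Algebra R S] (N : FGMod R) :
    FGMod S := FGMod.of S (S ⊗[R] N)

/-- every class of finitely generated `S`-modules with the closure properties of `ResClass` which
contains the extended modules contains everything -/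
def Gen (R S : Type u) [CommRing R] [CommRing S] [Algebra R S] : Prop :=
  ∀ P : FGMod S → Prop, ResClass P → (∀ N : FGMod R, P (bc R S N)) → ∀ M, P M

/-- pull back of a class by an exact functor which preserves isomorphisms -/
lemma resClass_comap {R S : Type u} [CommRing R] [CommRing S] {P : FGMod S → Prop}
    (hP : ResClass P) {Φ : FGMod R → FGMod S} (hΦ : ExactF Φ)
    (hiso : ∀ M N : FGMod R, (M ≃ₗ[R] N) → Nonempty (Φ M ≃ₗ[S] Φ N)) :
    ResClass (fun M => P (Φ M)) where
  iso M N e h := by
    obtain ⟨e'⟩ := hiso M N e
    exact hP.iso _ _ e' h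
  ext M' M M'' f g hf hg hfg h1 h2 := by
    obtain ⟨e⟩ := hΦ M' M M'' ⟨f, g, hf, hg, hfg⟩
    exact hP.ext _ _ _ e.f e.g e.inj e.surj e.exact h1 h2
  coker M' M M'' f g hf hg hfg h1 h2 := by
    obtain ⟨e⟩ := hΦ M' M M'' ⟨f, g, hf, hg, hfg⟩
    exact hP.coker _ _ _ e.f e.g e.inj e.surj e.exact h1 h2

section

variable {R S T : Type u} [CommRing R] [CommRing S] [CommRing T]

lemma bc_iso [Algebra R S] {M N : FGMod R} (e : M ≃ₗ[R] N) : Nonempty (bc R S M ≃ₗ[S] bc R S N) :=
  ⟨e.baseChange R S M N⟩

lemma restr_iso (π : S →+* R) (hπ : Surjective π) {M N : FGMod R} (e : M ≃ₗ[R] N) :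
    Nonempty (restr π hπ M ≃ₗ[S] restr π hπ N) :=
  ⟨{ ((restrEquiv π hπ M).trans (e.toAddEquiv)).trans (restrEquiv π hπ N).symm with
    map_smul' := fun s x => by
      change (restrEquiv π hπ N).symm (e (restrEquiv π hπ M (s • x))) =
        s • (restrEquiv π hπ N).symm (e (restrEquiv π hπ M x))
      rw [restrEquiv_smul, map_smul]
      rfl }⟩

/-- towers -/
lemma Gen.trans [Algebra R S] [Algebra S T] [Algebra R T] [IsScalarTower R S T]
    [Module.Flat S T] (h1 : Gen R S) (h2 : Gen S T) : Gen R T := by
  intro P hP hN
  refine h2 P hP (h1 (fun E => P (bc S T E))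
    (resClass_comap hP exactF_baseChange (fun M N e => bc_iso e)) ?_)
  intro N
  refine hP.iso (bc R T N) _ ?_ (hN N)
  exact (AlgebraTensorModule.cancelBaseChange R S T T N).symm

/-- transport to an isomorphic algebra -/
lemma Gen.congr [Algebra R S] [Algebra R T] (e : S ≃ₐ[R] T) (h : Gen R S) : Gen R T := by
  intro P hP hN M
  have hes : Surjective (e : S →+* T) := e.surjective
  have hes' : Surjective (e.symm : T →+* S) := e.symm.surjective
  have key : ∀ E : FGMod S, P (restr (e.symm : T →+* S) hes' E) := by
    refine h _ (resClass_comap hP (exactF_restr _ _) (fun M N e => restr_iso _ _ e)) ?_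
    intro N
    refine hP.iso (bc R T N) _ ?_ (hN N)
    let e1 : (T ⊗[R] N) ≃ₗ[R] (S ⊗[R] N) :=
      TensorProduct.congr e.symm.toLinearEquiv (LinearEquiv.refl R N)
    have he1 : ∀ (t : T) (z : T ⊗[R] N), e1 (t • z) = e.symm t • e1 z := by
      intro t z
      induction z using TensorProduct.induction_on with
      | zero => rw [smul_zero, map_zero, smul_zero]
      | tmul a n =>
          rw [TensorProduct.smul_tmul', TensorProduct.congr_tmul, TensorProduct.congr_tmul,
            TensorProduct.smul_tmul', smul_eq_mul, smul_eq_mul]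
          congr 1
          exact map_mul e.symm t a
      | add x y hx hy => rw [smul_add, map_add, hx, hy, map_add, smul_add]
    exact { e1.toAddEquiv.trans (restrEquiv (e.symm : T →+* S) hes' (bc R S N)).symm with
      map_smul' := fun t z => he1 t z }
  refine hP.iso _ M ?_ (key (restr (e : S →+* T) hes M))
  exact
    { (restrEquiv (e.symm : T →+* S) hes' (restr (e : S →+* T) hes M)).trans
        (restrEquiv (e : S →+* T) hes M) with
      map_smul' := fun t z => by
        change restrEquiv (e : S →+* T) hes M (restrEquiv (e.symm : T →+* S) hes' _ (t • z)) =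
          t • restrEquiv (e : S →+* T) hes M (restrEquiv (e.symm : T →+* S) hes' _ z)
        rw [restrEquiv_smul, restrEquiv_smul]
        congr 1
        exact e.apply_symm_apply t }

end

section poly

open Polynomial

lemma gen_polynomial (R : Type u) [CommRing R] [IsNoetherianRing R] : Gen R R[X] := by
  intro P hP hN
  refine poly_induction hP ?_
  intro I
  refine hP.iso (bc R R[X] (FGMod.of R (R ⧸ I))) _ ?_ (hN _)
  exact (Algebra.TensorProduct.quotIdealMapEquivTensorQuot R[X] I).symm.toLinearEquiv

end poly

section mv

/-- polynomial rings in finitely many variables -/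
theorem gen_mvPolynomial (R : Type u) [CommRing R] [IsNoetherianRing R] (σ : Type) [Finite σ] :
    Gen R (MvPolynomial σ R) := by
  revert σ
  refine Finite.induction_empty_option ?_ ?_ ?_
  · intro α β e h
    exact h.congr (MvPolynomial.renameEquiv R e)
  · intro P hP hN M
    have e : MvPolynomial PEmpty R ≃ₐ[R] R := MvPolynomial.isEmptyAlgEquiv R PEmpty
    have h0 : Gen R R := by
      intro P hP hN M
      exact hP.iso (bc R R M) M (TensorProduct.lid R M) (hN M)
    exact h0.congr e.symm P hP hN M
  · intro α _ h
    have h1 : Gen R (Polynomial (MvPolynomial α R)) := h.trans (gen_polynomial _)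
    exact h1.congr (MvPolynomial.optionEquivLeft R α).symm

end mv

end Pool.Agent.Helper83.Bass
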