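import Pool.Agent.Helper83.Bass.Ring

/-!
# The hypersurface ring is free of rank two over the polynomial ring `k[z, y]`
-/

namespace Pool.Agent.Helper83.Bass

open Pool.Agent.Helper11 Function MvPolynomial

universe u

section poly

variable {k : Type u} [CommRing k] {τ σ : Type}

/-- the inclusion `k[z, y] → k[z, y, t]` -/
noncomputable def emb (k : Type u) [CommRing k] (τ σ : Type) :
    MvPolynomial (τ ⊕ σ) k →ₐ[k] MvPolynomial (τ ⊕ σ ⊕ Unit) k :=
  rename (Sum.elim Sum.inl (fun j => Sum.inr (Sum.inl j)))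

/-- `k[z, y, t] → k[z, y][t]` -/
noncomputable def toP (k : Type u) [CommRing k] (τ σ : Type) :
    MvPolynomial (τ ⊕ σ ⊕ Unit) k →ₐ[k] Polynomial (MvPolynomial (τ ⊕ σ) k) :=
  aeval (Sum.elim (fun i => Polynomial.C (X (Sum.inl i)))
    (Sum.elim (fun j => Polynomial.C (X (Sum.inr j))) (fun _ => Polynomial.X)))

/-- `k[z, y][t] → k[z, y, t]` -/
noncomputable def ofP (k : Type u) [CommRing k] (τ σ : Type) :
    Polynomial (MvPolynomial (τ ⊕ σ) k) →+* MvPolynomial (τ ⊕ σ ⊕ Unit) k :=
  Polynomial.eval₂RingHom (emb k τ σ).toRingHom (X (Sum.inr (Sum.inr ())))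

lemma ofP_toP (p : MvPolynomial (τ ⊕ σ ⊕ Unit) k) : ofP k τ σ (toP k τ σ p) = p := by
  have : (ofP k τ σ).comp (toP k τ σ).toRingHom = RingHom.id _ := by
    apply MvPolynomial.ringHom_ext
    · intro r
      have h1 : toP k τ σ (C r) = Polynomial.C (C r) := by
        rw [toP, aeval_C]; rfl
      change ofP k τ σ (toP k τ σ (C r)) = C r
      rw [h1]
      simp [ofP, emb]
    · rintro (i | j | i) <;> simp [ofP, toP, emb]
  exact RingHom.congr_fun this p

lemma toP_emb (a : MvPolynomial (τ ⊕ σ) k) : toP k τ σ (emb k τ σ a) = Polynomial.C a := by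
  have : ((toP k τ σ).comp (emb k τ σ)).toRingHom =
      (Polynomial.C : MvPolynomial (τ ⊕ σ) k →+* _) := by
    apply MvPolynomial.ringHom_ext
    · intro r
      change toP k τ σ (emb k τ σ (C r)) = _
      rw [emb, rename_C, toP, aeval_C]; rfl
    · rintro (i | j)
      · change toP k τ σ (emb k τ σ (X (Sum.inl i))) = _
        rw [emb, rename_X, toP, aeval_X]; rfl
      · change toP k τ σ (emb k τ σ (X (Sum.inr j))) = _
        rw [emb, rename_X, toP, aeval_X]; rfl
  exact RingHom.congr_fun this a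

lemma emb_inl (a : MvPolynomial τ k) : emb k τ σ (rename Sum.inl a) = rename Sum.inl a := by
  rw [emb, rename_rename]
  rfl

lemma toP_t : toP k τ σ (X (Sum.inr (Sum.inr ()))) = Polynomial.X := by
  rw [toP, aeval_X]; rfl

end poly

variable {k : Type u} [CommRing k] {τ σ : Type} [Fintype σ] (g : σ → MvPolynomial τ k)

/-- the quadratic polynomial `t² - t - ∑ yⱼ gⱼ` -/
noncomputable def quad : Polynomial (MvPolynomial (τ ⊕ σ) k) :=
  Polynomial.X ^ 2 - Polynomial.X - Polynomial.C (∑ j, X (Sum.inr j) * rename Sum.inl (g j))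

lemma toP_cub : toP k τ σ (cub g) = quad g := by
  rw [cub, map_sub, map_sub, map_pow, toP_t, map_sum, quad, map_sum]
  congr 1
  refine Finset.sum_congr rfl (fun j _ => ?_)
  rw [← emb_inl, map_mul, toP_emb, map_mul]
  congr 1
  rw [toP, aeval_X]; rfl

lemma quad_monic [Nontrivial k] : (quad g).Monic ∧ (quad g).natDegree = 2 := by
  have h : quad g = Polynomial.X ^ 2 + (-Polynomial.X -
      Polynomial.C (∑ j, X (Sum.inr j) * rename Sum.inl (g j))) := by
    rw [quad]; ring
  have hd : (-Polynomial.X - Polynomial.C (∑ j, X (Sum.inr j) * rename Sum.inl (g j)) :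
      Polynomial (MvPolynomial (τ ⊕ σ) k)).degree < (2 : ℕ) := by
    refine lt_of_le_of_lt (b := (1 : WithBot ℕ)) ?_ (by norm_num)
    refine (Polynomial.degree_sub_le _ _).trans (max_le ?_ ?_)
    · rw [Polynomial.degree_neg]; exact Polynomial.degree_X_le
    · exact Polynomial.degree_C_le.trans (by norm_num)
  rw [h]
  refine ⟨Polynomial.monic_X_pow_add hd, ?_⟩
  rw [Polynomial.natDegree_add_eq_left_of_degree_lt, Polynomial.natDegree_X_pow]
  rw [Polynomial.degree_X_pow]
  exact hd

/-- the coordinate ring of the hypersurface, as an opaque type -/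
def WR (g : σ → MvPolynomial τ k) : Type u := WW g

noncomputable instance : CommRing (WR g) := inferInstanceAs (CommRing (WW g))

/-- the class of a polynomial -/
noncomputable def mkW : MvPolynomial (τ ⊕ σ ⊕ Unit) k →+* WR g :=
  Ideal.Quotient.mk (Ideal.span {cub g})

lemma mkW_surj : Surjective (mkW g) := Ideal.Quotient.mk_surjective

lemma mkW_eq_zero {p : MvPolynomial (τ ⊕ σ ⊕ Unit) k} : mkW g p = 0 ↔ ∃ c, c * cub g = p :=
  Ideal.Quotient.eq_zero_iff_mem.trans Ideal.mem_span_singleton'

lemma mkW_cub : mkW g (cub g) = 0 := (mkW_eq_zero g).mpr ⟨1, one_mul _⟩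

noncomputable instance algK : Algebra k (WR g) := inferInstanceAs (Algebra k (WW g))

lemma algK_apply (d : k) : algebraMap k (WR g) d = mkW g (C d) := rfl

noncomputable instance algD : Algebra (MvPolynomial (τ ⊕ σ) k) (WR g) :=
  ((mkW g).comp (emb k τ σ).toRingHom).toAlgebra

noncomputable instance algA : Algebra (MvPolynomial τ k) (WR g) :=
  ((mkW g).comp
    (rename Sum.inl : MvPolynomial τ k →ₐ[k] MvPolynomial (τ ⊕ σ ⊕ Unit) k).toRingHom).toAlgebra

lemma algD_apply (d : MvPolynomial (τ ⊕ σ) k) : algebraMap (MvPolynomial (τ ⊕ σ) k) (WR g) d =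
    mkW g (emb k τ σ d) := rfl

lemma algA_apply (d : MvPolynomial τ k) : algebraMap (MvPolynomial τ k) (WR g) d =
    mkW g (rename Sum.inl d) := rfl

instance towkA : IsScalarTower k (MvPolynomial τ k) (WR g) :=
  IsScalarTower.of_algebraMap_eq (R := k) (S := MvPolynomial τ k) (A := WR g) (fun a => by
    rw [algA_apply, MvPolynomial.algebraMap_eq, rename_C, algK_apply])

instance towkD : IsScalarTower k (MvPolynomial (τ ⊕ σ) k) (WR g) :=
  IsScalarTower.of_algebraMap_eq (R := k) (S := MvPolynomial (τ ⊕ σ) k) (A := WR g) (fun a => by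
    rw [algD_apply, MvPolynomial.algebraMap_eq, emb, rename_C, algK_apply])

/-- the coordinate `t` -/
noncomputable def tW : WR g := mkW g (X (Sum.inr (Sum.inr ())))

/-- the coordinate `yⱼ` -/
noncomputable def yW (j : σ) : WR g := mkW g (X (Sum.inr (Sum.inl j)))

lemma tW_rel : tW g ^ 2 - tW g = ∑ j, yW g j * algebraMap (MvPolynomial τ k) (WR g) (g j) := by
  have h1 : mkW g (cub g) = tW g ^ 2 - tW g -
      ∑ j, yW g j * algebraMap (MvPolynomial τ k) (WR g) (g j) := by
    have h2 : cub g = X (Sum.inr (Sum.inr ())) ^ 2 - X (Sum.inr (Sum.inr ())) -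
      ∑ j, X (Sum.inr (Sum.inl j)) * rename Sum.inl (g j) := rfl
    refine (congrArg (mkW g) h2).trans ?_
    rw [map_sub, map_sub, map_pow, map_sum]
    exact congrArg _ (Finset.sum_congr rfl (fun j _ => map_mul _ _ _))
  rw [mkW_cub] at h1
  exact sub_eq_zero.mp h1.symm

/-- the universal property of `W` -/
theorem exists_lift {R : Type*} [CommRing R] (φ : MvPolynomial τ k →+* R) (y : σ → R) (t : R)
    (h : t ^ 2 - t = ∑ j, y j * φ (g j)) :
    ∃ F : WR g →+* R, (∀ a, F (algebraMap _ _ a) = φ a) ∧ (∀ j, F (yW g j) = y j) ∧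
      F (tW g) = t := by
  let E : MvPolynomial (τ ⊕ σ ⊕ Unit) k →+* R :=
    eval₂Hom (φ.comp C) (Sum.elim (fun i => φ (X i)) (Sum.elim y (fun _ => t)))
  have hren : ∀ a, E (rename Sum.inl a) = φ a := by
    intro a
    have : E.comp (rename Sum.inl : MvPolynomial τ k →ₐ[k] _).toRingHom = φ := by
      apply MvPolynomial.ringHom_ext
      · intro r
        change E (rename Sum.inl (C r)) = _
        rw [rename_C]; simp [E]
      · intro i
        change E (rename Sum.inl (X i)) = _
        rw [rename_X]; simp [E]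
    exact RingHom.congr_fun this a
  have hy : ∀ j, E (X (Sum.inr (Sum.inl j))) = y j := fun j => by simp [E]
  have ht : E (X (Sum.inr (Sum.inr ()))) = t := by simp [E]
  have hc : E (cub g) = 0 := by
    have h2 : cub g = X (Sum.inr (Sum.inr ())) ^ 2 - X (Sum.inr (Sum.inr ())) -
      ∑ j, X (Sum.inr (Sum.inl j)) * rename Sum.inl (g j) := rfl
    rw [h2, map_sub, map_sub, map_pow, map_sum, ht, h, sub_eq_zero]
    exact Finset.sum_congr rfl (fun j _ => by rw [map_mul, hy, hren])
  refine ⟨Ideal.Quotient.lift (Ideal.span {cub g}) E ?_, ?_, ?_, ?_⟩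
  · intro a ha
    obtain ⟨b, rfl⟩ := Ideal.mem_span_singleton'.mp ha
    rw [map_mul, hc, mul_zero]
  · intro a
    exact hren a
  · intro j
    exact hy j
  · exact ht

/-- homomorphisms out of `W` are determined by the generators -/
theorem hom_ext_W {R : Type*} [CommRing R] {F G : WR g →+* R}
    (h1 : ∀ a, F (algebraMap (MvPolynomial τ k) _ a) = G (algebraMap _ _ a))
    (h2 : ∀ j, F (yW g j) = G (yW g j)) (h3 : F (tW g) = G (tW g)) : F = G := by
  have : F.comp (mkW g) = G.comp (mkW g) := by
    apply MvPolynomial.ringHom_ext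
    · intro r
      have := h1 (C r)
      rw [algA_apply, rename_C] at this
      exact this
    · rintro (i | j | i)
      · have := h1 (X i)
        rw [algA_apply, rename_X] at this
        exact this
      · exact h2 j
      · exact h3
  ext w
  obtain ⟨p, rfl⟩ := mkW_surj g w
  exact RingHom.congr_fun this p

/-- induction on elements of `W` -/
theorem W_induction {P : WR g → Prop} (h1 : ∀ a, P (algebraMap (MvPolynomial τ k) _ a))
    (h2 : ∀ w w', P w → P w' → P (w + w')) (h3 : ∀ j w, P w → P (w * yW g j))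
    (h4 : ∀ w, P w → P (w * tW g))
    (h5 : ∀ (i : τ) w, P w → P (w * algebraMap (MvPolynomial τ k) _ (X i))) (w : WR g) : P w := by
  obtain ⟨p, rfl⟩ := mkW_surj g w
  induction p using MvPolynomial.induction_on with
  | C r =>
      have := h1 (C r)
      rwa [algA_apply, rename_C] at this
  | add p q hp hq => rw [map_add]; exact h2 _ _ hp hq
  | mul_X p i hp =>
      rw [map_mul]
      rcases i with i | j | i
      · have := h5 i _ hp
        rwa [algA_apply, rename_X] at this
      · exact h3 j _ hp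
      · exact h4 _ hp

/-- the basis `1, t` -/
noncomputable def basisMap : (MvPolynomial (τ ⊕ σ) k × MvPolynomial (τ ⊕ σ) k)
    →ₗ[MvPolynomial (τ ⊕ σ) k] WR g where
  toFun p := algebraMap _ (WR g) p.1 + algebraMap _ (WR g) p.2 * tW g
  map_add' p q := by
    change algebraMap _ _ (p.1 + q.1) + algebraMap _ _ (p.2 + q.2) * tW g = _
    rw [map_add, map_add]; ring
  map_smul' a p := by
    change algebraMap _ _ (a * p.1) + algebraMap _ _ (a * p.2) * tW g = _
    rw [map_mul, map_mul, RingHom.id_apply, Algebra.smul_def]; ring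

lemma basisMap_apply (p : MvPolynomial (τ ⊕ σ) k × MvPolynomial (τ ⊕ σ) k) :
    basisMap g p = algebraMap _ (WR g) p.1 + algebraMap _ (WR g) p.2 * tW g := rfl

lemma basisMap_bij : Bijective (basisMap g) := by
  rcases subsingleton_or_nontrivial k with hk | hk
  · have : Subsingleton (WR g) := (mkW_surj g).subsingleton
    exact ⟨fun x y _ => Subsingleton.elim _ _, fun y => ⟨0, Subsingleton.elim _ _⟩⟩
  obtain ⟨hm, hd⟩ := quad_monic g
  constructor
  · rw [← LinearMap.ker_eq_bot, eq_bot_iff]
    rintro ⟨a, b⟩ h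
    rw [LinearMap.mem_ker, basisMap_apply, algD_apply, algD_apply, tW, ← map_mul, ← map_add,
      mkW_eq_zero] at h
    obtain ⟨c, hc⟩ := h
    have h2 := congrArg (toP k τ σ) hc
    rw [map_mul, toP_cub, map_add, map_mul, toP_emb, toP_emb, toP_t] at h2
    have h3 : Polynomial.C a + Polynomial.C b * Polynomial.X = 0 := by
      by_contra hne
      have hdvd : quad g ∣ Polynomial.C a + Polynomial.C b * Polynomial.X :=
        ⟨toP k τ σ c, h2.symm.trans (mul_comm _ _)⟩
      refine hm.not_dvd_of_natDegree_lt hne ?_ hdvd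
      rw [hd]
      refine lt_of_le_of_lt (b := 1) ?_ (by norm_num)
      refine (Polynomial.natDegree_add_le _ _).trans (max_le ?_ ?_)
      · rw [Polynomial.natDegree_C]; norm_num
      · refine (Polynomial.natDegree_C_mul_le _ _).trans Polynomial.natDegree_X_le
    have ha := congrArg (fun p => Polynomial.coeff p 0) h3
    have hb := congrArg (fun p => Polynomial.coeff p 1) h3
    simp at ha hb
    rw [ha, hb]
    exact Submodule.zero_mem _
  · intro w
    obtain ⟨p, rfl⟩ := mkW_surj g w
    set r := toP k τ σ p %ₘ quad g with hr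
    have hrd : r.natDegree < 2 := by
      rw [← hd]
      exact Polynomial.natDegree_modByMonic_lt _ hm (by
        intro h1
        rw [h1] at hd
        simp at hd)
    have hr2 : r = Polynomial.C (r.coeff 0) + Polynomial.C (r.coeff 1) * Polynomial.X := by
      conv_lhs => rw [r.as_sum_range' 2 hrd]
      rw [Finset.sum_range_succ, Finset.sum_range_one]
      simp [Polynomial.C_mul_X_eq_monomial]
    refine ⟨(r.coeff 0, r.coeff 1), ?_⟩
    have h1 := congrArg (ofP k τ σ) (Polynomial.modByMonic_add_div (toP k τ σ p) (quad g))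
    rw [ofP_toP, map_add, map_mul, ← toP_cub, ofP_toP] at h1
    have hof : ∀ a, ofP k τ σ (Polynomial.C a) = emb k τ σ a := fun a => by simp [ofP]
    have hoX : ofP k τ σ Polynomial.X = X (Sum.inr (Sum.inr ())) := by simp [ofP]
    have h2 : ofP k τ σ r = emb k τ σ (r.coeff 0) +
        emb k τ σ (r.coeff 1) * X (Sum.inr (Sum.inr ())) := by
      conv_lhs => rw [hr2]
      rw [map_add, map_mul, hof, hof, hoX]
    rw [basisMap_apply, algD_apply, algD_apply, tW, ← map_mul, ← map_add, ← h2, ← h1,
      toP_cub, ← hr, map_add, map_mul, mkW_cub, zero_mul, add_zero]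

/-- `W` is free of rank two over `k[z, y]` -/
noncomputable def basisEquiv : (MvPolynomial (τ ⊕ σ) k × MvPolynomial (τ ⊕ σ) k)
    ≃ₗ[MvPolynomial (τ ⊕ σ) k] WR g := LinearEquiv.ofBijective (basisMap g) (basisMap_bij g)

instance : Module.Free (MvPolynomial (τ ⊕ σ) k) (WR g) := Module.Free.of_equiv (basisEquiv g)

instance flatk : Module.Flat k (WR g) := Module.Flat.trans k (MvPolynomial (τ ⊕ σ) k) (WR g)

instance flatA : Module.Flat (MvPolynomial τ k) (WR g) := by
  letI : Algebra (MvPolynomial τ k) (MvPolynomial (τ ⊕ σ) k) :=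
    (rename Sum.inl : MvPolynomial τ k →ₐ[k] MvPolynomial (τ ⊕ σ) k).toRingHom.toAlgebra
  haveI : IsScalarTower (MvPolynomial τ k) (MvPolynomial (τ ⊕ σ) k) (WR g) :=
    IsScalarTower.of_algebraMap_eq (R := MvPolynomial τ k) (S := MvPolynomial (τ ⊕ σ) k)
      (A := WR g) (fun a => by
      rw [algA_apply, algD_apply]
      congr 1
      exact (emb_inl a).symm)
  let e : MvPolynomial (τ ⊕ σ) k ≃ₐ[k] MvPolynomial σ (MvPolynomial τ k) :=
    (renameEquiv k (Equiv.sumComm τ σ)).trans (sumAlgEquiv k σ τ)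
  have he : ∀ a : MvPolynomial τ k, e (rename Sum.inl a) = C a := by
    intro a
    have : (e.toAlgHom.comp (rename Sum.inl : MvPolynomial τ k →ₐ[k] _)).toRingHom =
        (C : MvPolynomial τ k →+* _) := by
      apply MvPolynomial.ringHom_ext
      · intro r
        change e (rename Sum.inl (C r)) = _
        rw [rename_C]
        simp [e]
      · intro i
        change e (rename Sum.inl (X i)) = _
        rw [rename_X]
        simp [e]
    exact RingHom.congr_fun this a
  let e' : MvPolynomial (τ ⊕ σ) k ≃ₗ[MvPolynomial τ k] MvPolynomial σ (MvPolynomial τ k) :=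
    { e.toRingEquiv.toAddEquiv with
      map_smul' := fun a p => by
        change e (rename Sum.inl a * p) = a • e p
        rw [map_mul, he, MvPolynomial.smul_eq_C_mul] }
  haveI : Module.Free (MvPolynomial τ k) (MvPolynomial (τ ⊕ σ) k) := Module.Free.of_equiv e'.symm
  exact Module.Flat.trans (MvPolynomial τ k) (MvPolynomial (τ ⊕ σ) k) (WR g)

instance [IsNoetherianRing k] [Finite τ] : IsNoetherianRing (WR g) :=
  isNoetherianRing_of_surjective _ _ (mkW g) (mkW_surj g)

end Pool.Agent.Helper83.Bass
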