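import Pool.Agent.Helper11.SubQ

/-!
# Additive functions and lattices

Let `χ` be an additive function on finitely generated `T`-modules (killed by an ideal `K`) which
vanishes on the modules killed by `s`. Then `χ` takes the same value on all `s`-lattices of a
`T`-module `X`, and this defines an additive function of `X`.
-/

namespace Pool.Agent.Helper83.Bass

open Pool.Agent.Helper11 Function

universe u

variable {T : Type u} [CommRing T]

/-- an `s`-lattice of the module `X`: a finitely generated submodule which absorbs every element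
after multiplication by a power of `s` -/
structure IsLat (s : T) {X : Type u} [AddCommGroup X] [Module T X] (P : Submodule T X) : Prop where
  fg : P.FG
  abs : ∀ x : X, ∃ d : ℕ, s ^ d • x ∈ P

/-- a finitely generated submodule as a bundled module -/
def ofFG {X : Type u} [AddCommGroup X] [Module T X] (P : Submodule T X) (h : P.FG) : FGMod T :=
  haveI : Module.Finite T P := Module.Finite.iff_fg.mpr h
  FGMod.of T P

variable [IsNoetherianRing T] {Γ : Type*} [AddCommGroup Γ] {K : Ideal T} {χ : FGMod T → Γ}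
  {s : T}

/-- `χ` vanishes on the modules (killed by `K`) on which `s` acts as zero -/
def Vanish (K : Ideal T) (s : T) (χ : FGMod T → Γ) : Prop :=
  ∀ M : FGMod T, KilledBy K M → (∀ m : M, s • m = 0) → χ M = 0

lemma vanish_pow (hχ : IsAdd (KilledBy K) χ) (h0 : Vanish K s χ) (e : ℕ) :
    ∀ M : FGMod T, KilledBy K M → (∀ m : M, s ^ e • m = 0) → χ M = 0 := by
  induction e with
  | zero =>
      intro M hM h
      haveI : Subsingleton M := ⟨fun a b => by
        have ha := h a
        have hb := h b
        rw [pow_zero, one_smul] at ha hb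
        rw [ha, hb]⟩
      exact hχ.zero M hM
  | succ e ih =>
      intro M hM h
      let N : Submodule T M := LinearMap.range (LinearMap.lsmul T M s)
      rw [hχ.submodule M N hM]
      have h1 : χ (FGMod.of T N) = 0 := by
        refine ih _ ?_ ?_
        · intro t ht x
          exact Subtype.ext (hM t ht _)
        · rintro ⟨x, y, rfl⟩
          apply Subtype.ext
          change s ^ e • (s • y) = 0
          rw [← mul_smul, ← pow_succ, h]
      have h2 : χ (FGMod.of T (M ⧸ N)) = 0 := by
        refine h0 _ ?_ ?_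
        · intro t ht x
          obtain ⟨x, rfl⟩ := Submodule.mkQ_surjective _ x
          rw [← map_smul, hM t ht, map_zero]
        · intro x
          obtain ⟨x, rfl⟩ := Submodule.mkQ_surjective _ x
          rw [← map_smul, Submodule.mkQ_apply, Submodule.Quotient.mk_eq_zero]
          exact ⟨x, rfl⟩
      rw [h1, h2, add_zero]

section lat

variable {X : Type u} [AddCommGroup X] [Module T X]

omit [IsNoetherianRing T] in
lemma killed_ofFG (hX : ∀ t ∈ K, ∀ x : X, t • x = 0) (P : Submodule T X) (h : P.FG) :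
    KilledBy K (ofFG P h) := by
  intro t ht x
  exact Subtype.ext (hX t ht _)

/-- comparison of nested lattices -/
lemma lat_le (hχ : IsAdd (KilledBy K) χ) (h0 : Vanish K s χ) (hX : ∀ t ∈ K, ∀ x : X, t • x = 0)
    {P P' : Submodule T X} (hP : IsLat s P) (hP' : P'.FG) (hle : P ≤ P') :
    χ (ofFG P hP.fg) = χ (ofFG P' hP') := by
  have hk : KilledBy K (ofFG P' hP') := killed_ofFG hX P' hP'
  obtain ⟨e, he⟩ : ∃ e : ℕ, ∀ x ∈ P', s ^ e • x ∈ P := by
    obtain ⟨S, hS⟩ := hP'
    choose d hd using hP.abs
    refine ⟨S.sup d, fun x hx => ?_⟩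
    rw [← hS] at hx
    induction hx using Submodule.span_induction with
    | mem x h =>
        have hle : d x ≤ S.sup d := Finset.le_sup h
        rw [← Nat.sub_add_cancel hle, pow_add, mul_smul]
        exact P.smul_mem _ (hd x)
    | zero => rw [smul_zero]; exact P.zero_mem
    | add x y _ _ hx hy => rw [smul_add]; exact P.add_mem hx hy
    | smul r x _ hx => rw [smul_comm]; exact P.smul_mem _ hx
  let N : Submodule T (ofFG P' hP') := P.submoduleOf P'
  rw [hχ.submodule (ofFG P' hP') N hk]
  have h2 : χ (FGMod.of T ((ofFG P' hP') ⧸ N)) = 0 := by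
    refine vanish_pow hχ h0 e _ ?_ ?_
    · intro t ht x
      obtain ⟨x, rfl⟩ := Submodule.mkQ_surjective _ x
      rw [← map_smul, hk t ht, map_zero]
    · intro x
      obtain ⟨x, rfl⟩ := Submodule.mkQ_surjective _ x
      rw [← map_smul, Submodule.mkQ_apply, Submodule.Quotient.mk_eq_zero]
      exact he _ x.2
  rw [h2, add_zero]
  refine hχ.iso (M := ofFG P hP.fg) (N := FGMod.of T N) ?_ (killed_ofFG hX P hP.fg)
  exact (Submodule.submoduleOfEquivOfLe hle).symm

lemma lat_unique (hχ : IsAdd (KilledBy K) χ) (h0 : Vanish K s χ)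
    (hX : ∀ t ∈ K, ∀ x : X, t • x = 0) {P P' : Submodule T X} (hP : IsLat s P)
    (hP' : IsLat s P') : χ (ofFG P hP.fg) = χ (ofFG P' hP'.fg) := by
  rw [lat_le hχ h0 hX hP (hP.fg.sup hP'.fg) le_sup_left,
    lat_le hχ h0 hX hP' (hP.fg.sup hP'.fg) le_sup_right]

end lat

section exact

variable {X' X X'' : Type u} [AddCommGroup X'] [Module T X'] [AddCommGroup X] [Module T X]
  [AddCommGroup X''] [Module T X''] (f : X' →ₗ[T] X) (g : X →ₗ[T] X'')

omit [IsNoetherianRing T] in
lemma IsLat.map {P : Submodule T X} (hP : IsLat s P) (hg : Surjective g) :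
    IsLat s (P.map g) where
  fg := hP.fg.map g
  abs x := by
    obtain ⟨x, rfl⟩ := hg x
    obtain ⟨d, hd⟩ := hP.abs x
    exact ⟨d, s ^ d • x, hd, map_smul g _ _⟩

lemma IsLat.comap {P : Submodule T X} (hP : IsLat s P) (hf : Injective f) :
    IsLat s (P.comap f) where
  fg := by
    haveI : Module.Finite T P := Module.Finite.iff_fg.mpr hP.fg
    haveI : IsNoetherian T P := isNoetherian_of_isNoetherianRing_of_finite T P
    let h : (P.comap f) →ₗ[T] P := f.restrict (p := P.comap f) (q := P) (fun x hx => hx)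
    have hinj : Injective h := by
      intro x y hxy
      apply Subtype.ext
      apply hf
      exact congrArg Subtype.val hxy
    haveI : IsNoetherian T (P.comap f) := isNoetherian_of_injective h hinj
    exact Module.Finite.iff_fg.mp inferInstance
  abs x := by
    obtain ⟨d, hd⟩ := hP.abs (f x)
    refine ⟨d, ?_⟩
    rw [Submodule.mem_comap, map_smul]
    exact hd

lemma lat_exact (hχ : IsAdd (KilledBy K) χ) (hX : ∀ t ∈ K, ∀ x : X, t • x = 0)
    (hf : Injective f) (hg : Surjective g) (hfg : Exact f g) {P : Submodule T X}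
    (hP : IsLat s P) :
    χ (ofFG P hP.fg) = χ (ofFG (P.comap f) (hP.comap f hf).fg) +
      χ (ofFG (P.map g) (hP.map g hg).fg) := by
  refine hχ.add (ofFG (P.comap f) (hP.comap f hf).fg) (ofFG P hP.fg)
    (ofFG (P.map g) (hP.map g hg).fg)
    (f.restrict (p := P.comap f) (q := P) (fun x hx => hx))
    (g.restrict (p := P) (q := P.map g) (fun x hx => ⟨x, hx, rfl⟩)) ?_ ?_ ?_
    (killed_ofFG hX P hP.fg)
  · intro x y hxy
    apply Subtype.ext
    apply hf
    exact congrArg Subtype.val hxy
  · rintro ⟨_, x, hx, rfl⟩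
    exact ⟨⟨x, hx⟩, rfl⟩
  · rintro ⟨x, hx⟩
    constructor
    · intro h
      have h' : g x = 0 := congrArg Subtype.val h
      obtain ⟨y, rfl⟩ := (hfg x).mp h'
      exact ⟨⟨y, hx⟩, rfl⟩
    · rintro ⟨⟨y, hy⟩, h⟩
      have h' : f y = x := congrArg Subtype.val h
      apply Subtype.ext
      change g x = 0
      rw [← h']
      exact hfg.apply_apply_eq_zero y

end exact

open Classical in
/-- the value of `χ` on the lattices of `X` -/
noncomputable def latχ (χ : FGMod T → Γ) (s : T) (X : Type u) [AddCommGroup X] [Module T X] : Γ :=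
  if h : ∃ P : Submodule T X, IsLat s P then χ (ofFG h.choose h.choose_spec.fg) else 0

lemma latχ_eq (hχ : IsAdd (KilledBy K) χ) (h0 : Vanish K s χ) {X : Type u} [AddCommGroup X]
    [Module T X] (hX : ∀ t ∈ K, ∀ x : X, t • x = 0) {P : Submodule T X} (hP : IsLat s P) :
    latχ χ s X = χ (ofFG P hP.fg) := by
  classical
  have h : ∃ P : Submodule T X, IsLat s P := ⟨P, hP⟩
  rw [latχ, dif_pos h]
  exact lat_unique hχ h0 hX h.choose_spec hP

/-- the value of the lattice function through an embedding -/
lemma latχ_embed (hχ : IsAdd (KilledBy K) χ) (h0 : Vanish K s χ) {X : Type u} [AddCommGroup X]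
    [Module T X] (hX : ∀ t ∈ K, ∀ x : X, t • x = 0) (P : FGMod T) (hPK : KilledBy K P)
    (θ : P →ₗ[T] X) (hθ : Injective θ) (habs : ∀ x : X, ∃ (d : ℕ) (p : P), θ p = s ^ d • x) :
    latχ χ s X = χ P := by
  have hlat : IsLat s (LinearMap.range θ) :=
    { fg := by
        rw [LinearMap.range_eq_map]
        exact (inferInstance : Module.Finite T P).fg_top.map θ
      abs := fun x => by
        obtain ⟨d, p, hp⟩ := habs x
        exact ⟨d, p, hp⟩ }
  rw [latχ_eq hχ h0 hX hlat]
  symm
  exact hχ.iso (N := ofFG (LinearMap.range θ) hlat.fg) (LinearEquiv.ofInjective θ hθ) hPK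

lemma latχ_add (hχ : IsAdd (KilledBy K) χ) (h0 : Vanish K s χ)
    {X' X X'' : Type u} [AddCommGroup X'] [Module T X'] [AddCommGroup X] [Module T X]
    [AddCommGroup X''] [Module T X''] (f : X' →ₗ[T] X) (g : X →ₗ[T] X'')
    (hf : Injective f) (hg : Surjective g) (hfg : Exact f g)
    (hX : ∀ t ∈ K, ∀ x : X, t • x = 0) (hlat : ∃ P : Submodule T X, IsLat s P) :
    latχ χ s X = latχ χ s X' + latχ χ s X'' := by
  obtain ⟨P, hP⟩ := hlat
  have hX' : ∀ t ∈ K, ∀ x : X', t • x = 0 := fun t ht x => hf (by
    rw [map_smul, map_zero, hX t ht])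
  have hX'' : ∀ t ∈ K, ∀ x : X'', t • x = 0 := fun t ht x => by
    obtain ⟨x, rfl⟩ := hg x
    rw [← map_smul, hX t ht, map_zero]
  rw [latχ_eq hχ h0 hX hP, latχ_eq hχ h0 hX' (hP.comap f hf), latχ_eq hχ h0 hX'' (hP.map g hg)]
  exact lat_exact f g hχ hX hf hg hfg hP

end Pool.Agent.Helper83.Bass
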