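import Pool.Agent.Helper11.KosStep
import Pool.Agent.Helper83.Bass.Lattice

/-!
# The Koszul functional vanishes on modules on which `x + g = 0`
-/

namespace Pool.Agent.Helper83.Bass

open Pool.Agent.Helper11 Function Matrix

universe u

section swap

variable {S : Type u} [CommRing S]

/-- the Koszul matrix factorisation of `x g + ∑ xᵢ gᵢ`, with the symmetry which exchanges the two
matrices up to sign on the modules on which `x + g = 0` -/
theorem exists_kos_swap (x g : S) (l : List (S × S)) :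
    ∃ (ι₀ ι₁ : Type) (_ : Fintype ι₀) (_ : Fintype ι₁) (_ : DecidableEq ι₀) (_ : DecidableEq ι₁)
      (φ : Matrix ι₁ ι₀ S) (ψ : Matrix ι₀ ι₁ S) (e : ι₀),
      (φ * ψ = curv ((x, g) :: l) • (1 : Matrix ι₁ ι₁ S) ∧
        ψ * φ = curv ((x, g) :: l) • (1 : Matrix ι₀ ι₀ S) ∧
      (∀ p ∈ (x, g) :: l, NullH φ ψ p.1 ∧ NullH φ ψ p.2) ∧
      (∀ (M : Type u) [AddCommGroup M] [Module S M], (∀ p ∈ (x, g) :: l, ∀ m : M, p.2 • m = 0) →
        Reg ((x, g) :: l) M →
        (∀ v, act ψ M v = 0 → ∃ w, act φ M w = v) ∧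
        (∀ v, act φ M v = 0 → ∃ (m : M) (w : ι₁ → M), v = Pi.single e m + act ψ M w) ∧
        (∀ m : M, (∃ w, act ψ M w = Pi.single e m) ↔ m ∈ XM ((x, g) :: l) M) ∧
        (∀ m : M, act φ M (Pi.single e m) = 0))) ∧
      ∃ σ : ι₀ ≃ ι₁, ∀ (M : Type u) [AddCommGroup M] [Module S M], (∀ m : M, (x + g) • m = 0) →
        ∀ v : ι₀ → M, act ψ M (v ∘ σ.symm) = - (act φ M v ∘ σ) := by
  obtain ⟨ι₀, ι₁, _, _, _, _, φ, ψ, e, h1, h2, h3, h4⟩ := exists_kos l
  let φ' : Matrix (ι₁ ⊕ ι₀) (ι₀ ⊕ ι₁) S := fromBlocks φ (x • 1) (g • 1) (-ψ)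
  let ψ' : Matrix (ι₀ ⊕ ι₁) (ι₁ ⊕ ι₀) S := fromBlocks ψ (x • 1) (g • 1) (-φ)
  refine ⟨ι₀ ⊕ ι₁, ι₁ ⊕ ι₀, inferInstance, inferInstance, inferInstance, inferInstance,
    φ', ψ', Sum.inl e, ⟨?_, ?_, ?_, ?_⟩, ?_⟩
  · have hcurv : curv ((x, g) :: l) = x * g + curv l := by simp [curv]
    rw [hcurv]
    simp only [φ', ψ', fromBlocks_multiply, h1, h2, ← fromBlocks_one, fromBlocks_smul]
    congr 1
    · rw [add_smul, smul_mul_smul_comm, mul_one, add_comm]
    · simp
    · simp
    · rw [add_smul, smul_mul_smul_comm, mul_one, Matrix.neg_mul, Matrix.mul_neg, neg_neg,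
        h2, mul_comm g x]
  · have hcurv : curv ((x, g) :: l) = x * g + curv l := by simp [curv]
    rw [hcurv]
    simp only [φ', ψ', fromBlocks_multiply, h1, h2, ← fromBlocks_one, fromBlocks_smul]
    congr 1
    · rw [add_smul, smul_mul_smul_comm, mul_one, add_comm]
    · simp
    · simp
    · rw [add_smul, smul_mul_smul_comm, mul_one, Matrix.neg_mul, Matrix.mul_neg, neg_neg,
        h1, mul_comm g x]
  · intro p hp
    rcases List.mem_cons.mp hp with rfl | hp
    · refine ⟨⟨fromBlocks 0 0 1 0, fromBlocks 0 0 1 0, ?_, ?_⟩,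
        ⟨fromBlocks 0 1 0 0, fromBlocks 0 1 0 0, ?_, ?_⟩⟩ <;>
      · simp only [φ', ψ', fromBlocks_multiply, fromBlocks_add, ← fromBlocks_one,
          fromBlocks_smul]
        congr 1 <;> simp
    · obtain ⟨⟨A, B, hA, hB⟩, ⟨A', B', hA', hB'⟩⟩ := h3 p hp
      refine ⟨⟨fromBlocks A 0 0 (-B), fromBlocks B 0 0 (-A), ?_, ?_⟩,
        ⟨fromBlocks A' 0 0 (-B'), fromBlocks B' 0 0 (-A'), ?_, ?_⟩⟩
      · simp only [φ', ψ', fromBlocks_multiply, fromBlocks_add, ← fromBlocks_one,
          fromBlocks_smul]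
        congr 1
        · simp [hA]
        · simp
        · simp
        · simp [hB]
      · simp only [φ', ψ', fromBlocks_multiply, fromBlocks_add, ← fromBlocks_one,
          fromBlocks_smul]
        congr 1
        · simp [hB]
        · simp
        · simp
        · simp [hA]
      · simp only [φ', ψ', fromBlocks_multiply, fromBlocks_add, ← fromBlocks_one,
          fromBlocks_smul]
        congr 1
        · simp [hA']
        · simp
        · simp
        · simp [hB']
      · simp only [φ', ψ', fromBlocks_multiply, fromBlocks_add, ← fromBlocks_one,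
          fromBlocks_smul]
        congr 1
        · simp [hB']
        · simp
        · simp
        · simp [hA']
  · intro M _ _ hg hreg
    have hg0 : ∀ m : M, g • m = 0 := hg (x, g) (List.mem_cons_self)
    obtain ⟨k1, k2, k3, k4⟩ := h4 M (fun p hp => hg p (List.mem_cons_of_mem _ hp)) hreg.1
    have hreg' : ∀ m : M, x • m ∈ XM l M → m ∈ XM l M := hreg.2
    have hφ' : ∀ v : ι₀ ⊕ ι₁ → M, act φ' M v =
        Sum.elim (act φ M (v ∘ Sum.inl) + x • (v ∘ Sum.inr)) (- act ψ M (v ∘ Sum.inr)) := by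
      intro v
      rw [act_blocks, act_smul_one, act_smul_one, act_neg]
      congr 1
      ext i
      simp [hg0]
    have hψ' : ∀ v : ι₁ ⊕ ι₀ → M, act ψ' M v =
        Sum.elim (act ψ M (v ∘ Sum.inl) + x • (v ∘ Sum.inr)) (- act φ M (v ∘ Sum.inr)) := by
      intro v
      rw [act_blocks, act_smul_one, act_smul_one, act_neg]
      congr 1
      ext i
      simp [hg0]
    have hsplit : ∀ {α β : Type} (v : α ⊕ β → M), v = Sum.elim (v ∘ Sum.inl) (v ∘ Sum.inr) :=
      fun v => (Sum.elim_comp_inl_inr v).symm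
    have hadd : ∀ {α β : Type} (a a' : α → M) (b b' : β → M),
        Sum.elim a b + Sum.elim a' b' = Sum.elim (a + a') (b + b') := by
      intro α β a a' b b'
      ext (i | i) <;> rfl
    have hsingle : ∀ m : M, (Pi.single (Sum.inl e) m : ι₀ ⊕ ι₁ → M) =
        Sum.elim (Pi.single e m) 0 := by
      intro m
      ext (i | i)
      · by_cases h : i = e
        · subst h; simp
        · simp [Pi.single_apply, h]
      · simp [Pi.single_apply]
    refine ⟨?_, ?_, ?_, ?_⟩
    · -- exactness at the odd spot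
      intro v hv
      rw [hψ'] at hv
      set q := v ∘ Sum.inl with hq
      set p := v ∘ Sum.inr with hp
      have e1 : act ψ M q + x • p = 0 := by
        have := congrArg (fun z => z ∘ Sum.inl) hv
        simpa using this
      have e2 : act φ M p = 0 := by
        have := congrArg (fun z => z ∘ Sum.inr) hv
        simpa [funext_iff] using this
      obtain ⟨m, t, hpt⟩ := k2 p e2
      have e3 : act ψ M (-(q + x • t)) = Pi.single e (x • m) := by
        rw [hpt, smul_add] at e1
        rw [map_neg, map_add, map_smul, Pi.single_smul]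
        have : act ψ M q + x • act ψ M t = - (x • Pi.single e m) := by
          rw [eq_neg_iff_add_eq_zero, ← e1]; abel
        rw [this, neg_neg]
      have hm := hreg' m ((k3 (x • m)).mp ⟨_, e3⟩)
      obtain ⟨t', ht'⟩ := (k3 m).mpr hm
      have hp' : p = act ψ M (t' + t) := by rw [hpt, ← ht', map_add]
      have e4 : act ψ M (q + x • (t' + t)) = 0 := by
        rw [map_add, map_smul, ← hp', e1]
      obtain ⟨s, hs⟩ := k1 _ e4
      refine ⟨Sum.elim s (-(t' + t)), ?_⟩
      rw [hφ', hsplit v, Sum.elim_comp_inl, Sum.elim_comp_inr, ← hq, ← hp]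
      congr 1
      · rw [hs, smul_neg]; abel
      · rw [map_neg, neg_neg, hp']
    · intro v hv
      rw [hφ'] at hv
      set p := v ∘ Sum.inl with hp
      set q := v ∘ Sum.inr with hq
      have e1 : act φ M p + x • q = 0 := by
        have := congrArg (fun z => z ∘ Sum.inl) hv
        simpa using this
      have e2 : act ψ M q = 0 := by
        have := congrArg (fun z => z ∘ Sum.inr) hv
        simpa [funext_iff] using this
      obtain ⟨s, hs⟩ := k1 q e2
      have e3 : act φ M (p + x • s) = 0 := by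
        rw [map_add, map_smul, hs, e1]
      obtain ⟨m, t, hmt⟩ := k2 _ e3
      refine ⟨m, Sum.elim t (-s), ?_⟩
      rw [hsingle, hψ', hsplit v, Sum.elim_comp_inl, Sum.elim_comp_inr, ← hp, ← hq,
        hadd]
      congr 1
      · rw [← add_assoc, ← hmt, smul_neg]; abel
      · rw [map_neg, neg_neg, hs, zero_add]
    · intro m
      rw [hsingle]
      constructor
      · rintro ⟨w, hw⟩
        rw [hψ'] at hw
        have e1 : act ψ M (w ∘ Sum.inl) + x • (w ∘ Sum.inr) = Pi.single e m := by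
          have := congrArg (fun z => z ∘ Sum.inl) hw
          simpa only [Sum.elim_comp_inl] using this
        have e2 : act φ M (w ∘ Sum.inr) = 0 := by
          have := congrArg (fun z => z ∘ Sum.inr) hw
          simpa [funext_iff] using this
        obtain ⟨m', t, hmt⟩ := k2 _ e2
        rw [hmt, smul_add, ← Pi.single_smul] at e1
        have e3 : act ψ M (w ∘ Sum.inl + x • t) = Pi.single e (m - x • m') := by
          rw [map_add, map_smul, Pi.single_sub, ← e1]; abel
        have := (k3 _).mp ⟨_, e3⟩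
        have h5 : m = (m - x • m') + x • m' := by abel
        rw [h5]
        exact Submodule.add_mem_sup this ⟨m', rfl⟩
      · intro hm
        obtain ⟨a, ha, _, ⟨b, rfl⟩, hab⟩ := Submodule.mem_sup.mp hm
        obtain ⟨t, ht⟩ := (k3 a).mpr ha
        refine ⟨Sum.elim t (Pi.single e b), ?_⟩
        rw [hψ', Sum.elim_comp_inl, Sum.elim_comp_inr, k4, neg_zero, ht, ← Pi.single_smul,
          ← Pi.single_add]
        congr 2
    · intro m
      rw [hφ', hsingle, Sum.elim_comp_inl, Sum.elim_comp_inr, k4]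
      ext (i | i) <;> simp
  · refine ⟨Equiv.sumComm ι₀ ι₁, fun M _ _ hM v => ?_⟩
    have hxg : ∀ m : M, x • m + g • m = 0 := fun m => by rw [← add_smul]; exact hM m
    rw [act_blocks, act_blocks, act_smul_one, act_smul_one, act_smul_one, act_smul_one,
      act_neg, act_neg]
    ext (i | i)
    · change act ψ M (fun j => v (Sum.inr j)) i + x • v (Sum.inl i) =
        - (g • v (Sum.inl i) + -(act ψ M (fun j => v (Sum.inr j)) i))
      rw [neg_add, neg_neg, add_comm, ← eq_neg_of_add_eq_zero_left (hxg (v (Sum.inl i)))]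
    · change g • v (Sum.inr i) + -(act φ M (fun j => v (Sum.inl j)) i) =
        - (act φ M (fun j => v (Sum.inl j)) i + x • v (Sum.inr i))
      rw [neg_add, add_comm, ← eq_neg_of_add_eq_zero_right (hxg (v (Sum.inr i)))]

variable [IsNoetherianRing S] {ι₀ ι₁ : Type} [Fintype ι₀] [Fintype ι₁] {Γ : Type*}
  [AddCommGroup Γ]

/-- the symmetric situation: the two homology modules are isomorphic -/
lemma perχ_swap {J K : Ideal S} {χ : FGMod S → Γ} (hχ : IsAdd (KilledBy J) χ)
    (φ : Matrix ι₁ ι₀ S) (ψ : Matrix ι₀ ι₁ S) (hJ : ∀ t ∈ J, NullK K φ ψ t)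
    (M : FGMod S) (hM : KilledBy K M) (σ : ι₀ ≃ ι₁)
    (hσ : ∀ v : ι₀ → M, act ψ M (v ∘ σ.symm) = - (act φ M v ∘ σ)) :
    perχ χ φ ψ M = 0 := by
  let f : (FGMod.of S (ι₀ → M)) →ₗ[S] (FGMod.of S (ι₁ → M)) := LinearMap.funLeft S M σ.symm
  have hf : ∀ v : ι₀ → M, f v = v ∘ σ.symm := fun v => rfl
  have hfi : Injective f := by
    intro v w h
    have h' : (v ∘ σ.symm) ∘ σ = (w ∘ σ.symm) ∘ σ := by
      rw [← hf, ← hf, h]
    have e : ∀ u : ι₀ → M, (u ∘ σ.symm) ∘ σ = u := fun u => by
      ext i; simp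
    rwa [e v, e w] at h'
  unfold perχ
  rw [sub_eq_zero]
  have h1 := q_map hχ f hfi (LinearMap.ker (act φ M)) (LinearMap.range (act ψ M))
    (perH_killed φ ψ hJ M hM)
  refine h1.trans ?_
  congr 1
  have hk : (LinearMap.ker (act φ M)).map f = LinearMap.ker (act ψ M) := by
    ext w
    constructor
    · rintro ⟨v, hv, rfl⟩
      rw [LinearMap.mem_ker, hf, hσ, LinearMap.mem_ker.mp hv]
      ext i; simp
    · intro hw
      refine ⟨w ∘ σ, ?_, ?_⟩
      · have hw' : act ψ M w = 0 := hw
        have h2 := hσ (w ∘ σ)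
        have e : ((w ∘ σ) ∘ σ.symm) = w := by ext i; simp
        rw [e, hw'] at h2
        change act φ M (w ∘ σ) = 0
        ext i
        have := congrFun h2 (σ.symm i)
        simp only [Pi.zero_apply, Pi.neg_apply, Function.comp_apply, Equiv.apply_symm_apply] at this
        simpa using this.symm
      · rw [hf]
        ext i; simp
  have hr : (LinearMap.range (act ψ M)).map f = LinearMap.range (act φ M) := by
    ext w
    constructor
    · rintro ⟨_, ⟨v, rfl⟩, rfl⟩
      refine ⟨-(v ∘ σ), ?_⟩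
      have h2 := hσ (v ∘ σ)
      have e : ((v ∘ σ) ∘ σ.symm) = v := by ext i; simp
      rw [e] at h2
      rw [map_neg, hf, h2]
      ext i; simp
    · rintro ⟨v, rfl⟩
      refine ⟨_, ⟨-(v ∘ σ.symm), rfl⟩, ?_⟩
      rw [map_neg, hσ, neg_neg, hf]
      ext i; simp
  change qt (T := FGMod.of S (ι₁ → M)) _ _ = _
  rw [hk, hr]

end swap

section step

open MvPolynomial TensorProduct

variable {R : Type u} [CommRing R] [IsNoetherianRing R] {σ : Type} [Fintype σ]
  {Γ : Type*} [AddCommGroup Γ]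

/-- the module of polynomials with coefficients in `N` -/
noncomputable abbrev polyMod (σ : Type) [Fintype σ] (N : FGMod R) : FGMod (MvPolynomial σ R) :=
  FGMod.of _ (MvPolynomial σ R ⊗[R] N)

omit [IsNoetherianRing R] in
lemma C_smul_polyMod (N : FGMod R) (r : R) (hr : ∀ n : N, r • n = 0) (m : polyMod σ N) :
    (C r : MvPolynomial σ R) • m = 0 := by
  induction m using TensorProduct.induction_on with
  | zero => exact smul_zero _
  | tmul p n =>
      have : (C r : MvPolynomial σ R) • (p ⊗ₜ[R] (n : N)) = p ⊗ₜ[R] (r • n) := by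
        rw [TensorProduct.smul_tmul', smul_eq_mul, ← MvPolynomial.smul_eq_C_mul,
          TensorProduct.smul_tmul]
      refine this.trans ?_
      rw [hr, TensorProduct.tmul_zero]
  | add x y hx hy =>
      refine (smul_add (C r : MvPolynomial σ R) x y).trans ?_
      rw [hx, hy, add_zero]

omit [IsNoetherianRing R] in
lemma killed_polyMod (g : σ → R) (N : FGMod R) (hN : KilledBy (Ideal.span (Set.range g)) N) :
    KilledBy (Ideal.span {bigF g}) (polyMod σ N) := by
  intro s hs m
  obtain ⟨a, rfl⟩ := Ideal.mem_span_singleton'.mp hs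
  rw [mul_smul, bigF, Finset.sum_smul]
  have : ∑ j, (X j * C (g j) : MvPolynomial σ R) • m = 0 :=
    Finset.sum_eq_zero (fun j _ => by
      rw [mul_smul, C_smul_polyMod N (g j) (fun n => hN _ (Ideal.subset_span ⟨j, rfl⟩) n),
        smul_zero])
  rw [this, smul_zero]

/-- the Koszul functional: from modules killed by `g` to modules killed by `∑ Xⱼ gⱼ`; it vanishes
on the modules on which `Xᵢ = - gᵢ` for a given index `i` -/
theorem kos_step_swap [DecidableEq σ] (g : σ → R) (i₀ : σ) {χ : FGMod R → Γ}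
    (hχ : IsAdd (KilledBy (Ideal.span (Set.range g))) χ) :
    ∃ χ' : FGMod (MvPolynomial σ R) → Γ,
      IsAdd (KilledBy (Ideal.span {bigF g})) χ' ∧
      Vanish (Ideal.span {bigF g}) (X i₀ + C (g i₀)) χ' ∧
      ∀ N : FGMod R, KilledBy (Ideal.span (Set.range g)) N → χ' (polyMod σ N) = χ N := by
  have hπ : Surjective (constantCoeff : MvPolynomial σ R →+* R) := fun r => ⟨C r, by simp⟩
  set π : MvPolynomial σ R →+* R := constantCoeff with hπdef
  set K₀ : Ideal R := Ideal.span (Set.range g) with hK₀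
  set js : List σ := (Finset.univ.erase i₀).toList with hjs
  have hnodup : (i₀ :: js).Nodup := by
    rw [List.nodup_cons]
    exact ⟨by simp [hjs], Finset.nodup_toList _⟩
  have hall : ∀ j : σ, j ∈ i₀ :: js := by
    intro j
    rw [List.mem_cons]
    by_cases h : j = i₀
    · exact Or.inl h
    · exact Or.inr (by simp [hjs, h])
  set l := lst g js with hl
  have hcons : ((X i₀, C (g i₀)) : MvPolynomial σ R × MvPolynomial σ R) :: l =
      lst g (i₀ :: js) := rfl
  have hcurv : curv (((X i₀, C (g i₀)) : MvPolynomial σ R × MvPolynomial σ R) :: l) =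
      bigF g := by
    rw [hcons, curv, lst, List.map_map, bigF, List.map_cons, List.sum_cons,
      ← Finset.add_sum_erase _ _ (Finset.mem_univ i₀), ← Finset.sum_map_toList]
    rfl
  obtain ⟨ι₀, ι₁, _, _, _, _, φ, ψ, e, ⟨h1, h2, h3, h4⟩, sw, hsw⟩ :=
    exists_kos_swap (X i₀ : MvPolynomial σ R) (C (g i₀)) l
  rw [hcurv] at h1 h2
  rw [hcons] at h3 h4
  have hmem : ∀ p ∈ lst g (i₀ :: js), ∃ j, p = (X j, C (g j)) := by
    intro p hp
    rw [lst, List.mem_map] at hp
    obtain ⟨j, -, rfl⟩ := hp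
    exact ⟨j, rfl⟩
  have hmem' : ∀ j, ((X j, C (g j)) : MvPolynomial σ R × MvPolynomial σ R) ∈
      lst g (i₀ :: js) := by
    intro j
    rw [lst, List.mem_map]
    exact ⟨j, hall j, rfl⟩
  obtain ⟨I, hI⟩ := nullK_ideal (Ideal.span {bigF g}) φ ψ
  have hJ : ∀ t ∈ K₀.comap π, NullK (Ideal.span {bigF g}) φ ψ t := by
    intro t ht
    rw [← hI]
    refine comap_le I K₀ ?_ (fun j => ?_) ht
    · rw [hK₀, Ideal.span_le]
      rintro _ ⟨j, rfl⟩
      exact (hI _).mpr ((h3 _ (hmem' j)).2.nullK)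
    · exact (hI _).mpr ((h3 _ (hmem' j)).1.nullK)
  have hχ' := isAdd_desc π hπ hχ
  refine ⟨perχ (fun M => χ (desc π hπ M)) φ ψ,
    isAdd_perχ hχ' φ ψ hJ (compK_of_mul h1 h2), ?_, ?_⟩
  · intro M hM hM0
    exact perχ_swap hχ' φ ψ hJ M hM sw (hsw M hM0)
  intro N hN
  let M : FGMod (MvPolynomial σ R) := polyMod σ N
  have hgM : ∀ (j : σ) (m : M), (C (g j) : MvPolynomial σ R) • m = 0 := fun j m =>
    C_smul_polyMod N (g j) (fun n => hN _ (Ideal.subset_span ⟨j, rfl⟩) n) m
  have hFM : KilledBy (Ideal.span {bigF g}) M := killed_polyMod g N hN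
  obtain ⟨k1, k2, k3, k4⟩ := h4 M (fun p hp m => by
    obtain ⟨j, rfl⟩ := hmem p hp
    exact hgM j m) (reg_lst g _ hnodup)
  let q : M →ₗ[MvPolynomial σ R] restr π hπ N :=
    { toFun := fun z => (restrEquiv π hπ N).symm (cfEquiv R σ N z 0)
      map_add' := fun x y => by
        rw [← map_add]
        exact congrArg _ (cf_add _ _ _)
      map_smul' := fun p z => by
        apply (restrEquiv π hπ N).injective
        rw [RingHom.id_apply, restrEquiv_smul, AddEquiv.apply_symm_apply,
          AddEquiv.apply_symm_apply]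
        exact cf_zero_smul p z }
  have hq : ∀ z, q z = (restrEquiv π hπ N).symm (cfEquiv R σ N z 0) := fun _ => rfl
  rw [perχ_eq hχ' φ ψ hJ _ e M (restr π hπ N) hFM k1 k2 k3 k4 q ?_ ?_, desc_restr π hπ hχ N hN]
  · intro x
    refine ⟨(1 : MvPolynomial σ R) ⊗ₜ[R] (restrEquiv π hπ N x), ?_⟩
    rw [hq, AddEquiv.symm_apply_eq, cfEquiv_tmul]
    simp
  · intro m
    rw [hq]
    have := mem_XM (N := N) g (i₀ :: js) m
    rw [this, AddEquiv.map_eq_zero_iff]
    constructor
    · intro h0 α hα
      have : α = 0 := by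
        ext j
        exact hα j (hall j)
      rw [this, h0]
    · intro h
      exact h 0 (fun j _ => rfl)

end step

end Pool.Agent.Helper83.Bass
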