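import Pool.Agent.Helper83.Bass.Homog
import Pool.Agent.Helper83.Bass.Swap

/-!
# The graded ring `A[t][y, x]` and the lattice of a polynomial module
-/

namespace Pool.Agent.Helper83.Bass

open Pool.Agent.Helper11 Function MvPolynomial TensorProduct

universe u

variable {A : Type u} [CommRing A] {σ : Type}

/-- the polynomial ring `A[t][x, yⱼ]`, `x` is the variable `none` -/
abbrev TT (A : Type u) [CommRing A] (σ : Type) : Type u := MvPolynomial (Option σ) (Polynomial A)

/-- the weights: `x` has weight one, `yⱼ` has weight two -/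
def wt0 (σ : Type) : Option σ → ℕ := fun i => i.elim 1 (fun _ => 2)

/-- the grading: `t`, `x` of degree one, `yⱼ` of degree two, `A` of degree zero -/
noncomputable def rho (A : Type u) [CommRing A] (σ : Type) : TT A σ →+* Polynomial (TT A σ) :=
  eval₂Hom (Polynomial.eval₂RingHom (Polynomial.C.comp (C.comp Polynomial.C))
    (Polynomial.C (C Polynomial.X) * Polynomial.X))
    (fun i => Polynomial.C (X i) * Polynomial.X ^ (wt0 σ i))

lemma rho_CC (a : A) : rho A σ (C (Polynomial.C a)) =
    Polynomial.C (C (Polynomial.C a)) * Polynomial.X ^ 0 := by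
  simp [rho]

lemma rho_t : rho A σ (C Polynomial.X) = Polynomial.C (C Polynomial.X) * Polynomial.X ^ 1 := by
  simp [rho]

lemma rho_X (i : Option σ) : rho A σ (X i) = Polynomial.C (X i) * Polynomial.X ^ (wt0 σ i) := by
  simp [rho]

/-- the element `s = x + t` -/
noncomputable def ss (A : Type u) [CommRing A] (σ : Type) : TT A σ := X none + C Polynomial.X

lemma rho_ss : rho A σ (ss A σ) = Polynomial.C (ss A σ) * Polynomial.X ^ 1 := by
  rw [ss, map_add, rho_t, rho_X, map_add, add_mul]
  rfl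

lemma closure_isHom : Subring.closure {r | IsHom (rho A σ) r} = ⊤ := by
  rw [eq_top_iff]
  rintro p -
  induction p using MvPolynomial.induction_on with
  | C a =>
      induction a using Polynomial.induction_on with
      | C a => exact Subring.subset_closure ⟨0, rho_CC a⟩
      | add p q hp hq => rw [C_add]; exact add_mem hp hq
      | monomial n a h =>
          rw [pow_succ, ← mul_assoc, C_mul]
          exact mul_mem h (Subring.subset_closure ⟨1, rho_t⟩)
  | add p q hp hq => exact add_mem hp hq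
  | mul_X p i hp => exact mul_mem hp (Subring.subset_closure ⟨_, rho_X i⟩)

variable [Fintype σ]

/-- the relations `t, gⱼ` -/
noncomputable def gg (g : σ → A) : Option σ → Polynomial A :=
  fun i => i.elim Polynomial.X (fun j => Polynomial.C (g j))

lemma rho_bigF (g : σ → A) : rho A σ (bigF (gg g)) =
    Polynomial.C (bigF (gg g)) * Polynomial.X ^ 2 := by
  rw [bigF, map_sum, map_sum, Finset.sum_mul]
  refine Finset.sum_congr rfl (fun i _ => ?_)
  rw [map_mul, rho_X, map_mul]
  rcases i with _ | j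
  · change _ * rho A σ (C Polynomial.X) = Polynomial.C (X none) * Polynomial.C (C Polynomial.X) * _
    rw [rho_t]
    simp only [wt0, Option.elim]
    ring
  · change _ * rho A σ (C (Polynomial.C (g j))) =
      Polynomial.C (X (some j)) * Polynomial.C (C (Polynomial.C (g j))) * _
    rw [rho_CC]
    simp only [wt0, Option.elim]
    ring

/-- the substitution `x = 1` -/
noncomputable def evx (A : Type u) [CommRing A] (σ : Type) :
    TT A σ →+* MvPolynomial σ (Polynomial A) :=
  eval₂Hom C (fun i => i.elim 1 X)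

omit [Fintype σ] in
lemma evx_C (a : Polynomial A) : evx A σ (C a) = C a := by simp [evx]

omit [Fintype σ] in
lemma evx_some (j : σ) : evx A σ (X (some j)) = X j := by simp [evx]

omit [Fintype σ] in
lemma evx_none : evx A σ (X none) = 1 := by simp [evx]

omit [Fintype σ] in
lemma evx_surj : Surjective (evx A σ) := by
  intro p
  refine ⟨rename some p, ?_⟩
  have : (evx A σ).comp (rename some : MvPolynomial σ (Polynomial A) →ₐ[_] _).toRingHom =
      RingHom.id _ := by
    apply MvPolynomial.ringHom_ext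
    · intro r; simp [evx]
    · intro i; simp [evx]
  exact RingHom.congr_fun this p

/-- total weight of a monomial -/
def wt (β : Option σ →₀ ℕ) : ℕ := β none + 2 * ∑ j, β (some j)

lemma rho_monomial (β : Option σ →₀ ℕ) : rho A σ (monomial β 1) =
    Polynomial.C (monomial β 1) * Polynomial.X ^ (wt β) := by
  classical
  have h1 : (monomial β (1 : Polynomial A) : TT A σ) = ∏ i, (X i) ^ (β i) := by
    rw [monomial_eq, map_one, one_mul, Finsupp.prod_fintype _ _ (fun i => pow_zero _)]
  rw [h1, map_prod, map_prod, Fintype.prod_option, Fintype.prod_option]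
  simp only [map_pow, rho_X, wt0, Option.elim, mul_pow, Finset.prod_mul_distrib, ← pow_mul]
  rw [Finset.prod_pow_eq_pow_sum, ← Finset.mul_sum, wt, pow_add]
  ring

lemma evx_monomial (β : Option σ →₀ ℕ) : evx A σ (monomial β 1) = monomial β.some 1 := by
  classical
  have h1 : (monomial β (1 : Polynomial A) : TT A σ) = ∏ i, (X i) ^ (β i) := by
    rw [monomial_eq, map_one, one_mul, Finsupp.prod_fintype _ _ (fun i => pow_zero _)]
  have h2 : (monomial β.some (1 : Polynomial A) : MvPolynomial σ (Polynomial A)) =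
      ∏ j, (X j) ^ (β (some j)) := by
    rw [monomial_eq, map_one, one_mul, Finsupp.prod_fintype _ _ (fun i => pow_zero _)]
    rfl
  rw [h1, h2, map_prod, Fintype.prod_option]
  simp [evx_none, evx_some]

variable (N₀ : FGMod (Polynomial A))

/-- the module `N₀[y]` over `A[t][y, x]`, `x` acting as `1` -/
noncomputable def modN (σ : Type) [Fintype σ] (N₀ : FGMod (Polynomial A)) : FGMod (TT A σ) :=
  restr (evx A σ) evx_surj (polyMod σ N₀)

/-- the elements of `modN` -/
noncomputable def nu (σ : Type) [Fintype σ] (N₀ : FGMod (Polynomial A)) :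
    polyMod σ N₀ ≃+ modN σ N₀ :=
  (restrEquiv (evx A σ) evx_surj (polyMod σ N₀)).symm

lemma smul_nu (r : TT A σ) (z : polyMod σ N₀) : r • nu σ N₀ z = nu σ N₀ (evx A σ r • z) := rfl

variable {N₀}

lemma ss_smul_modN (ht : ∀ n : N₀, (Polynomial.X : Polynomial A) • n = 0) (n : modN σ N₀) :
    ss A σ • n = n := by
  obtain ⟨z, rfl⟩ := (nu σ N₀).surjective n
  rw [smul_nu, ss, map_add, evx_none, evx_C, add_smul, one_smul]
  have : (C Polynomial.X : MvPolynomial σ (Polynomial A)) • z = 0 :=
    C_smul_polyMod N₀ _ ht z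
  rw [this, add_zero]

lemma killed_modN {g : σ → A} (hN : KilledBy (Ideal.span (Set.range (gg g))) N₀) :
    KilledBy (Ideal.span {bigF (gg g)}) (modN σ N₀) := by
  intro s hs m
  obtain ⟨a, rfl⟩ := Ideal.mem_span_singleton'.mp hs
  obtain ⟨z, rfl⟩ := (nu σ N₀).surjective m
  rw [mul_smul]
  have : bigF (gg g) • nu σ N₀ z = 0 := by
    rw [smul_nu, bigF, map_sum, Finset.sum_smul]
    rw [Finset.sum_eq_zero, map_zero]
    intro j _
    rw [map_mul, mul_smul, evx_C]
    have : (C (gg g j) : MvPolynomial σ (Polynomial A)) • z = 0 :=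
      C_smul_polyMod N₀ _ (fun n => hN _ (Ideal.subset_span ⟨j, rfl⟩) n) z
    rw [this, smul_zero]
  rw [this, smul_zero]

/-- the constants in degree zero -/
lemma C_smul_sgl (ht : ∀ n : N₀, (Polynomial.X : Polynomial A) • n = 0) (a : Polynomial A)
    (n : N₀) :
    (C a : TT A σ) • (sgl (rho A σ) 0 (nu σ N₀ ((1 : MvPolynomial σ (Polynomial A)) ⊗ₜ n)) :
      Tw (rho A σ) (modN σ N₀)) = sgl (rho A σ) 0 (nu σ N₀
        ((1 : MvPolynomial σ (Polynomial A)) ⊗ₜ (a • n))) := by
  have key : ∀ (p : Polynomial A) (n : N₀), (C p : MvPolynomial σ (Polynomial A)) •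
      ((1 : MvPolynomial σ (Polynomial A)) ⊗ₜ[Polynomial A] n) =
      (1 : MvPolynomial σ (Polynomial A)) ⊗ₜ[Polynomial A] (p • n) := by
    intro p n
    rw [TensorProduct.smul_tmul', smul_eq_mul, ← MvPolynomial.smul_eq_C_mul,
      TensorProduct.smul_tmul]
  induction a using Polynomial.induction_on generalizing n with
  | C a =>
      rw [smul_sgl_of_hom (rho_CC a), smul_nu, evx_C, key]
  | add p q hp hq =>
      rw [C_add, add_smul, hp, hq, ← sgl_add, ← map_add, add_smul, TensorProduct.tmul_add]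
  | monomial k a h =>
      have e : (Polynomial.C a * Polynomial.X ^ (k + 1) : Polynomial A) =
          (Polynomial.C a * Polynomial.X ^ k) * Polynomial.X := by rw [pow_succ, mul_assoc]
      have h1 : (C Polynomial.X : TT A σ) • (sgl (rho A σ) 0
          (nu σ N₀ ((1 : MvPolynomial σ (Polynomial A)) ⊗ₜ n)) :
          Tw (rho A σ) (modN σ N₀)) = 0 := by
        rw [smul_sgl_of_hom rho_t, smul_nu, evx_C, key, ht, TensorProduct.tmul_zero, map_zero,
          sgl_zero]
      rw [e, C_mul, mul_smul, h1, smul_zero, mul_smul, ht, smul_zero, TensorProduct.tmul_zero,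
        map_zero, sgl_zero]

/-- the embedding of the graded module `N₀[y, x]` into `N₀[y][T]` -/
theorem exists_theta (ht : ∀ n : N₀, (Polynomial.X : Polynomial A) • n = 0) :
    ∃ θ : polyMod (Option σ) N₀ →ₗ[TT A σ] Tw (rho A σ) (modN σ N₀),
      ∀ (β : Option σ →₀ ℕ) (n : N₀), θ (monomial β 1 ⊗ₜ n) =
        sgl (rho A σ) (wt β) (nu σ N₀ (monomial β.some 1 ⊗ₜ n)) := by
  letI : Module (Polynomial A) (Tw (rho A σ) (modN σ N₀)) :=
    Module.compHom _ (C : Polynomial A →+* TT A σ)
  have hsm : ∀ (a : Polynomial A) (x : Tw (rho A σ) (modN σ N₀)), a • x = (C a : TT A σ) • x :=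
    fun _ _ => rfl
  haveI : IsScalarTower (Polynomial A) (TT A σ) (Tw (rho A σ) (modN σ N₀)) :=
    ⟨fun a t x => by rw [hsm, MvPolynomial.smul_eq_C_mul, mul_smul]⟩
  let l : N₀ →ₗ[Polynomial A] Tw (rho A σ) (modN σ N₀) :=
    { toFun := fun n => sgl (rho A σ) 0 (nu σ N₀ ((1 : MvPolynomial σ (Polynomial A)) ⊗ₜ n))
      map_add' := fun x y => by rw [TensorProduct.tmul_add, map_add, sgl_add]
      map_smul' := fun a x => by rw [RingHom.id_apply, hsm, C_smul_sgl ht] }
  refine ⟨l.liftBaseChange (TT A σ), fun β n => ?_⟩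
  have h1 : (l.liftBaseChange (TT A σ)) (monomial β 1 ⊗ₜ n) = (monomial β 1 : TT A σ) • l n :=
    LinearMap.liftBaseChange_tmul _ _ _ _
  rw [h1]
  change (monomial β 1 : TT A σ) • (sgl (rho A σ) 0 (nu σ N₀
    ((1 : MvPolynomial σ (Polynomial A)) ⊗ₜ n)) : Tw (rho A σ) (modN σ N₀)) = _
  rw [smul_sgl_of_hom (rho_monomial β), smul_nu, evx_monomial, TensorProduct.smul_tmul',
    smul_eq_mul, mul_one, add_zero]

lemma wt_inj {β β' : Option σ →₀ ℕ} (h1 : wt β = wt β') (h2 : β.some = β'.some) : β = β' := by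
  have h3 : ∀ j, β (some j) = β' (some j) := fun j => DFunLike.congr_fun h2 j
  ext (_ | j)
  · have : ∑ j, β (some j) = ∑ j, β' (some j) := Finset.sum_congr rfl (fun j _ => h3 j)
    unfold wt at h1
    omega
  · exact h3 j

theorem theta_injective (θ : polyMod (Option σ) N₀ →ₗ[TT A σ] Tw (rho A σ) (modN σ N₀))
    (hθ : ∀ (β : Option σ →₀ ℕ) (n : N₀), θ (monomial β 1 ⊗ₜ n) =
        sgl (rho A σ) (wt β) (nu σ N₀ (monomial β.some 1 ⊗ₜ n))) : Injective θ := by
  classical
  rw [injective_iff_map_eq_zero]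
  intro z hz
  let D : (Option σ →₀ ℕ) → Tw (rho A σ) (modN σ N₀) →+ N₀ := fun β₀ =>
    { toFun := fun x => cfEquiv (Polynomial A) σ N₀ ((nu σ N₀).symm (cf _ x (wt β₀))) β₀.some
      map_zero' := by rw [cf_zero, map_zero, map_zero]; rfl
      map_add' := fun x y => by rw [cf_add', map_add, cf_add] }
  have hD : ∀ β₀ x, D β₀ x =
      cfEquiv (Polynomial A) σ N₀ ((nu σ N₀).symm (cf _ x (wt β₀))) β₀.some := fun _ _ => rfl
  have key : ∀ β₀, D β₀ (θ z) = cfEquiv (Polynomial A) (Option σ) N₀ z β₀ := by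
    intro β₀
    conv_lhs => rw [cf_sum z]
    rw [map_sum, map_sum]
    rw [Finset.sum_eq_single β₀]
    · rw [hθ, hD, cf_sgl, if_pos rfl, AddEquiv.symm_apply_apply, cfEquiv_tmul, coeff_monomial,
        if_pos rfl, one_smul]
    · intro β _ hne
      rw [hθ, hD, cf_sgl]
      split_ifs with h
      · rw [AddEquiv.symm_apply_apply, cfEquiv_tmul, coeff_monomial, if_neg, zero_smul]
        exact fun h' => hne (wt_inj h h')
      · rw [map_zero, map_zero]; rfl
    · intro h
      rw [Finsupp.notMem_support_iff.mp h, TensorProduct.tmul_zero, map_zero, map_zero]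
  apply (cfEquiv (Polynomial A) (Option σ) N₀).injective
  rw [map_zero]
  ext β₀
  rw [← key, hz, map_zero]
  rfl

theorem theta_absorb (ht : ∀ n : N₀, (Polynomial.X : Polynomial A) • n = 0)
    (θ : polyMod (Option σ) N₀ →ₗ[TT A σ] Tw (rho A σ) (modN σ N₀))
    (hθ : ∀ (β : Option σ →₀ ℕ) (n : N₀), θ (monomial β 1 ⊗ₜ n) =
        sgl (rho A σ) (wt β) (nu σ N₀ (monomial β.some 1 ⊗ₜ n)))
    (x : Tw (rho A σ) (modN σ N₀)) : ∃ (d : ℕ) (p : polyMod (Option σ) N₀),
      θ p = ss A σ ^ d • x := by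
  classical
  have hadd : ∀ x y : Tw (rho A σ) (modN σ N₀),
      (∃ (d : ℕ) (p : polyMod (Option σ) N₀), θ p = ss A σ ^ d • x) →
      (∃ (d : ℕ) (p : polyMod (Option σ) N₀), θ p = ss A σ ^ d • y) →
      ∃ (d : ℕ) (p : polyMod (Option σ) N₀), θ p = ss A σ ^ d • (x + y) := by
    rintro x y ⟨d, p, hp⟩ ⟨e, q, hq⟩
    refine ⟨d + e, ss A σ ^ e • p + ss A σ ^ d • q, ?_⟩
    rw [map_add, map_smul, map_smul, hp, hq, ← mul_smul, ← mul_smul, smul_add, ← pow_add,
      ← pow_add, add_comm e d]
  have h0 : ∃ (d : ℕ) (p : polyMod (Option σ) N₀),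
      θ p = ss A σ ^ d • (0 : Tw (rho A σ) (modN σ N₀)) := ⟨0, 0, by rw [map_zero, smul_zero]⟩
  have hshift : ∀ (d k : ℕ) (n : modN σ N₀), ss A σ ^ d • (sgl (rho A σ) k n :
      Tw (rho A σ) (modN σ N₀)) = sgl (rho A σ) (k + d) n := by
    intro d
    induction d with
    | zero => intro k n; rw [pow_zero, one_smul, add_zero]
    | succ d ih =>
        intro k n
        rw [pow_succ, mul_smul, smul_sgl_of_hom rho_ss, ss_smul_modN ht, ih]
        congr 1
        omega
  refine tw_induction (p := fun x => ∃ (d : ℕ) (p : polyMod (Option σ) N₀),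
    θ p = ss A σ ^ d • x) x h0 hadd ?_
  intro k n
  obtain ⟨z, rfl⟩ := (nu σ N₀).surjective n
  have hz := cf_sum (z : MvPolynomial σ (Polynomial A) ⊗[Polynomial A] N₀)
  have hmon : ∀ (α : σ →₀ ℕ) (m : N₀), ∃ (d : ℕ) (p : polyMod (Option σ) N₀),
      θ p = ss A σ ^ d • (sgl (rho A σ) k (nu σ N₀ (monomial α 1 ⊗ₜ m)) :
        Tw (rho A σ) (modN σ N₀)) := by
    intro α m
    let β : Option σ →₀ ℕ := α.optionElim k
    have hβ : β.some = α := by
      ext j; simp [β]
    refine ⟨2 * ∑ j, β (some j), monomial β 1 ⊗ₜ m, ?_⟩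
    rw [hθ, hshift, hβ]
    congr 1
    unfold wt
    congr 1
    simp [β]
  have hsum : ∀ S : Finset (σ →₀ ℕ), ∃ (d : ℕ) (p : polyMod (Option σ) N₀),
      θ p = ss A σ ^ d • (sgl (rho A σ) k (nu σ N₀ (∑ α ∈ S, monomial α 1 ⊗ₜ
        (cfEquiv (Polynomial A) σ N₀ z α))) : Tw (rho A σ) (modN σ N₀)) := by
    intro S
    induction S using Finset.induction_on with
    | empty => rw [Finset.sum_empty, map_zero, sgl_zero]; exact h0
    | insert a S ha ih =>
        rw [Finset.sum_insert ha, map_add, sgl_add]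
        exact hadd _ _ (hmon a _) ih
  have := hsum (cfEquiv (Polynomial A) σ N₀ z).support
  rw [← hz] at this
  exact this

/-- the value of the homogenisation functional on `N₀[y]` -/
theorem homχ_modN [IsNoetherianRing A] {Γ : Type*} [AddCommGroup Γ]
    {χ : FGMod (TT A σ) → Γ} {g : σ → A}
    (hχ : IsAdd (KilledBy (Ideal.span {bigF (gg g)})) χ)
    (h0 : Vanish (Ideal.span {bigF (gg g)}) (ss A σ) χ)
    (hN : KilledBy (Ideal.span (Set.range (gg g))) N₀) :
    homχ (rho A σ) (ss A σ) χ (modN σ N₀) = χ (polyMod (Option σ) N₀) := by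
  have ht : ∀ n : N₀, (Polynomial.X : Polynomial A) • n = 0 := fun n =>
    hN _ (Ideal.subset_span ⟨none, rfl⟩) n
  obtain ⟨θ, hθ⟩ := exists_theta (σ := σ) ht
  exact latχ_embed hχ h0 (tw_killed_span ⟨2, rho_bigF g⟩ (killed_modN hN)) _
    (killed_polyMod (gg g) N₀ hN) θ (theta_injective θ hθ) (theta_absorb ht θ hθ)

end Pool.Agent.Helper83.Bass
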