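import Pool.Agent.Helper11.Restr
import Pool.Agent.Helper11.G0

/-!
# Exact functors between categories of finitely generated modules
-/

namespace Pool.Agent.Helper83.Bass

open Pool.Agent.Helper11 Function TensorProduct

universe u

/-- a short exact sequence -/
structure SES {R : Type u} [CommRing R] (M' M M'' : FGMod R) where
  f : M' →ₗ[R] M
  g : M →ₗ[R] M''
  inj : Injective f
  surj : Surjective g
  exact : Exact f g

/-- a map of modules is an exact functor, in the sense that it preserves short exact sequences -/
def ExactF {R S : Type u} [CommRing R] [CommRing S] (Φ : FGMod R → FGMod S) : Prop :=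
  ∀ M' M M'' : FGMod R, SES M' M M'' → Nonempty (SES (Φ M') (Φ M) (Φ M''))

lemma ExactF.comp {R S Q : Type u} [CommRing R] [CommRing S] [CommRing Q]
    {Φ : FGMod R → FGMod S} {Ψ : FGMod S → FGMod Q} (hΨ : ExactF Ψ) (hΦ : ExactF Φ) :
    ExactF (fun M => Ψ (Φ M)) := fun M' M M'' e => by
  obtain ⟨e'⟩ := hΦ M' M M'' e
  exact hΨ _ _ _ e'

section restr

variable {S R : Type u} [CommRing S] [CommRing R] (π : S →+* R) (hπ : Surjective π)

lemma exactF_restr : ExactF (restr π hπ) := fun M' M M'' e => ⟨
  { f := { toFun := fun x => (restrEquiv π hπ M).symm (e.f (restrEquiv π hπ M' x))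
           map_add' := fun x y => by simp
           map_smul' := fun s x => by
            rw [restrEquiv_smul, map_smul]
            rfl }
    g := { toFun := fun x => (restrEquiv π hπ M'').symm (e.g (restrEquiv π hπ M x))
           map_add' := fun x y => by simp
           map_smul' := fun s x => by
            rw [restrEquiv_smul, map_smul]
            rfl }
    inj := fun x y h => e.inj h
    surj := fun x => e.surj x
    exact := fun x => e.exact x }⟩

end restr

section base

variable {R A : Type u} [CommRing R] [CommRing A] [Algebra R A] [Module.Flat R A]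

lemma exactF_baseChange : ExactF (fun M : FGMod R => FGMod.of A (A ⊗[R] M)) :=
  fun M' M M'' e => ⟨
  { f := e.f.baseChange A
    g := e.g.baseChange A
    inj := Module.Flat.lTensor_preserves_injective_linearMap e.f e.inj
    surj := LinearMap.lTensor_surjective A e.surj
    exact := fun x => (Module.Flat.lTensor_exact A e.exact) x }⟩

end base

section desc

variable {S R : Type u} [CommRing S] [CommRing R] (π : S →+* R) (hπ : Surjective π)

/-- `restr (desc M) ≅ M` for a module killed by the kernel -/
lemma restr_desc_iso (M : FGMod S) (h : KilledBy (RingHom.ker π) M) :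
    Nonempty (M ≃ₗ[S] restr π hπ (desc π hπ M)) := by
  obtain ⟨e, he⟩ := exists_descEquiv π hπ M h
  exact ⟨{ e.trans (restrEquiv π hπ (desc π hπ M)).symm with
    map_smul' := fun s x => by
      change e (s • x) = π s • e x
      exact he s x }⟩

end desc

namespace G0h

variable {R : Type u} [CommRing R]

/-- an additive function defines a homomorphism -/
noncomputable def hom {Γ : Type*} [AddCommGroup Γ] (χ : FGMod R → Γ)
    (h : ∀ M' M M'' : FGMod R, SES M' M M'' → χ M = χ M' + χ M'') : G0 R →+ Γ :=
  G0.lift χ (fun M' M M'' f g hf hg hfg => h M' M M'' ⟨f, g, hf, hg, hfg⟩)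

lemma hom_mk {Γ : Type*} [AddCommGroup Γ] (χ : FGMod R → Γ)
    (h : ∀ M' M M'' : FGMod R, SES M' M M'' → χ M = χ M' + χ M'') (M : FGMod R) :
    hom χ h (G0.mk M) = χ M := G0.lift_mk _ _ M

end G0h

end Pool.Agent.Helper83.Bass
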