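import Pool.Agent.Helper83.Bass.Lattice
import Pool.Agent.Helper83.Bass.Gen

/-!
# Additive functions of modules over a ring which becomes a localisation
-/

namespace Pool.Agent.Helper83.Bass

open Pool.Agent.Helper11 Function TensorProduct

universe u

section tors

variable {V : Type u} [CommRing V] [IsNoetherianRing V] {Γ : Type*} [AddCommGroup Γ]
  {K : Ideal V} {χ : FGMod V → Γ} {s : V}

/-- modules with `s`-power torsion are invisible -/
lemma vanish_tors (hχ : IsAdd (KilledBy K) χ) (h0 : Vanish K s χ) (M : FGMod V)
    (hM : KilledBy K M) (ht : ∀ m : M, ∃ n : ℕ, s ^ n • m = 0) : χ M = 0 := by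
  obtain ⟨e, he⟩ : ∃ e : ℕ, ∀ m : M, s ^ e • m = 0 := by
    obtain ⟨S, hS⟩ := (inferInstance : Module.Finite V M).fg_top
    choose d hd using ht
    refine ⟨S.sup d, fun x => ?_⟩
    have hx : x ∈ Submodule.span V (S : Set M) := by rw [hS]; trivial
    induction hx using Submodule.span_induction with
    | mem x h =>
        have hle : d x ≤ S.sup d := Finset.le_sup h
        rw [← Nat.sub_add_cancel hle, pow_add, mul_smul, hd x, smul_zero]
    | zero => rw [smul_zero]
    | add x y _ _ hx hy => rw [smul_add, hx, hy, add_zero]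
    | smul r x _ hx => rw [smul_comm, hx, smul_zero]
  exact vanish_pow hχ h0 e M hM he

end tors

section step

variable {C V : Type u} [CommRing C] [CommRing V] [Algebra C V]

/-- the ring `V` becomes the localisation of `C` after inverting `s` -/
structure LocAway (s : C) : Prop where
  frac : ∀ w : V, ∃ (d : ℕ) (c : C), algebraMap C V s ^ d * w = algebraMap C V c
  tors : Nonempty (V →ₐ[C] Localization.Away s)

variable (s : C)

/-- elements of the base change come from the base after multiplication by a power of `s` -/
lemma LocAway.elem (h : LocAway (V := V) s) (E : Type u) [AddCommGroup E] [Module C E]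
    (z : V ⊗[C] E) : ∃ (d : ℕ) (e : E), algebraMap C V s ^ d • z = (1 : V) ⊗ₜ[C] e := by
  induction z using TensorProduct.induction_on with
  | zero => exact ⟨0, 0, by simp⟩
  | tmul w e =>
      obtain ⟨d, c, hc⟩ := h.frac w
      refine ⟨d, c • e, ?_⟩
      rw [TensorProduct.smul_tmul', smul_eq_mul, hc, Algebra.algebraMap_eq_smul_one,
        TensorProduct.smul_tmul]
  | add x y hx hy =>
      obtain ⟨d, e, hd⟩ := hx
      obtain ⟨d', e', hd'⟩ := hy
      refine ⟨d + d', s ^ d' • e + s ^ d • e', ?_⟩
      rw [smul_add, pow_add, mul_comm (algebraMap C V s ^ d), mul_smul, hd,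
        mul_comm (algebraMap C V s ^ d'), mul_smul, hd', TensorProduct.tmul_add,
        ← TensorProduct.smul_tmul, ← TensorProduct.smul_tmul, TensorProduct.smul_tmul',
        TensorProduct.smul_tmul', smul_eq_mul, smul_eq_mul, mul_one, mul_one,
        Algebra.smul_def, Algebra.smul_def, map_pow, map_pow, mul_one, mul_one]

/-- the kernel of `E → V ⊗ E` is torsion -/
lemma LocAway.inj (h : LocAway (V := V) s) (E : Type u) [AddCommGroup E] [Module C E]
    (e : E) (he : (1 : V) ⊗ₜ[C] e = 0) : ∃ n : ℕ, s ^ n • e = 0 := by
  obtain ⟨ν⟩ := h.tors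
  have h1 : (TensorProduct.mk C (Localization.Away s) E 1) e = 0 := by
    have := congrArg (LinearMap.rTensor E ν.toLinearMap) he
    rw [LinearMap.rTensor_tmul, map_zero] at this
    change ν 1 ⊗ₜ[C] e = 0 at this
    rwa [map_one] at this
  obtain ⟨⟨_, n, rfl⟩, hn⟩ :=
    (IsLocalizedModule.eq_zero_iff (Submonoid.powers s)
      (TensorProduct.mk C (Localization.Away s) E 1)).mp h1
  exact ⟨n, hn⟩

lemma killed_bc {I : Ideal C} {K : Ideal V} (hK : K ≤ I.map (algebraMap C V)) {E : FGMod C}
    (hE : KilledBy I E) : KilledBy K (bc C V E) := by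
  intro x hx z
  have hle : I.map (algebraMap C V) ≤ Module.annihilator V (V ⊗[C] E) := by
    rw [Ideal.map_le_iff_le_comap]
    intro i hi
    rw [Ideal.mem_comap, Module.mem_annihilator]
    intro z
    induction z using TensorProduct.induction_on with
    | zero => exact smul_zero _
    | tmul w e =>
        rw [TensorProduct.smul_tmul', smul_eq_mul, ← Algebra.smul_def, TensorProduct.smul_tmul,
          hE i hi, TensorProduct.tmul_zero]
    | add x y hx hy => rw [smul_add, hx, hy, add_zero]
  exact Module.mem_annihilator.mp (hle (hK hx)) z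

variable [IsNoetherianRing V] {Γ : Type*} [AddCommGroup Γ]
  {K : Ideal V} {χ : FGMod V → Γ} {I : Ideal C}

/-- the base change is additive for a function which does not see torsion -/
theorem isAdd_bc (h : LocAway (V := V) s) (hχ : IsAdd (KilledBy K) χ)
    (h0 : Vanish K (algebraMap C V s) χ) (hK : K ≤ I.map (algebraMap C V)) :
    IsAdd (KilledBy I) (fun E : FGMod C => χ (bc C V E)) where
  sq := subQuot_killedBy I
  add M' M M'' f g hf hg hfg hM := by
    have hM' := (subQuot_killedBy I).sub M' M f hf hM
    have kM : KilledBy K (bc C V M) := killed_bc hK hM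
    have kM' : KilledBy K (bc C V M') := killed_bc hK hM'
    let f' : bc C V M' →ₗ[V] bc C V M := f.baseChange V
    let g' : bc C V M →ₗ[V] bc C V M'' := g.baseChange V
    have e1 := hχ.ker_range f' kM'
    have e2 : χ (FGMod.of V (LinearMap.ker f')) = 0 := by
      refine vanish_tors hχ h0 _ ?_ ?_
      · exact (subQuot_killedBy K).sub (FGMod.of V (LinearMap.ker f')) (bc C V M')
          (LinearMap.ker f').subtype (LinearMap.ker f').subtype_injective kM'
      · rintro ⟨z, hz⟩
        obtain ⟨d, e, hd⟩ := h.elem s M' z
        have h1 : (1 : V) ⊗ₜ[C] (f e) = 0 := by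
          have h2 : f' ((1 : V) ⊗ₜ[C] e) = 0 := by
            have hz' : f' z = 0 := hz
            have h3 := congrArg f' hd
            rw [map_smul, hz', smul_zero] at h3
            exact h3.symm
          exact h2
        obtain ⟨n, hn⟩ := h.inj s M (f e) h1
        have h4 : s ^ n • e = 0 := hf (by rw [map_smul, hn, map_zero])
        refine ⟨n + d, Subtype.ext ?_⟩
        change algebraMap C V s ^ (n + d) • z = 0
        rw [pow_add, mul_smul]
        refine (congrArg (fun x => algebraMap C V s ^ n • x) hd).trans ?_
        change algebraMap C V s ^ n • ((1 : V) ⊗ₜ[C] e) = 0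
        rw [TensorProduct.smul_tmul', smul_eq_mul, mul_one, ← map_pow,
          Algebra.algebraMap_eq_smul_one, TensorProduct.smul_tmul, h4, TensorProduct.tmul_zero]
    have e3 : χ (bc C V M) = χ (FGMod.of V (LinearMap.range f')) + χ (bc C V M'') := by
      refine hχ.add (FGMod.of V (LinearMap.range f')) (bc C V M) (bc C V M'')
        (LinearMap.range f').subtype g' (LinearMap.range f').subtype_injective ?_ ?_ kM
      · exact LinearMap.lTensor_surjective V hg
      · intro x
        have hex : Exact f' g' := lTensor_exact V hfg hg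
        rw [hex x]
        constructor
        · rintro ⟨y, rfl⟩
          exact ⟨⟨f' y, y, rfl⟩, rfl⟩
        · rintro ⟨⟨_, y, rfl⟩, rfl⟩
          exact ⟨y, rfl⟩
    rw [e3, e1, e2, zero_add]

/-- every module is a base change up to torsion -/
theorem exists_bc (h : LocAway (V := V) s) (hχ : IsAdd (KilledBy K) χ)
    (h0 : Vanish K (algebraMap C V s) χ) (hK : K = I.map (algebraMap C V)) (M : FGMod V)
    (hM : KilledBy K M) : ∃ E : FGMod C, KilledBy I E ∧ χ M = χ (bc C V E) := by
  letI : Module C M := Module.compHom M (algebraMap C V)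
  haveI : IsScalarTower C V M := ⟨fun c v m => by
    rw [Algebra.smul_def, mul_smul]; rfl⟩
  obtain ⟨S, hS⟩ := (inferInstance : Module.Finite V M).fg_top
  let N : Submodule C M := Submodule.span C (S : Set M)
  haveI : Module.Finite C N := Module.Finite.iff_fg.mpr ⟨S, rfl⟩
  let E : FGMod C := FGMod.of C N
  have hE : KilledBy I E := by
    intro i hi e
    apply Subtype.ext
    change algebraMap C V i • (e : M) = 0
    exact hM _ (by rw [hK]; exact Ideal.mem_map_of_mem _ hi) _
  refine ⟨E, hE, ?_⟩
  let q : bc C V E →ₗ[V] M := LinearMap.liftBaseChange V N.subtype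
  have hq : ∀ (v : V) (n : N), q (v ⊗ₜ[C] n) = v • (n : M) := fun v n => by
    change (LinearMap.liftBaseChange V N.subtype) (v ⊗ₜ[C] n) = _
    rw [LinearMap.liftBaseChange_tmul]
    rfl
  have hsurj : Surjective q := by
    rw [← LinearMap.range_eq_top, eq_top_iff, ← hS, Submodule.span_le]
    intro x hx
    exact ⟨(1 : V) ⊗ₜ[C] (⟨x, Submodule.subset_span hx⟩ : N), by rw [hq, one_smul]⟩
  have kE : KilledBy K (bc C V E) := killed_bc hK.le hE
  have e1 := hχ.ker_range q kE
  have e2 : χ (FGMod.of V (LinearMap.ker q)) = 0 := by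
    refine vanish_tors hχ h0 _ ?_ ?_
    · exact (subQuot_killedBy K).sub (FGMod.of V (LinearMap.ker q)) (bc C V E)
        (LinearMap.ker q).subtype (LinearMap.ker q).subtype_injective kE
    · rintro ⟨z, hz⟩
      obtain ⟨d, e, hd⟩ := h.elem s E z
      have hz' : q z = 0 := hz
      have h3 := congrArg q hd
      rw [map_smul, hz', smul_zero] at h3
      have h4 : (e : M) = 0 := by
        have := h3.symm
        rw [hq, one_smul] at this
        exact this
      have h5 : e = 0 := Subtype.ext h4
      refine ⟨d, Subtype.ext ?_⟩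
      change algebraMap C V s ^ d • z = 0
      refine hd.trans ?_
      rw [h5, TensorProduct.tmul_zero]
  rw [e1, e2, zero_add]
  have hr : LinearMap.range q = ⊤ := LinearMap.range_eq_top.mpr hsurj
  have kr : KilledBy K (FGMod.of V (LinearMap.range q)) :=
    (subQuot_killedBy K).sub (FGMod.of V (LinearMap.range q)) M
      (LinearMap.range q).subtype (LinearMap.range q).subtype_injective hM
  exact (hχ.iso (M := FGMod.of V (LinearMap.range q)) (N := M)
    (LinearEquiv.ofTop _ hr) kr).symm

end step

end Pool.Agent.Helper83.Bass
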