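import Pool.Agent.Helper11.Dehom
import Pool.Agent.Helper83.Bass.Lattice

/-!
# From modules over a graded ring to modules on which an element of degree one acts as `1`
-/

namespace Pool.Agent.Helper83.Bass

open Pool.Agent.Helper11 Function

universe u

variable {T : Type u} [CommRing T] (ρ : T →+* Polynomial T)

/-- an element which is homogeneous with respect to `ρ` -/
def IsHom (r : T) : Prop := ∃ w : ℕ, ρ r = Polynomial.C r * Polynomial.X ^ w

section tw

variable {N' N N'' : Type u} [AddCommGroup N'] [Module T N'] [AddCommGroup N] [Module T N]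
  [AddCommGroup N''] [Module T N'']

/-- functoriality of the twisted polynomial module -/
noncomputable def twMap (f : N' →ₗ[T] N) : Tw ρ N' →ₗ[T] Tw ρ N where
  toFun x := PolynomialModule.map T f x
  map_add' x y := map_add (PolynomialModule.map T f) x y
  map_smul' r x := by
    refine (PolynomialModule.map_smul T f (ρ r) x).trans ?_
    rw [Algebra.algebraMap_self, Polynomial.map_id]
    rfl

/-- coefficients -/
def cf (x : Tw ρ N) (i : ℕ) : N := (show PolynomialModule T N from x).coeff i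

variable {ρ}

lemma cf_ext {x y : Tw ρ N} (h : ∀ i, cf ρ x i = cf ρ y i) : x = y := by
  apply PolynomialModule.coeff_injective
  ext i
  exact h i

lemma cf_zero (i : ℕ) : cf ρ (0 : Tw ρ N) i = 0 := rfl

lemma cf_add' (x y : Tw ρ N) (i : ℕ) : cf ρ (x + y) i = cf ρ x i + cf ρ y i := rfl

lemma cf_sgl (k : ℕ) (n : N) (i : ℕ) : cf ρ (sgl ρ k n) i = if k = i then n else 0 := by
  change (PolynomialModule.single T k n).coeff i = _
  rw [PolynomialModule.coeff_single, Finsupp.single_apply]

lemma cf_twMap (f : N' →ₗ[T] N) (x : Tw ρ N') (i : ℕ) :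
    cf ρ (twMap ρ f x) i = f (cf ρ x i) := rfl

lemma twMap_injective {f : N' →ₗ[T] N} (hf : Injective f) : Injective (twMap ρ f) := by
  intro x y h
  refine cf_ext (fun i => hf ?_)
  rw [← cf_twMap, ← cf_twMap, h]

/-- building an element from coefficients -/
lemma exists_cf (c : ℕ →₀ N) : ∃ x : Tw ρ N, ∀ i, cf ρ x i = c i :=
  ⟨PolynomialModule.ofCoeff T c, fun _ => rfl⟩

lemma cf_support (x : Tw ρ N) : ∃ c : ℕ →₀ N, ∀ i, cf ρ x i = c i :=
  ⟨(show PolynomialModule T N from x).coeff, fun _ => rfl⟩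

lemma twMap_surjective {g : N →ₗ[T] N''} (hg : Surjective g) : Surjective (twMap ρ g) := by
  intro x
  obtain ⟨c, hc⟩ := cf_support x
  obtain ⟨d, hd⟩ := Finsupp.mapRange_surjective (α := ℕ) g (map_zero g) hg c
  obtain ⟨y, hy⟩ := exists_cf (ρ := ρ) d
  refine ⟨y, cf_ext (fun i => ?_)⟩
  rw [cf_twMap, hy, hc, ← hd, Finsupp.mapRange_apply]

lemma twMap_exact {f : N' →ₗ[T] N} {g : N →ₗ[T] N''} (hf : Injective f) (hfg : Exact f g) :
    Exact (twMap ρ f) (twMap ρ g) := by
  classical
  intro x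
  constructor
  · intro hx
    have hx' : ∀ i, g (cf ρ x i) = 0 := fun i => by
      rw [← cf_twMap, hx, cf_zero]
    let pre : N → N' := fun n => if h : ∃ m, f m = n then h.choose else 0
    have hpre : ∀ n, g n = 0 → f (pre n) = n := by
      intro n hn
      have h : ∃ m, f m = n := (hfg n).mp hn
      simp only [pre, dif_pos h]
      exact h.choose_spec
    have hpre0 : pre 0 = 0 := hf (by rw [hpre 0 (map_zero g), map_zero])
    obtain ⟨c, hc⟩ := cf_support x
    obtain ⟨y, hy⟩ := exists_cf (ρ := ρ) (Finsupp.mapRange pre hpre0 c)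
    refine ⟨y, cf_ext (fun i => ?_)⟩
    rw [cf_twMap, hy, Finsupp.mapRange_apply, ← hc, hpre _ (hx' i)]
  · rintro ⟨y, rfl⟩
    refine cf_ext (fun i => ?_)
    rw [cf_twMap, cf_twMap, hfg.apply_apply_eq_zero, cf_zero]

lemma tw_induction {p : Tw ρ N → Prop} (x : Tw ρ N) (h0 : p 0)
    (ha : ∀ x y, p x → p y → p (x + y)) (hs : ∀ k n, p (sgl ρ k n)) : p x :=
  PolynomialModule.induction_linear (p := p) x h0 ha hs

lemma smul_sgl_of_hom {r : T} {w : ℕ} (hr : ρ r = Polynomial.C r * Polynomial.X ^ w) (k : ℕ)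
    (n : N) : r • sgl ρ k n = sgl ρ (w + k) (r • n) := by
  rw [tw_smul, hr, mon_smul_sgl]

lemma tw_killed {r : T} (hr : IsHom ρ r) (hN : ∀ n : N, r • n = 0) (x : Tw ρ N) :
    r • x = 0 := by
  obtain ⟨w, hw⟩ := hr
  rw [tw_smul, hw]
  exact C_smul_eq_zero ρ hN x w

lemma tw_killed_span {F : T} (hF : IsHom ρ F)
    (hN : ∀ t ∈ Ideal.span {F}, ∀ n : N, t • n = 0) :
    ∀ t ∈ Ideal.span {F}, ∀ x : Tw ρ N, t • x = 0 := by
  intro t ht x
  obtain ⟨a, rfl⟩ := Ideal.mem_span_singleton'.mp ht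
  rw [mul_smul, tw_killed hF (hN F (Ideal.mem_span_singleton_self F)), smul_zero]

/-- a module on which the element `s` of degree one acts as `1` has a lattice -/
lemma exists_lat {s : T} (hs : ρ s = Polynomial.C s * Polynomial.X ^ 1)
    (hgen : Subring.closure {r | IsHom ρ r} = ⊤) (N : FGMod T) (hN : ∀ n : N, s • n = n) :
    ∃ P : Submodule T (Tw ρ N), IsLat s P := by
  classical
  obtain ⟨S, hS⟩ := (inferInstance : Module.Finite T N).fg_top
  let gen : Finset (Tw ρ N) := S.image (sgl ρ 0)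
  let P : Submodule T (Tw ρ N) := Submodule.span T (gen : Set (Tw ρ N))
  have hshift : ∀ (d k : ℕ) (n : N), s ^ d • sgl ρ k n = sgl ρ (k + d) n := by
    intro d
    induction d with
    | zero => intro k n; rw [pow_zero, one_smul, add_zero]
    | succ d ih =>
        intro k n
        rw [pow_succ, mul_smul, smul_sgl_of_hom hs, hN, ih]
        congr 1
        omega
  -- the elements all whose high shifts are in `P`
  let Q : N → Prop := fun n => ∃ d₀ : ℕ, ∀ d, d₀ ≤ d → sgl ρ d n ∈ P
  have hQ0 : Q 0 := ⟨0, fun d _ => by rw [sgl_zero]; exact P.zero_mem⟩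
  have hQadd : ∀ a b, Q a → Q b → Q (a + b) := by
    rintro a b ⟨d₁, h₁⟩ ⟨d₂, h₂⟩
    refine ⟨max d₁ d₂, fun d hd => ?_⟩
    rw [sgl_add]
    exact P.add_mem (h₁ d (le_trans (le_max_left _ _) hd))
      (h₂ d (le_trans (le_max_right _ _) hd))
  have hQneg : ∀ a, Q a → Q (-a) := by
    rintro a ⟨d₁, h₁⟩
    refine ⟨d₁, fun d hd => ?_⟩
    rw [sgl_neg]
    exact P.neg_mem (h₁ d hd)
  have hQsmul : ∀ (r : T) (n : N), Q n → Q (r • n) := by
    intro r
    have hr : r ∈ Subring.closure {r | IsHom ρ r} := by rw [hgen]; trivial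
    induction hr using Subring.closure_induction with
    | mem r hr =>
        rintro n ⟨d₀, h⟩
        obtain ⟨w, hw⟩ := hr
        refine ⟨w + d₀, fun d hd => ?_⟩
        obtain ⟨i, rfl⟩ := Nat.exists_eq_add_of_le hd
        have := P.smul_mem r (h (d₀ + i) (Nat.le_add_right _ _))
        rwa [smul_sgl_of_hom hw, ← add_assoc] at this
    | zero => intro n _; rw [zero_smul]; exact hQ0
    | one => intro n hn; rwa [one_smul]
    | add a b _ _ ha hb => intro n hn; rw [add_smul]; exact hQadd _ _ (ha n hn) (hb n hn)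
    | neg a _ ha => intro n hn; rw [neg_smul]; exact hQneg _ (ha n hn)
    | mul a b _ _ ha hb => intro n hn; rw [mul_smul]; exact ha _ (hb n hn)
  have hQ : ∀ n : N, Q n := by
    intro n
    have hn : n ∈ Submodule.span T (S : Set N) := by rw [hS]; trivial
    induction hn using Submodule.span_induction with
    | mem x h =>
        refine ⟨0, fun d _ => ?_⟩
        have : s ^ d • sgl ρ 0 x ∈ P := by
          refine P.smul_mem _ (Submodule.subset_span ?_)
          exact Finset.mem_coe.mpr (Finset.mem_image_of_mem _ h)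
        rwa [hshift, zero_add] at this
    | zero => exact hQ0
    | add x y _ _ hx hy => exact hQadd _ _ hx hy
    | smul r x _ hx => exact hQsmul r x hx
  refine ⟨P, ⟨⟨gen, rfl⟩, fun x => ?_⟩⟩
  refine tw_induction (p := fun x => ∃ d : ℕ, s ^ d • x ∈ P) x
    ⟨0, by rw [smul_zero]; exact P.zero_mem⟩ ?_ ?_
  · rintro x y ⟨d₁, h₁⟩ ⟨d₂, h₂⟩
    refine ⟨d₁ + d₂, ?_⟩
    rw [smul_add]
    refine P.add_mem ?_ ?_
    · rw [add_comm, pow_add, mul_smul]
      exact P.smul_mem _ h₁
    · rw [pow_add, mul_smul]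
      exact P.smul_mem _ h₂
  · intro k n
    obtain ⟨d₀, h⟩ := hQ n
    exact ⟨d₀, by rw [hshift]; exact h _ (Nat.le_add_left _ _)⟩

end tw

variable {ρ} [IsNoetherianRing T] {Γ : Type*} [AddCommGroup Γ] {χ : FGMod T → Γ} {s F : T}

/-- the functional on modules on which `s` acts as `1` -/
noncomputable def homχ (ρ : T →+* Polynomial T) (s : T) (χ : FGMod T → Γ) (N : FGMod T) : Γ :=
  latχ χ s (Tw ρ N)

lemma subQuot_homog (F s : T) : SubQuot (fun N : FGMod T => KilledBy (Ideal.span {F}) N ∧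
    ∀ n : N, s • n = n) where
  sub M N f hf h := ⟨(subQuot_killedBy _).sub M N f hf h.1, fun n => hf (by
    rw [map_smul, h.2])⟩
  quot M N f hf h := ⟨(subQuot_killedBy _).quot M N f hf h.1, fun n => by
    obtain ⟨n, rfl⟩ := hf n
    rw [← map_smul, h.2]⟩

theorem isAdd_homχ (hF : IsHom ρ F) (hs : ρ s = Polynomial.C s * Polynomial.X ^ 1)
    (hgen : Subring.closure {r | IsHom ρ r} = ⊤)
    (hχ : IsAdd (KilledBy (Ideal.span {F})) χ) (h0 : Vanish (Ideal.span {F}) s χ) :
    IsAdd (fun N : FGMod T => KilledBy (Ideal.span {F}) N ∧ ∀ n : N, s • n = n)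
      (homχ ρ s χ) where
  sq := subQuot_homog F s
  add M' M M'' f g hf hg hfg hM :=
    latχ_add hχ h0 (twMap ρ f) (twMap ρ g) (twMap_injective hf) (twMap_surjective hg)
      (twMap_exact hf hfg) (tw_killed_span hF hM.1) (exists_lat hs hgen M hM.2)

end Pool.Agent.Helper83.Bass
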