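import Pool.Agent.Helper83.Bass.Gen
import Pool.Agent.Helper83.Bass.Free

/-!
# The two sheets of the hypersurface over the closed subscheme
-/

namespace Pool.Agent.Helper83.Bass

open Pool.Agent.Helper11 Function MvPolynomial TensorProduct

universe u

section general

variable {S R R' : Type u} [CommRing S] [CommRing R] [CommRing R']

/-- polynomial modules and restriction of scalars -/
theorem poly_restr {σ : Type} [Fintype σ] (π : R →+* R') (hπ : Surjective π) (N : FGMod R') :
    Nonempty (polyMod σ (restr π hπ N) ≃ₗ[MvPolynomial σ R]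
      restr (MvPolynomial.map π) (MvPolynomial.map_surjective π hπ) (polyMod σ N)) := by
  let E : polyMod σ (restr π hπ N) ≃+ polyMod σ N :=
    ((cfEquiv R σ (restr π hπ N)).toAddEquiv.trans
      (Finsupp.mapRange.addEquiv (restrEquiv π hπ N))).trans (cfEquiv R' σ N).symm.toAddEquiv
  have hE : ∀ (p : MvPolynomial σ R) (n : restr π hπ N),
      E (p ⊗ₜ[R] n) = MvPolynomial.map π p ⊗ₜ[R'] (restrEquiv π hπ N n) := by
    intro p n
    apply (cfEquiv R' σ N).injective
    change (cfEquiv R' σ N) ((cfEquiv R' σ N).symm (Finsupp.mapRange.addEquiv (restrEquiv π hπ N)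
      (cfEquiv R σ (restr π hπ N) (p ⊗ₜ[R] n)))) = _
    rw [LinearEquiv.apply_symm_apply]
    ext α
    rw [Finsupp.mapRange.addEquiv_apply, Finsupp.mapRange_apply, cfEquiv_tmul, cfEquiv_tmul,
      coeff_map]
    rfl
  have hsm : ∀ (q : MvPolynomial σ R) (z : polyMod σ (restr π hπ N)),
      E (q • z) = MvPolynomial.map π q • E z := by
    intro q z
    induction z using TensorProduct.induction_on with
    | zero =>
        have h1 : q • (0 : polyMod σ (restr π hπ N)) = 0 := smul_zero q
        have h2 : MvPolynomial.map π q • (0 : polyMod σ N) = 0 := smul_zero _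
        have h0 : E 0 = 0 := map_zero E
        exact (congrArg E h1).trans (h0.trans (h2.symm.trans (congrArg _ h0.symm)))
    | tmul p n =>
        have h1 : E (q • (p ⊗ₜ[R] n : polyMod σ (restr π hπ N))) = E ((q * p) ⊗ₜ[R] n) := rfl
        have h2 : MvPolynomial.map π q • E (p ⊗ₜ[R] n : polyMod σ (restr π hπ N)) =
            MvPolynomial.map π q • ((MvPolynomial.map π p ⊗ₜ[R'] (restrEquiv π hπ N n) :
              polyMod σ N)) := congrArg _ (hE p n)
        rw [h1, h2, hE, map_mul]
        rfl
    | add x y hx hy =>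
        have h1 : E (q • (x + y)) = E (q • x) + E (q • y) :=
          (congrArg E (smul_add q x y)).trans (map_add E _ _)
        have h2 : MvPolynomial.map π q • E (x + y) = MvPolynomial.map π q • E x +
            MvPolynomial.map π q • E y := (congrArg _ (map_add E x y)).trans (smul_add _ _ _)
        rw [h1, h2, hx, hy]
  exact ⟨{ E.trans (restrEquiv (MvPolynomial.map π) (MvPolynomial.map_surjective π hπ)
      (polyMod σ N)).symm with
    map_smul' := fun q z => hsm q z }⟩

lemma restr_comp (π₁ : S →+* R) (h₁ : Surjective π₁) (π₂ : R →+* R') (h₂ : Surjective π₂)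
    (N : FGMod R') : Nonempty (restr π₁ h₁ (restr π₂ h₂ N) ≃ₗ[S]
      restr (π₂.comp π₁) (h₂.comp h₁) N) :=
  ⟨{ ((restrEquiv π₁ h₁ (restr π₂ h₂ N)).trans (restrEquiv π₂ h₂ N)).trans
      (restrEquiv (π₂.comp π₁) (h₂.comp h₁) N).symm with
    map_smul' := fun _ _ => rfl }⟩

lemma restr_congr {π π' : S →+* R} (h : π = π') (hπ : Surjective π) (hπ' : Surjective π')
    (N : FGMod R) : Nonempty (restr π hπ N ≃ₗ[S] restr π' hπ' N) := by
  subst h
  exact ⟨LinearEquiv.refl _ _⟩

lemma mk_desc (π : S →+* R) (hπ : Surjective π) (M : FGMod S) (N : FGMod R)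
    (e : M ≃ₗ[S] restr π hπ N) : G0.mk (desc π hπ M) = G0.mk N := by
  have h := isAdd_desc π hπ (G0.isAdd_mk (R := R))
  have hk : KilledBy ((⊥ : Ideal R).comap π) (restr π hπ N) :=
    killedBy_restr π hπ (G0.killedBy_bot N)
  have hM : KilledBy ((⊥ : Ideal R).comap π) M := (subQuot_killedBy _).sub M _ e.toLinearMap
    e.injective hk
  rw [h.iso e hM]
  exact desc_restr π hπ G0.isAdd_mk N (G0.killedBy_bot N)

lemma mk_iso {M N : FGMod R} (e : M ≃ₗ[R] N) : G0.mk M = G0.mk N :=
  G0.isAdd_mk.iso e (G0.killedBy_bot M)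

end general

section sheets

variable {k : Type u} [CommRing k] {τ σ : Type} [Fintype σ] (g : σ → MvPolynomial τ k)
  {B : Type u} [CommRing B] (π : MvPolynomial τ k →+* B)

/-- the ring homomorphism `W → B[y]`, `t ↦ c` -/
structure IsEps (F : WR g →+* MvPolynomial σ B) (c : ℕ) : Prop where
  a : ∀ a, F (algebraMap _ _ a) = C (π a)
  y : ∀ j, F (yW g j) = X j
  t : F (tW g) = c

lemma exists_eps (hg : ∀ j, π (g j) = 0) (c : ℕ) (hc : c = 0 ∨ c = 1) :
    ∃ F : WR g →+* MvPolynomial σ B, IsEps g π F c := by
  obtain ⟨F, h1, h2, h3⟩ := exists_lift g ((C : B →+* MvPolynomial σ B).comp π) X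
    (c : MvPolynomial σ B) (by
      have : ∑ j, (X j : MvPolynomial σ B) * ((C : B →+* MvPolynomial σ B).comp π) (g j) = 0 :=
        Finset.sum_eq_zero (fun j _ => by
          rw [RingHom.comp_apply, hg, map_zero, mul_zero])
      rw [this]
      rcases hc with rfl | rfl <;> simp)
  exact ⟨F, h1, h2, h3⟩

variable {g π} {F : WR g →+* MvPolynomial σ B} {c : ℕ}

lemma IsEps.surj (h : IsEps g π F c) (hπ : Surjective π) : Surjective F := by
  intro p
  induction p using MvPolynomial.induction_on with
  | C b =>
      obtain ⟨a, rfl⟩ := hπ b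
      exact ⟨_, h.a a⟩
  | add p q hp hq =>
      obtain ⟨x, rfl⟩ := hp
      obtain ⟨y, rfl⟩ := hq
      exact ⟨x + y, map_add _ _ _⟩
  | mul_X p j hp =>
      obtain ⟨x, rfl⟩ := hp
      exact ⟨x * yW g j, by rw [map_mul, h.y]⟩

variable (g) in
/-- the ideal of a sheet -/
noncomputable def sheet (c : ℕ) : Ideal (WR g) :=
  Ideal.span (Set.range (fun j => algebraMap (MvPolynomial τ k) (WR g) (g j))) ⊔
    Ideal.span {tW g - c}

lemma IsEps.ker_le (h : IsEps g π F c) (hker : RingHom.ker π = Ideal.span (Set.range g)) :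
    RingHom.ker F ≤ sheet g c := by
  let J := sheet g c
  let θ : MvPolynomial σ (MvPolynomial τ k) →+* WR g :=
    eval₂Hom (algebraMap _ _) (yW g)
  have hθC : ∀ a, θ (C a) = algebraMap _ _ a := fun a => by simp [θ]
  have hθX : ∀ j, θ (X j) = yW g j := fun j => by simp [θ]
  have hFθ : ∀ p, F (θ p) = MvPolynomial.map π p := by
    intro p
    have : F.comp θ = MvPolynomial.map π := by
      apply MvPolynomial.ringHom_ext
      · intro a
        rw [RingHom.comp_apply, hθC, h.a, map_C]
      · intro j
        rw [RingHom.comp_apply, hθX, h.y, map_X]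
    exact RingHom.congr_fun this p
  have key : ∀ w : WR g, ∃ p, w - θ p ∈ J := by
    intro w
    induction w using W_induction g with
    | h1 a => exact ⟨C a, by rw [hθC, sub_self]; exact J.zero_mem⟩
    | h2 w w' hw hw' =>
        obtain ⟨p, hp⟩ := hw
        obtain ⟨q, hq⟩ := hw'
        refine ⟨p + q, ?_⟩
        have : w + w' - θ (p + q) = (w - θ p) + (w' - θ q) := by rw [map_add]; ring
        rw [this]
        exact J.add_mem hp hq
    | h3 j w hw =>
        obtain ⟨p, hp⟩ := hw
        refine ⟨p * X j, ?_⟩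
        rw [map_mul, hθX, ← sub_mul]
        exact J.mul_mem_right _ hp
    | h4 w hw =>
        obtain ⟨p, hp⟩ := hw
        refine ⟨p * (c : MvPolynomial σ (MvPolynomial τ k)), ?_⟩
        have : w * tW g - θ (p * (c : MvPolynomial σ (MvPolynomial τ k))) =
            (w - θ p) * c + w * (tW g - c) := by rw [map_mul, map_natCast]; ring
        rw [this]
        refine J.add_mem (J.mul_mem_right _ hp) (J.mul_mem_left _ ?_)
        exact Ideal.mem_sup_right (Ideal.mem_span_singleton_self _)
    | h5 i w hw =>
        obtain ⟨p, hp⟩ := hw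
        refine ⟨p * C (X i), ?_⟩
        rw [map_mul, hθC, ← sub_mul]
        exact J.mul_mem_right _ hp
  intro w hw
  obtain ⟨p, hp⟩ := key w
  have hJF : J ≤ RingHom.ker F := by
    refine sup_le ?_ ?_
    · rw [Ideal.span_le]
      rintro _ ⟨j, rfl⟩
      change F _ = 0
      rw [h.a]
      have : g j ∈ RingHom.ker π := by rw [hker]; exact Ideal.subset_span ⟨j, rfl⟩
      rw [RingHom.mem_ker.mp this, map_zero]
    · rw [Ideal.span_le, Set.singleton_subset_iff]
      change F _ = 0
      rw [map_sub, h.t, map_natCast, sub_self]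
  have h1 : MvPolynomial.map π p = 0 := by
    have h2 := hJF hp
    rw [RingHom.mem_ker, map_sub, RingHom.mem_ker.mp hw, zero_sub, neg_eq_zero, hFθ] at h2
    exact h2
  have h3 : p ∈ Ideal.map (C : MvPolynomial τ k →+* MvPolynomial σ (MvPolynomial τ k))
      (RingHom.ker π) := by
    rw [← MvPolynomial.ker_map]
    exact h1
  have h4 : θ p ∈ J := by
    have hle : Ideal.map (C : MvPolynomial τ k →+* MvPolynomial σ (MvPolynomial τ k))
        (RingHom.ker π) ≤ J.comap θ := by
      rw [hker, Ideal.map_span, Ideal.span_le]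
      rintro _ ⟨_, ⟨j, rfl⟩, rfl⟩
      change θ (C (g j)) ∈ J
      rw [hθC]
      exact Ideal.mem_sup_left (Ideal.subset_span ⟨j, rfl⟩)
    exact hle h3
  have := J.add_mem hp h4
  rwa [sub_add_cancel] at this

/-- the module `N[y]` on the sheet `t = 0` is the module in the definition of the section -/
theorem mk_eps (h : IsEps g π F 0) (hπ : Surjective π) (N : FGMod B) :
    (G0.mk (desc (toW g) (toW_surj g) (modB π hπ σ N)) : G0 (WW g)) =
      (G0.mk (restr F (h.surj hπ) (polyMod σ N)) : G0 (WR g)) := by
  let F' : WW g →+* MvPolynomial σ B := F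
  have hF' : Surjective F' := h.surj hπ
  have hcomp : (MvPolynomial.map (piT π)).comp (evx (MvPolynomial τ k) σ) =
      F'.comp (toW g) := by
    apply MvPolynomial.ringHom_ext
    · intro a
      have : ((MvPolynomial.map (σ := σ) (piT π)).comp (evx (MvPolynomial τ k) σ)).comp C =
          (F'.comp (toW g)).comp C := by
        apply Polynomial.ringHom_ext
        · intro a
          have h1 : F' (toW g (C (Polynomial.C a))) = C (π a) := by
            rw [toW_A]; exact h.a a
          rw [RingHom.comp_apply, RingHom.comp_apply, RingHom.comp_apply, RingHom.comp_apply,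
            h1, evx_C, map_C]
          simp [piT]
        · have h1 : F' (toW g (C Polynomial.X)) = 0 := by
            rw [toW_t]
            exact h.t.trans Nat.cast_zero
          rw [RingHom.comp_apply, RingHom.comp_apply, RingHom.comp_apply, RingHom.comp_apply,
            h1, evx_C, map_C]
          simp [piT]
      exact RingHom.congr_fun this a
    · rintro (_ | j)
      · have h1 : F' (toW g (X none)) = 1 := by
          rw [toW_none, map_sub, map_one]
          have : F' (Ideal.Quotient.mk (Ideal.span {cub g}) (X (Sum.inr (Sum.inr ())))) = 0 :=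
            h.t.trans Nat.cast_zero
          rw [this, sub_zero]
        rw [RingHom.comp_apply, RingHom.comp_apply, h1, evx_none, map_one]
      · have h1 : F' (toW g (X (some j))) = X j := by
          rw [toW_some]; exact h.y j
        rw [RingHom.comp_apply, RingHom.comp_apply, h1, evx_some, map_X]
  have hp := MvPolynomial.map_surjective (σ := σ) (piT π) (piT_surj π hπ)
  obtain ⟨e1⟩ := poly_restr (σ := σ) (piT π) (piT_surj π hπ) N
  obtain ⟨e2⟩ := restr_iso (evx (MvPolynomial τ k) σ) evx_surj e1
  obtain ⟨e3⟩ := restr_comp (evx (MvPolynomial τ k) σ) evx_surj (MvPolynomial.map (piT π)) hp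
    (polyMod σ N)
  obtain ⟨e4⟩ := restr_congr hcomp (hp.comp evx_surj) (hF'.comp (toW_surj g)) (polyMod σ N)
  obtain ⟨e5⟩ := restr_comp (toW g) (toW_surj g) F' hF' (polyMod σ N)
  exact mk_desc (toW g) (toW_surj g) (modB π hπ σ N) (restr F' hF' (polyMod σ N))
    ((e2.trans (e3.trans e4)).trans e5.symm)

end sheets

end Pool.Agent.Helper83.Bass
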