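import Pool.Agent.Helper83.Bass.Main

/-!
# `G₀` of finitely generated algebras is `K₀` of smooth affine cubic hypersurfaces
-/

namespace Pool.Agent.Helper83.Bass.OldCubicUniversality

open Pool.Agent.Helper11 MvPolynomial TensorProduct

/-- Let `k` be a noetherian commutative ring. For every finitely generated commutative `k`-algebra
`B` there is a polynomial `f` over `k`, of degree at most three in finitely many variables, such
that the hypersurface ring `W = k[X]/(f)` is smooth over `k` and `G₀(W) ≅ G₀(k) ⊕ G₀(B)`; on the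
classes `[W ⊗ N]`, `N` a finitely generated `k`-module, the isomorphism is `[W ⊗ N] ↦ ([N], 0)`. -/
theorem result (k : Type) [CommRing k] [IsNoetherianRing k] (B : Type) [CommRing B]
    [Algebra k B] [Algebra.FiniteType k B] :
    ∃ (ι : Type) (_ : Fintype ι) (f : MvPolynomial ι k), f.totalDegree ≤ 3 ∧
      Algebra.Smooth k (MvPolynomial ι k ⧸ Ideal.span {f}) ∧
      ∃ e : G0 (MvPolynomial ι k ⧸ Ideal.span {f}) ≃+ G0 k × G0 B,
        ∀ N : FGMod k, e (G0.mk (FGMod.of (MvPolynomial ι k ⧸ Ideal.span {f})
          ((MvPolynomial ι k ⧸ Ideal.span {f}) ⊗[k] N))) = (G0.mk N, 0) :=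
  Pool.Agent.Helper83.Bass.cubic_iso k B

end Pool.Agent.Helper83.Bass.OldCubicUniversality
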