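import Pool.Agent.Helper83.Bass.Embed
import Pool.Agent.Helper83.Bass.Functors

/-!
# The hypersurface `t² - t = ∑ yⱼ gⱼ(z)`
-/

namespace Pool.Agent.Helper83.Bass

open Pool.Agent.Helper11 Function MvPolynomial

universe u

section

variable {k : Type u} [CommRing k] {τ σ : Type} [Fintype σ]

/-- the polynomial `t² - t - ∑ yⱼ gⱼ(z)` -/
noncomputable def cub (g : σ → MvPolynomial τ k) : MvPolynomial (τ ⊕ σ ⊕ Unit) k :=
  X (Sum.inr (Sum.inr ())) ^ 2 - X (Sum.inr (Sum.inr ())) -
    ∑ j, X (Sum.inr (Sum.inl j)) * rename Sum.inl (g j)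

/-- the coordinate ring of the hypersurface -/
abbrev WW (g : σ → MvPolynomial τ k) : Type u :=
  MvPolynomial (τ ⊕ σ ⊕ Unit) k ⧸ Ideal.span {cub g}

/-- the lift of the polynomial ring to `A[t][x, y]` -/
noncomputable def lft (k : Type u) [CommRing k] (τ σ : Type) :
    MvPolynomial (τ ⊕ σ ⊕ Unit) k →+* TT (MvPolynomial τ k) σ :=
  eval₂Hom (C.comp (Polynomial.C.comp C)) (Sum.elim (fun i => C (Polynomial.C (X i)))
    (Sum.elim (fun j => X (some j)) (fun _ => C Polynomial.X)))

/-- the projection `A[t][x, y] → W`, `x ↦ 1 - t` -/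
noncomputable def toW (g : σ → MvPolynomial τ k) : TT (MvPolynomial τ k) σ →+* WW g :=
  eval₂Hom (Polynomial.eval₂RingHom ((Ideal.Quotient.mk (Ideal.span {cub g})).comp
      (rename Sum.inl : MvPolynomial τ k →ₐ[k] MvPolynomial (τ ⊕ σ ⊕ Unit) k).toRingHom)
      (Ideal.Quotient.mk _ (X (Sum.inr (Sum.inr ())))))
    (fun i => i.elim (1 - Ideal.Quotient.mk _ (X (Sum.inr (Sum.inr ()))))
      (fun j => Ideal.Quotient.mk _ (X (Sum.inr (Sum.inl j)))))

variable (g : σ → MvPolynomial τ k)

lemma toW_A (a : MvPolynomial τ k) : toW g (C (Polynomial.C a)) =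
    Ideal.Quotient.mk _ (rename Sum.inl a) := by
  simp [toW]

lemma toW_t : toW g (C Polynomial.X) = Ideal.Quotient.mk _ (X (Sum.inr (Sum.inr ()))) := by
  simp [toW]

lemma toW_none : toW g (X none) = 1 - Ideal.Quotient.mk _ (X (Sum.inr (Sum.inr ()))) := by
  simp [toW]

lemma toW_some (j : σ) : toW g (X (some j)) = Ideal.Quotient.mk _ (X (Sum.inr (Sum.inl j))) := by
  simp [toW]

lemma toW_lft (p : MvPolynomial (τ ⊕ σ ⊕ Unit) k) : toW g (lft k τ σ p) =
    Ideal.Quotient.mk _ p := by
  have : (toW g).comp (lft k τ σ) = Ideal.Quotient.mk _ := by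
    apply MvPolynomial.ringHom_ext
    · intro r
      simp only [RingHom.comp_apply, lft, coe_eval₂Hom, eval₂_C, toW_A, rename_C]
    · rintro (i | j | i)
      · simp only [RingHom.comp_apply, lft, coe_eval₂Hom, eval₂_X, Sum.elim_inl, toW_A, rename_X]
      · simp only [RingHom.comp_apply, lft, coe_eval₂Hom, eval₂_X, Sum.elim_inl, Sum.elim_inr,
          toW_some]
      · simp only [RingHom.comp_apply, lft, coe_eval₂Hom, eval₂_X, Sum.elim_inr, toW_t]
  exact RingHom.congr_fun this p

lemma toW_surj : Surjective (toW g) := by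
  intro p
  obtain ⟨p, rfl⟩ := Ideal.Quotient.mk_surjective p
  exact ⟨_, toW_lft g p⟩

omit [Fintype σ] in
lemma lft_rename (a : MvPolynomial τ k) : lft k τ σ (rename Sum.inl a) = C (Polynomial.C a) := by
  have : (lft k τ σ).comp
      (rename Sum.inl : MvPolynomial τ k →ₐ[k] MvPolynomial (τ ⊕ σ ⊕ Unit) k).toRingHom =
      (C : Polynomial (MvPolynomial τ k) →+* TT (MvPolynomial τ k) σ).comp Polynomial.C := by
    apply MvPolynomial.ringHom_ext
    · intro r
      simp [lft]
    · intro i
      simp [lft]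
  exact RingHom.congr_fun this a

/-- the ideal of the dehomogenised hypersurface -/
noncomputable def ideW : Ideal (TT (MvPolynomial τ k) σ) :=
  Ideal.span {bigF (gg g)} ⊔ Ideal.span {ss (MvPolynomial τ k) σ - 1}

lemma bigF_gg : bigF (gg g) = X none * C Polynomial.X +
    ∑ j, X (some j) * C (Polynomial.C (g j)) := by
  rw [bigF, Fintype.sum_option]
  rfl

omit [Fintype σ] in
lemma lft_t : lft k τ σ (X (Sum.inr (Sum.inr ()))) = C Polynomial.X := by
  rw [lft, coe_eval₂Hom, eval₂_X]
  rfl

omit [Fintype σ] in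
lemma lft_y (j : σ) : lft k τ σ (X (Sum.inr (Sum.inl j))) = X (some j) := by
  rw [lft, coe_eval₂Hom, eval₂_X]
  rfl

lemma lft_cub : lft k τ σ (cub g) = C Polynomial.X * (ss (MvPolynomial τ k) σ - 1) -
    bigF (gg g) := by
  have h2 : ∀ j, lft k τ σ (X (Sum.inr (Sum.inl j)) * rename Sum.inl (g j)) =
      X (some j) * C (Polynomial.C (g j)) := fun j => by
    rw [map_mul, lft_rename, lft_y]
  rw [bigF_gg, cub, map_sub, map_sub, map_pow, map_sum, lft_t,
    Finset.sum_congr rfl (fun j _ => h2 j), ss]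
  generalize (∑ j, X (some j) * C (Polynomial.C (g j)) : TT (MvPolynomial τ k) σ) = S
  generalize (C Polynomial.X : TT (MvPolynomial τ k) σ) = t
  generalize (X none : TT (MvPolynomial τ k) σ) = x
  ring

lemma toW_bigF : toW g (bigF (gg g)) = 0 := by
  rw [bigF_gg, map_add, map_sum, map_mul, toW_none, toW_t]
  have h2 : ∀ j, toW g (X (some j) * C (Polynomial.C (g j))) =
      Ideal.Quotient.mk _ (X (Sum.inr (Sum.inl j)) * rename Sum.inl (g j)) := fun j => by
    rw [map_mul, toW_some, toW_A, map_mul]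
  rw [Finset.sum_congr rfl (fun j _ => h2 j), ← map_sum, ← map_one (Ideal.Quotient.mk _),
    ← map_sub, ← map_mul, ← map_add, Ideal.Quotient.eq_zero_iff_mem]
  have : (1 - X (Sum.inr (Sum.inr ()))) * X (Sum.inr (Sum.inr ())) +
      ∑ j, X (Sum.inr (Sum.inl j)) * rename Sum.inl (g j) = -cub g := by
    rw [cub]; ring
  rw [this]
  exact (Ideal.span {cub g}).neg_mem (Ideal.mem_span_singleton_self _)

lemma toW_ss : toW g (ss (MvPolynomial τ k) σ) = 1 := by
  rw [ss, map_add, toW_none, toW_t]
  ring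

lemma ker_toW_le : RingHom.ker (toW g) ≤ ideW g := by
  let I := ideW g
  have hF : bigF (gg g) ∈ I := Ideal.mem_sup_left (Ideal.mem_span_singleton_self _)
  have hs : ss (MvPolynomial τ k) σ - 1 ∈ I := Ideal.mem_sup_right (Ideal.mem_span_singleton_self _)
  let ν : WW g →+* (TT (MvPolynomial τ k) σ ⧸ I) :=
    Ideal.Quotient.lift (Ideal.span {cub g}) ((Ideal.Quotient.mk I).comp (lft k τ σ)) (by
      intro a ha
      obtain ⟨b, rfl⟩ := Ideal.mem_span_singleton'.mp ha
      rw [map_mul, RingHom.comp_apply _ _ (cub g), lft_cub, map_sub, map_mul,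
        Ideal.Quotient.eq_zero_iff_mem.mpr hF, Ideal.Quotient.eq_zero_iff_mem.mpr hs]
      ring)
  have hν : ∀ p, ν (Ideal.Quotient.mk _ p) = Ideal.Quotient.mk I (lft k τ σ p) := fun p => rfl
  have key : ν.comp (toW g) = Ideal.Quotient.mk I := by
    apply MvPolynomial.ringHom_ext
    · intro a
      have h2 : (ν.comp (toW g)).comp C = (Ideal.Quotient.mk I).comp C := by
        apply Polynomial.ringHom_ext
        · intro a
          simp only [RingHom.comp_apply]
          rw [toW_A, hν, lft_rename]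
        · simp only [RingHom.comp_apply]
          rw [toW_t, hν]
          congr 1
          simp [lft]
      exact RingHom.congr_fun h2 a
    · rintro (_ | j)
      · simp only [RingHom.comp_apply]
        rw [toW_none, map_sub, map_one, hν]
        have h1 : lft k τ σ (X (Sum.inr (Sum.inr ()))) = C Polynomial.X := by simp [lft]
        rw [h1, ← map_one (Ideal.Quotient.mk I), ← map_sub, Ideal.Quotient.eq]
        have : (1 - C Polynomial.X : TT (MvPolynomial τ k) σ) - X none =
            -(ss (MvPolynomial τ k) σ - 1) := by rw [ss]; ring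
        rw [this]
        exact I.neg_mem hs
      · simp only [RingHom.comp_apply]
        rw [toW_some, hν]
        congr 1
        simp [lft]
  intro p hp
  rw [RingHom.mem_ker] at hp
  have := RingHom.congr_fun key p
  rw [RingHom.comp_apply, hp, map_zero] at this
  exact Ideal.Quotient.eq_zero_iff_mem.mp this.symm

lemma ideW_le : ideW g ≤ RingHom.ker (toW g) := by
  refine sup_le ?_ ?_
  · rw [Ideal.span_le, Set.singleton_subset_iff]
    exact toW_bigF g
  · rw [Ideal.span_le, Set.singleton_subset_iff, SetLike.mem_coe, RingHom.mem_ker, map_sub,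
      toW_ss, map_one, sub_self]

end

section functional

variable {k : Type u} [CommRing k] {τ σ : Type} [Fintype σ]
  (g : σ → MvPolynomial τ k)

lemma killed_restr_toW (N : FGMod (WW g)) :
    KilledBy (Ideal.span {bigF (gg g)}) (restr (toW g) (toW_surj g) N) := by
  intro s hs x
  apply (restrEquiv (toW g) (toW_surj g) N).injective
  have : s ∈ RingHom.ker (toW g) := ideW_le g (Ideal.mem_sup_left hs)
  rw [restrEquiv_smul, RingHom.mem_ker.mp this]
  exact (zero_smul (WW g) (restrEquiv (toW g) (toW_surj g) N x)).trans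
    (map_zero (restrEquiv (toW g) (toW_surj g) N)).symm

lemma ss_restr_toW (N : FGMod (WW g)) (x : restr (toW g) (toW_surj g) N) :
    ss (MvPolynomial τ k) σ • x = x := by
  apply (restrEquiv (toW g) (toW_surj g) N).injective
  rw [restrEquiv_smul, toW_ss, one_smul]

lemma killed_of_ideW {N : FGMod (TT (MvPolynomial τ k) σ)}
    (h1 : KilledBy (Ideal.span {bigF (gg g)}) N)
    (h2 : ∀ n : N, ss (MvPolynomial τ k) σ • n = n) : KilledBy (RingHom.ker (toW g)) N := by
  intro s hs x
  obtain ⟨a, ha, b, hb, rfl⟩ := Submodule.mem_sup.mp (ker_toW_le g hs)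
  rw [add_smul, h1 a ha, zero_add]
  obtain ⟨c, rfl⟩ := Ideal.mem_span_singleton'.mp hb
  rw [mul_smul, sub_smul, h2, one_smul, sub_self, smul_zero]

variable [IsNoetherianRing k] [Finite τ] {Γ : Type*} [AddCommGroup Γ]
  {χ : FGMod (TT (MvPolynomial τ k) σ) → Γ}

/-- the functional on the hypersurface -/
theorem exists_homW (hχ : IsAdd (KilledBy (Ideal.span {bigF (gg g)})) χ)
    (h0 : Vanish (Ideal.span {bigF (gg g)}) (ss (MvPolynomial τ k) σ) χ) :
    ∃ p : G0 (WW g) →+ Γ, ∀ N : FGMod (TT (MvPolynomial τ k) σ),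
      KilledBy (Ideal.span {bigF (gg g)}) N → (∀ n : N, ss (MvPolynomial τ k) σ • n = n) →
      p (G0.mk (desc (toW g) (toW_surj g) N)) =
        homχ (rho (MvPolynomial τ k) σ) (ss (MvPolynomial τ k) σ) χ N := by
  have hadd := isAdd_homχ (ρ := rho (MvPolynomial τ k) σ) ⟨2, rho_bigF g⟩ rho_ss closure_isHom
    hχ h0
  refine ⟨G0h.hom (fun N => homχ (rho (MvPolynomial τ k) σ) (ss (MvPolynomial τ k) σ) χ
    (restr (toW g) (toW_surj g) N)) ?_, ?_⟩
  · intro M' M M'' e
    obtain ⟨e'⟩ := exactF_restr (toW g) (toW_surj g) M' M M'' e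
    exact hadd.add _ _ _ e'.f e'.g e'.inj e'.surj e'.exact
      ⟨killed_restr_toW g M, ss_restr_toW g M⟩
  · intro N h1 h2
    rw [G0h.hom_mk]
    obtain ⟨i⟩ := restr_desc_iso (toW g) (toW_surj g) N (killed_of_ideW g h1 h2)
    exact (hadd.iso i ⟨h1, h2⟩).symm

end functional

section section_

variable {k : Type u} [CommRing k] {τ σ : Type} [Fintype σ]
  {B : Type u} [CommRing B] (π : MvPolynomial τ k →+* B) (hπ : Surjective π)
  (g : σ → MvPolynomial τ k) (hker : RingHom.ker π = Ideal.span (Set.range g))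

/-- `A[t] → B`, `t ↦ 0` -/
noncomputable def piT : Polynomial (MvPolynomial τ k) →+* B := Polynomial.eval₂RingHom π 0

include hπ in
lemma piT_surj : Surjective (piT π) := by
  intro b
  obtain ⟨a, rfl⟩ := hπ b
  exact ⟨Polynomial.C a, by simp [piT]⟩

omit [Fintype σ] in
include hker in
lemma ker_piT : RingHom.ker (piT π) = Ideal.span (Set.range (gg g)) := by
  apply le_antisymm
  · intro p hp
    have hX : (Polynomial.X : Polynomial (MvPolynomial τ k)) ∈ Ideal.span (Set.range (gg g)) :=
      Ideal.subset_span ⟨none, rfl⟩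
    have h1 : ∀ a ∈ RingHom.ker π, Polynomial.C a ∈ Ideal.span (Set.range (gg g)) := by
      intro a ha
      rw [hker] at ha
      have : Ideal.span (Set.range g) ≤ (Ideal.span (Set.range (gg g))).comap Polynomial.C := by
        rw [Ideal.span_le]
        rintro _ ⟨j, rfl⟩
        exact Ideal.subset_span ⟨some j, rfl⟩
      exact this ha
    have h2 : p - Polynomial.C (p.coeff 0) ∈ Ideal.span (Set.range (gg g)) := by
      have : (Polynomial.X : Polynomial (MvPolynomial τ k)) ∣ p - Polynomial.C (p.coeff 0) := by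
        rw [Polynomial.X_dvd_iff]; simp
      exact Ideal.mem_of_dvd _ this hX
    have h3 : p.coeff 0 ∈ RingHom.ker π := by
      have e : piT π p = π (p.coeff 0) := by
        rw [piT, Polynomial.coe_eval₂RingHom, Polynomial.eval₂_at_zero]
      rw [RingHom.mem_ker, ← e]
      exact hp
    have := Ideal.add_mem _ h2 (h1 _ h3)
    simpa using this
  · rw [Ideal.span_le]
    rintro _ ⟨i, rfl⟩
    rcases i with _ | j
    · change piT π Polynomial.X = 0
      simp [piT]
    · change piT π (Polynomial.C (g j)) = 0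
      have : g j ∈ RingHom.ker π := by rw [hker]; exact Ideal.subset_span ⟨j, rfl⟩
      simp only [piT, Polynomial.coe_eval₂RingHom, Polynomial.eval₂_C]
      exact this

omit [Fintype σ] in
include hker in
lemma killed_restr_piT (M : FGMod B) :
    KilledBy (Ideal.span (Set.range (gg g))) (restr (piT π) (piT_surj π hπ) M) := by
  rw [← ker_piT π g hker]
  intro s hs x
  apply (restrEquiv (piT π) (piT_surj π hπ) M).injective
  rw [restrEquiv_smul, RingHom.mem_ker.mp hs, zero_smul, map_zero]

/-- the module `M[y]`, `t = 0`, on the graded level -/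
noncomputable def modB (σ : Type) [Fintype σ] (M : FGMod B) :
    FGMod (TT (MvPolynomial τ k) σ) := modN σ (restr (piT π) (piT_surj π hπ) M)

lemma exactF_modB : ExactF (modB π hπ σ) := by
  intro M' M M'' e
  obtain ⟨e1⟩ := exactF_restr (piT π) (piT_surj π hπ) M' M M'' e
  obtain ⟨e2⟩ := exactF_baseChange (A := MvPolynomial σ (Polynomial (MvPolynomial τ k))) _ _ _ e1
  exact exactF_restr (evx (MvPolynomial τ k) σ) evx_surj _ _ _ e2

include hker in
lemma killed_modB (M : FGMod B) : KilledBy (Ideal.span {bigF (gg g)}) (modB π hπ σ M) :=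
  killed_modN (killed_restr_piT π hπ g hker M)

include hker in
lemma ss_modB (M : FGMod B) (n : modB π hπ σ M) : ss (MvPolynomial τ k) σ • n = n :=
  ss_smul_modN (fun n => killed_restr_piT π hπ g hker M _ (Ideal.subset_span ⟨none, rfl⟩) n) n

include hker in
/-- the homomorphism `G₀(B) → G₀(W)`, `[M] ↦ [M[y]]` -/
theorem exists_sec : ∃ i : G0 B →+ G0 (WW g), ∀ M : FGMod B,
    i (G0.mk M) = G0.mk (desc (toW g) (toW_surj g) (modB π hπ σ M)) := by
  have hd := isAdd_desc (toW g) (toW_surj g) (G0.isAdd_mk (R := WW g))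
  have hle : ∀ M : FGMod B, KilledBy ((⊥ : Ideal (WW g)).comap (toW g)) (modB π hπ σ M) := by
    intro M s hs x
    refine killed_of_ideW g (killed_modB π hπ g hker M) (ss_modB π hπ g hker M) s ?_ x
    exact hs
  refine ⟨G0h.hom (fun M => G0.mk (desc (toW g) (toW_surj g) (modB π hπ σ M))) ?_,
    fun M => G0h.hom_mk _ _ M⟩
  intro M' M M'' e
  obtain ⟨e'⟩ := exactF_modB π hπ (σ := σ) M' M M'' e
  exact hd.add _ _ _ e'.f e'.g e'.inj e'.surj e'.exact (hle M)

variable [IsNoetherianRing k] [Finite τ]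

include hker in
/-- **Retraction**: `G₀(B)` is a direct summand of `G₀(W)` -/
theorem retract : ∃ (i : G0 B →+ G0 (WW g)) (p : G0 (WW g) →+ G0 B),
    (∀ M : FGMod B, i (G0.mk M) = G0.mk (desc (toW g) (toW_surj g) (modB π hπ σ M))) ∧
    ∀ x, p (i x) = x := by
  classical
  obtain ⟨i, hi⟩ := exists_sec π hπ g hker
  -- the functional on `B`, `A[t]`, `A[t][x, y]`
  have h1 := isAdd_desc (piT π) (piT_surj π hπ) (G0.isAdd_mk (R := B))
  have hcomap : (⊥ : Ideal B).comap (piT π) = Ideal.span (Set.range (gg g)) := by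
    rw [← ker_piT π g hker]; rfl
  rw [hcomap] at h1
  obtain ⟨χ, hχ, h0, hval⟩ := kos_step_swap (gg g) none h1
  obtain ⟨p, hp⟩ := exists_homW g hχ h0
  refine ⟨i, p, hi, fun x => ?_⟩
  induction x using G0.induction with
  | hz => rw [map_zero, map_zero]
  | hm M =>
      rw [hi, hp _ (killed_modB π hπ g hker M) (ss_modB π hπ g hker M)]
      have e1 := homχ_modN (A := MvPolynomial τ k) hχ h0 (killed_restr_piT π hπ g hker M)
      refine e1.trans ?_
      rw [hval _ (killed_restr_piT π hπ g hker M)]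
      exact desc_restr (piT π) (piT_surj π hπ) G0.isAdd_mk M (G0.killedBy_bot M)
  | hn x hx => rw [map_neg, map_neg, hx]
  | ha x y hx hy => rw [map_add, map_add, hx, hy]

end section_

end Pool.Agent.Helper83.Bass
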