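import Pool.Agent.Helper83.Bass.Ring

/-!
# Smoothness of the hypersurface
-/

namespace Pool.Agent.Helper83.Bass

open Pool.Agent.Helper11 Function MvPolynomial

universe u

variable {k : Type u} [CommRing k] {τ σ : Type} [Fintype σ] (g : σ → MvPolynomial τ k)

theorem formallySmooth_WW : Algebra.FormallySmooth k (WW g) := by
  let P := MvPolynomial (τ ⊕ σ ⊕ Unit) k
  let f : P →ₐ[k] WW g := Ideal.Quotient.mkₐ k (Ideal.span {cub g})
  have hker : RingHom.ker f.toRingHom = Ideal.span {cub g} :=
    Ideal.mk_ker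
  let J2 : Ideal P := RingHom.ker f.toRingHom ^ 2
  let q : P →ₐ[k] P ⧸ J2 := Ideal.Quotient.mkₐ k J2
  let F : P ⧸ J2 := q (cub g)
  have hF2 : F ^ 2 = 0 := by
    rw [← map_pow]
    refine Ideal.Quotient.eq_zero_iff_mem.mpr ?_
    refine Ideal.pow_mem_pow ?_ 2
    rw [hker]
    exact Ideal.mem_span_singleton_self _
  let T : P ⧸ J2 := q (X (Sum.inr (Sum.inr ())))
  let sub : τ ⊕ σ ⊕ Unit → P ⧸ J2 := Sum.elim (fun i => q (X (Sum.inl i)))
    (Sum.elim (fun j => q (X (Sum.inr (Sum.inl j))) * (1 - 4 * F))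
      (fun _ => T - (2 * T - 1) * F))
  have hren : ∀ a : MvPolynomial τ k, aeval sub (rename Sum.inl a) = q (rename Sum.inl a) := by
    intro a
    have : (aeval sub).comp (rename Sum.inl : MvPolynomial τ k →ₐ[k] P) =
        q.comp (rename Sum.inl) := by
      apply MvPolynomial.algHom_ext
      intro i
      have h1 : (rename Sum.inl : MvPolynomial τ k →ₐ[k] P) (X i) = X (Sum.inl i) := rename_X _ _
      rw [AlgHom.comp_apply, AlgHom.comp_apply, h1, aeval_X]
      rfl
    exact DFunLike.congr_fun this a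
  have hsub : aeval sub (cub g) = 0 := by
    have hS : ∀ j, aeval sub (X (Sum.inr (Sum.inl j)) * rename Sum.inl (g j)) =
        (1 - 4 * F) * q (X (Sum.inr (Sum.inl j)) * rename Sum.inl (g j)) := by
      intro j
      rw [map_mul, hren, map_mul, aeval_X]
      simp only [sub, Sum.elim_inr, Sum.elim_inl]
      ring
    have hT : aeval sub (X (Sum.inr (Sum.inr ())) : P) = T - (2 * T - 1) * F := by
      rw [aeval_X]
      rfl
    have hFe : F = T ^ 2 - T - q (∑ j, X (Sum.inr (Sum.inl j)) * rename Sum.inl (g j)) := by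
      simp only [F, cub, map_sub, map_pow, T]
    rw [cub, map_sub, map_sub, map_pow, map_sum, hT, Finset.sum_congr rfl (fun j _ => hS j),
      ← Finset.mul_sum, ← map_sum]
    have hS' : q (∑ j, X (Sum.inr (Sum.inl j)) * rename Sum.inl (g j)) = T ^ 2 - T - F := by
      linear_combination hFe
    rw [hS']
    linear_combination ((2 * T - 1) ^ 2 - 4) * hF2
  let s : WW g →ₐ[k] P ⧸ J2 := Ideal.Quotient.liftₐ (Ideal.span {cub g}) (aeval sub) (by
    intro a ha
    obtain ⟨b, rfl⟩ := Ideal.mem_span_singleton'.mp ha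
    rw [map_mul, hsub, mul_zero])
  refine Algebra.FormallySmooth.of_split f s ?_
  apply Ideal.Quotient.algHom_ext
  apply MvPolynomial.algHom_ext
  intro i
  have hs : s (Ideal.Quotient.mk _ (X i)) = sub i := by
    change aeval sub (X i) = _
    rw [aeval_X]
  have hf0 : f (cub g) = 0 := Ideal.Quotient.eq_zero_iff_mem.mpr (Ideal.mem_span_singleton_self _)
  have hq : ∀ p : P, f.kerSquareLift (q p) = f p := fun p => rfl
  have hkF : f.kerSquareLift F = 0 := by rw [hq, hf0]
  change f.kerSquareLift (s (Ideal.Quotient.mk _ (X i))) = f (X i)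
  rw [hs]
  rcases i with i | j | i
  · simp only [sub, Sum.elim_inl, hq]
  · simp only [sub, Sum.elim_inl, Sum.elim_inr, map_mul, map_sub, map_one, hq, hkF, mul_zero,
      sub_zero, mul_one]
  · simp only [sub, Sum.elim_inr, map_mul, map_sub, map_one, hkF, mul_zero, sub_zero, T, hq]

theorem smooth_WW [Finite τ] : Algebra.Smooth k (WW g) where
  formallySmooth := formallySmooth_WW g
  finitePresentation := by
    refine Algebra.FinitePresentation.quotient ?_
    exact ⟨{cub g}, by simp⟩

end Pool.Agent.Helper83.Bass
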