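import Pool.Agent.Helper83.Bass.SurjW

/-!
# `G₀(W)` is generated by the classes from `A` and from `B`: noetherian induction
-/

namespace Pool.Agent.Helper83.Bass

open Pool.Agent.Helper11 Function MvPolynomial TensorProduct

universe u

lemma mk_bc_bc {R S T : Type u} [CommRing R] [CommRing S] [CommRing T] [Algebra R S]
    [Algebra S T] [Algebra R T] [IsScalarTower R S T] (N : FGMod R) :
    G0.mk (bc S T (bc R S N)) = G0.mk (bc R T N) :=
  mk_iso (AlgebraTensorModule.cancelBaseChange R S T T N)

section chart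

variable {k : Type u} [CommRing k] {τ σ : Type} [Fintype σ]
  (g : σ → MvPolynomial τ k)

open Classical in
/-- the chart `A[y] → W`, `yⱼ ↦ t` for the index `j` -/
noncomputable def chart (j : σ) : MvPolynomial σ (MvPolynomial τ k) →+* WR g :=
  eval₂Hom (algebraMap _ _) (fun l => if l = j then tW g else yW g l)

lemma chart_C (j : σ) (a : MvPolynomial τ k) : chart g j (C a) = algebraMap _ _ a := by
  simp [chart]

lemma chart_j (j : σ) : chart g j (X j) = tW g := by
  simp [chart]

lemma chart_l {j l : σ} (h : l ≠ j) : chart g j (X l) = yW g l := by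
  simp [chart, h]

open Classical in
/-- the numerator of `yⱼ` -/
noncomputable def num (j : σ) : MvPolynomial σ (MvPolynomial τ k) :=
  X j ^ 2 - X j - ∑ l ∈ Finset.univ.erase j, X l * C (g l)

lemma chart_num (j : σ) : chart g j (num g j) = chart g j (C (g j)) * yW g j := by
  classical
  have h := tW_rel g
  rw [← Finset.add_sum_erase _ _ (Finset.mem_univ j)] at h
  have h2 : ∑ l ∈ Finset.univ.erase j, chart g j (X l * C (g l)) =
      ∑ l ∈ Finset.univ.erase j, yW g l * algebraMap (MvPolynomial τ k) (WR g) (g l) :=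
    Finset.sum_congr rfl (fun l hl => by
      rw [map_mul, chart_l g (Finset.ne_of_mem_erase hl), chart_C])
  have h3 : num g j = X j ^ 2 - X j - ∑ l ∈ Finset.univ.erase j, X l * C (g l) := rfl
  rw [h3, map_sub, map_sub, map_pow, map_sum, h2, chart_j, chart_C, h]
  ring

/-- over the locus `gⱼ ≠ 0` the hypersurface is the affine space -/
theorem locAway (j : σ) : letI := (chart g j).toAlgebra
    LocAway (C := MvPolynomial σ (MvPolynomial τ k)) (V := WR g) (C (g j)) := by
  classical
  letI := (chart g j).toAlgebra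
  refine ⟨?_, ?_⟩
  · let s := chart g j (C (g j))
    change ∀ w : WR g, ∃ (d : ℕ) (c : _), s ^ d * w = chart g j c
    have hadd : ∀ w w' : WR g, (∃ (d : ℕ) (c : _), s ^ d * w = chart g j c) →
        (∃ (d : ℕ) (c : _), s ^ d * w' = chart g j c) →
        ∃ (d : ℕ) (c : _), s ^ d * (w + w') = chart g j c := by
      rintro w w' ⟨d, c, hc⟩ ⟨d', c', hc'⟩
      refine ⟨d + d', C (g j) ^ d' * c + C (g j) ^ d * c', ?_⟩
      rw [map_add, map_mul, map_mul, ← hc, ← hc', map_pow, map_pow]
      ring
    have hmul : ∀ w w' : WR g, (∃ (d : ℕ) (c : _), s ^ d * w = chart g j c) →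
        (∃ (d : ℕ) (c : _), s ^ d * w' = chart g j c) →
        ∃ (d : ℕ) (c : _), s ^ d * (w * w') = chart g j c := by
      rintro w w' ⟨d, c, hc⟩ ⟨d', c', hc'⟩
      refine ⟨d + d', c * c', ?_⟩
      rw [map_mul, ← hc, ← hc']
      ring
    have hA : ∀ a : MvPolynomial τ k, ∃ (d : ℕ) (c : _),
        s ^ d * algebraMap (MvPolynomial τ k) (WR g) a = chart g j c := fun a =>
      ⟨0, C a, by rw [pow_zero, one_mul, chart_C]⟩
    have ht : ∃ (d : ℕ) (c : _), s ^ d * tW g = chart g j c :=
      ⟨0, X j, by rw [pow_zero, one_mul, chart_j]⟩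
    have hy : ∀ l, ∃ (d : ℕ) (c : _), s ^ d * yW g l = chart g j c := by
      intro l
      by_cases hl : l = j
      · subst hl
        exact ⟨1, num g l, by rw [pow_one, chart_num]⟩
      · exact ⟨0, X l, by rw [pow_zero, one_mul, chart_l g hl]⟩
    intro w
    induction w using W_induction g with
    | h1 a => exact hA a
    | h2 w w' hw hw' => exact hadd w w' hw hw'
    | h3 l w hw => exact hmul w _ hw (hy l)
    | h4 w hw => exact hmul w _ hw ht
    | h5 i w hw => exact hmul w _ hw (hA _)
  · let CC := MvPolynomial σ (MvPolynomial τ k)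
    let L := Localization.Away (C (g j) : CC)
    let ρ : CC →+* L := algebraMap CC L
    let inv : L := IsLocalization.Away.invSelf (C (g j) : CC)
    have hinv : ρ (C (g j)) * inv = 1 := IsLocalization.Away.mul_invSelf (C (g j) : CC)
    obtain ⟨F, h1, h2, h3⟩ := exists_lift g (ρ.comp C)
      (fun l => if l = j then ρ (num g j) * inv else ρ (X l)) (ρ (X j)) (by
        rw [← Finset.add_sum_erase _ _ (Finset.mem_univ j), if_pos rfl]
        have h2 : ∑ l ∈ Finset.univ.erase j, (if l = j then ρ (num g j) * inv else ρ (X l)) *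
            (ρ.comp C) (g l) = ρ (∑ l ∈ Finset.univ.erase j, X l * C (g l)) := by
          rw [map_sum]
          refine Finset.sum_congr rfl (fun l hl => ?_)
          rw [if_neg (Finset.ne_of_mem_erase hl), map_mul]
          rfl
        rw [h2, RingHom.comp_apply, mul_assoc, mul_comm inv, hinv, mul_one, ← map_add,
          ← map_pow, ← map_sub]
        congr 1
        have h3 : num g j = X j ^ 2 - X j - ∑ l ∈ Finset.univ.erase j, X l * C (g l) := rfl
        rw [h3]; ring)
    have hF : F.comp (chart g j) = ρ := by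
      apply MvPolynomial.ringHom_ext
      · intro a
        rw [RingHom.comp_apply, chart_C, h1]
        rfl
      · intro l
        rw [RingHom.comp_apply]
        by_cases hl : l = j
        · subst hl
          rw [chart_j, h3]
        · rw [chart_l g hl, h2, if_neg hl]
    exact ⟨{ F with commutes' := fun c => RingHom.congr_fun hF c }⟩

end chart

section abstract_step

variable {A W : Type u} [CommRing A] [IsNoetherianRing A] [CommRing W] [IsNoetherianRing W]
  [Algebra A W] {σ : Type} [Fintype σ] [Algebra (MvPolynomial σ A) W]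
  [IsScalarTower A (MvPolynomial σ A) W] {H : AddSubgroup (G0 W)}

/-- the induction step -/
theorem mem_step_abs (s : A) (hloc : LocAway (C := MvPolynomial σ A) (V := W) (C s))
    (hA : ∀ N : FGMod A, G0.mk (bc A W N) ∈ H) (I : Ideal A) (hs : s ∉ I)
    (ih : ∀ J > I, ∀ M : FGMod W, KilledBy (J.map (algebraMap A W)) M → G0.mk M ∈ H)
    (M : FGMod W) (hM : KilledBy (I.map (algebraMap A W)) M) : G0.mk M ∈ H := by
  have halg : ∀ a : A, algebraMap (MvPolynomial σ A) W (C a) = algebraMap A W a := fun a =>
    (IsScalarTower.algebraMap_apply A (MvPolynomial σ A) W a).symm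
  let K : Ideal W := I.map (algebraMap A W)
  let IC : Ideal (MvPolynomial σ A) := I.map C
  let χ : FGMod W → G0 W ⧸ H := fun M => QuotientAddGroup.mk' H (G0.mk M)
  have hχ0 : ∀ M, χ M = 0 ↔ G0.mk M ∈ H := fun M => QuotientAddGroup.eq_zero_iff _
  have hχ : IsAdd (KilledBy K) χ :=
    { sq := subQuot_killedBy K
      add := fun M' M M'' f g hf hg hfg _ => by
        change QuotientAddGroup.mk' H (G0.mk M) = _
        rw [G0.mk_add M' M M'' f g hf hg hfg, map_add] }
  have hK : K = IC.map (algebraMap (MvPolynomial σ A) W) := by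
    have h1 : algebraMap A W = (algebraMap (MvPolynomial σ A) W).comp C :=
      RingHom.ext (fun a => (halg a).symm)
    change Ideal.map (algebraMap A W) I = Ideal.map _ (Ideal.map C I)
    rw [Ideal.map_map, ← h1]
  have h0 : Vanish K (algebraMap (MvPolynomial σ A) W (C s)) χ := by
    intro M hMK hMg
    rw [hχ0]
    have hlt : I ⊔ Ideal.span {s} > I := by
      refine lt_of_le_of_ne le_sup_left (fun h => hs ?_)
      rw [h]
      exact Ideal.mem_sup_right (Ideal.mem_span_singleton_self _)
    refine ih _ hlt M ?_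
    have hle : (I ⊔ Ideal.span {s}).map (algebraMap A W) ≤
        Module.annihilator W M := by
      rw [Ideal.map_sup, Ideal.map_span, Set.image_singleton]
      refine sup_le (fun s hs => Module.mem_annihilator.mpr (hMK s hs)) ?_
      rw [Ideal.span_le, Set.singleton_subset_iff]
      refine Module.mem_annihilator.mpr (fun m => ?_)
      have := hMg m
      rwa [halg] at this
    intro s hs m
    exact Module.mem_annihilator.mp (hle hs) m
  obtain ⟨E, hE, hEχ⟩ := exists_bc (C s : MvPolynomial σ A) hloc hχ h0 hK M hM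
  have hadd := isAdd_bc (C s : MvPolynomial σ A) hloc hχ h0 hK.le
  rw [← hχ0, hEχ]
  -- reduction to the quotient
  let p : A →+* A ⧸ I := Ideal.Quotient.mk I
  have hp : Surjective p := Ideal.Quotient.mk_surjective
  let mp : (MvPolynomial σ A) →+* MvPolynomial σ (A ⧸ I) := MvPolynomial.map p
  have hmp : Surjective mp := MvPolynomial.map_surjective p hp
  have hker : RingHom.ker mp = IC := by
    change RingHom.ker (MvPolynomial.map p) = _
    rw [MvPolynomial.ker_map, Ideal.mk_ker]
  have hkr : ∀ E' : FGMod (MvPolynomial σ (A ⧸ I)), KilledBy IC (restr mp hmp E') := by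
    intro E' s hs x
    rw [← hker] at hs
    apply (restrEquiv mp hmp E').injective
    rw [restrEquiv_smul, RingHom.mem_ker.mp hs, zero_smul, map_zero]
  have key : ∀ E' : FGMod (MvPolynomial σ (A ⧸ I)),
      χ (bc (MvPolynomial σ A) W (restr mp hmp E')) = 0 := by
    refine gen_mvPolynomial (A ⧸ I) σ _ ?_ ?_
    · refine ⟨?_, ?_, ?_⟩
      · intro M N e h
        obtain ⟨e'⟩ := restr_iso mp hmp e
        rw [← hadd.iso e' (hkr M)]
        exact h
      · intro M' M M'' f g' hf hg hfg h1 h2
        obtain ⟨e'⟩ := exactF_restr mp hmp M' M M'' ⟨f, g', hf, hg, hfg⟩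
        rw [hadd.add _ _ _ e'.f e'.g e'.inj e'.surj e'.exact (hkr M), h1, h2, add_zero]
      · intro M' M M'' f g' hf hg hfg h1 h2
        obtain ⟨e'⟩ := exactF_restr mp hmp M' M M'' ⟨f, g', hf, hg, hfg⟩
        have h3 := hadd.add _ _ _ e'.f e'.g e'.inj e'.surj e'.exact (hkr M)
        rw [h1, h2, zero_add] at h3
        exact h3.symm
    · intro N
      obtain ⟨e1⟩ := poly_restr (σ := σ) p hp N
      have hk1 : KilledBy IC (polyMod σ (restr p hp N)) :=
        (subQuot_killedBy IC).sub _ (restr mp hmp (polyMod σ N)) e1.toLinearMap e1.injective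
          (hkr _)
      have h1 : χ (bc (MvPolynomial σ A) W (restr mp hmp (polyMod σ N))) =
          χ (bc (MvPolynomial σ A) W (polyMod σ (restr p hp N))) := (hadd.iso e1 hk1).symm
      refine h1.trans ?_
      rw [hχ0]
      have h2 : G0.mk (bc (MvPolynomial σ A) W (bc A (MvPolynomial σ A) (restr p hp N))) =
          G0.mk (bc A W (restr p hp N)) := mk_bc_bc (restr p hp N)
      have h3 : G0.mk (bc A W (restr p hp N)) ∈ H := hA (restr p hp N)
      rw [← h2] at h3
      exact h3
  obtain ⟨e⟩ := restr_desc_iso mp hmp E (by rw [hker]; exact hE)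
  rw [hadd.iso e hE]
  exact key _

end abstract_step

section main

variable {k : Type u} [CommRing k] [IsNoetherianRing k] {τ σ : Type} [Finite τ] [Fintype σ]
  {g : σ → MvPolynomial τ k} {B : Type u} [CommRing B] {π : MvPolynomial τ k →+* B}
  {H : AddSubgroup (G0 (WR g))}

/-- the induction step -/
theorem mem_step (hA : ∀ N : FGMod (MvPolynomial τ k),
      G0.mk (bc (MvPolynomial τ k) (WR g) N) ∈ H)
    (I : Ideal (MvPolynomial τ k)) (j : σ) (hj : g j ∉ I)
    (ih : ∀ J > I, ∀ M : FGMod (WR g),
      KilledBy (J.map (algebraMap (MvPolynomial τ k) (WR g))) M → G0.mk M ∈ H)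
    (M : FGMod (WR g)) (hM : KilledBy (I.map (algebraMap (MvPolynomial τ k) (WR g))) M) :
    G0.mk M ∈ H := by
  letI : Algebra (MvPolynomial σ (MvPolynomial τ k)) (WR g) := (chart g j).toAlgebra
  have halg : ∀ c, algebraMap (MvPolynomial σ (MvPolynomial τ k)) (WR g) c = chart g j c :=
    fun _ => rfl
  haveI : IsScalarTower (MvPolynomial τ k) (MvPolynomial σ (MvPolynomial τ k)) (WR g) :=
    IsScalarTower.of_algebraMap_eq (fun a => by
      rw [halg, MvPolynomial.algebraMap_eq, chart_C])
  exact mem_step_abs (g j) (locAway g j) hA I hj ih M hM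

/-- **Generation**: `G₀(W)` is generated by the classes from `A` and the classes of the sheet
`t = 0` -/
theorem mem_all [IsNoetherianRing B] {F₀ F : WR g →+* MvPolynomial σ B} (h : IsEps g π F 1)
    (h' : IsEps g π F₀ 0) (hπ : Surjective π)
    (hker : RingHom.ker π = Ideal.span (Set.range g))
    (h0 : ∀ N : FGMod B, G0.mk (restr F₀ (h'.surj hπ) (polyMod σ N)) ∈ H)
    (hA : ∀ N : FGMod (MvPolynomial τ k), G0.mk (bc (MvPolynomial τ k) (WR g) N) ∈ H)
    (M : FGMod (WR g)) : G0.mk M ∈ H := by
  have key : ∀ I : Ideal (MvPolynomial τ k), ∀ M : FGMod (WR g),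
      KilledBy (I.map (algebraMap (MvPolynomial τ k) (WR g))) M → G0.mk M ∈ H := by
    intro I
    induction I using WellFoundedGT.induction with
    | ind I ih =>
    intro M hM
    by_cases hI : ∀ j, g j ∈ I
    · have hG : KilledG g M := fun j m => hM _ (Ideal.mem_map_of_mem _ (hI j)) m
      obtain ⟨T, Q, hT, hQ, hTQ, -⟩ := split_sheets M hG
      rw [hTQ]
      refine H.add_mem ?_ ?_
      · exact mem_sheet h hπ hker (mem_one h h' hπ hker h0 hA) T hT
      · exact mem_sheet h' hπ hker h0 Q hQ
    · push Not at hI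
      obtain ⟨j, hj⟩ := hI
      exact mem_step hA I j hj (fun J hJ => ih J hJ) M hM
  refine key ⊥ M ?_
  rw [Ideal.map_bot]
  exact G0.killedBy_bot M

end main

end Pool.Agent.Helper83.Bass
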