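import Pool.Agent.Helper83.Bass.Iso
import Pool.Agent.Helper83.Bass.GenStep

/-!
# `G₀(W)` is generated by the classes from `A` and from `B`
-/

namespace Pool.Agent.Helper83.Bass

open Pool.Agent.Helper11 Function MvPolynomial TensorProduct

universe u

lemma resClass_mk {R : Type u} [CommRing R] (H : AddSubgroup (G0 R)) :
    ResClass (fun M : FGMod R => G0.mk M ∈ H) where
  iso M N e h := by
    change G0.mk N ∈ H
    rw [← mk_iso e]
    exact h
  ext M' M M'' f g hf hg hfg h1 h2 := by
    change G0.mk M ∈ H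
    rw [G0.mk_add M' M M'' f g hf hg hfg]
    exact H.add_mem h1 h2
  coker M' M M'' f g hf hg hfg h1 h2 := by
    have h3 : G0.mk M'' = G0.mk M - G0.mk M' := by
      rw [G0.mk_add M' M M'' f g hf hg hfg, add_sub_cancel_left]
    change G0.mk M'' ∈ H
    rw [h3]
    exact H.sub_mem h2 h1

section sheets

variable {k : Type u} [CommRing k] [IsNoetherianRing k] {τ σ : Type} [Finite τ] [Fintype σ]
  {g : σ → MvPolynomial τ k} {B : Type u} [CommRing B] {π : MvPolynomial τ k →+* B}
  {H : AddSubgroup (G0 (WR g))} {F : WR g →+* MvPolynomial σ B} {c : ℕ}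

/-- the modules on one sheet -/
theorem mem_sheet [IsNoetherianRing B] (h : IsEps g π F c) (hπ : Surjective π)
    (hker : RingHom.ker π = Ideal.span (Set.range g))
    (h0 : ∀ N : FGMod B, G0.mk (restr F (h.surj hπ) (polyMod σ N)) ∈ H)
    (M : FGMod (WR g)) (hM : KilledBy (sheet g c) M) : G0.mk M ∈ H := by
  have key : ∀ E : FGMod (MvPolynomial σ B), G0.mk (restr F (h.surj hπ) E) ∈ H := by
    refine gen_mvPolynomial B σ _ (resClass_comap (resClass_mk H)
      (exactF_restr F (h.surj hπ)) (fun M N e => restr_iso _ _ e)) h0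
  obtain ⟨e⟩ := restr_desc_iso F (h.surj hπ) M (fun s hs => hM s (h.ker_le hker hs))
  rw [mk_iso e]
  exact key _

/-- killed by the equations of the closed subscheme -/
def KilledG (g : σ → MvPolynomial τ k) (M : FGMod (WR g)) : Prop :=
  ∀ (j : σ) (m : M), algebraMap (MvPolynomial τ k) (WR g) (g j) • m = 0

lemma killed_sheet (M : FGMod (WR g)) (h1 : KilledG g M)
    (h2 : ∀ m : M, (tW g - c) • m = 0) : KilledBy (sheet g c) M := by
  have hle : sheet g c ≤ Module.annihilator (WR g) M := by
    refine sup_le ?_ ?_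
    · rw [Ideal.span_le]
      rintro _ ⟨j, rfl⟩
      exact Module.mem_annihilator.mpr (h1 j)
    · rw [Ideal.span_le, Set.singleton_subset_iff]
      exact Module.mem_annihilator.mpr h2
  intro s hs m
  exact Module.mem_annihilator.mp (hle hs) m

lemma t_sq (M : FGMod (WR g)) (h1 : KilledG g M) (m : M) :
    tW g • (tW g • m) = tW g • m := by
  have h2 : (tW g ^ 2 - tW g) • m = 0 := by
    rw [tW_rel, Finset.sum_smul]
    refine Finset.sum_eq_zero (fun j _ => ?_)
    rw [mul_smul, h1, smul_zero]
  rw [sub_smul, sub_eq_zero, pow_two, mul_smul] at h2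
  exact h2

/-- the two pieces of a module on the closed subscheme -/
lemma split_sheets (M : FGMod (WR g)) (h1 : KilledG g M) :
    ∃ T Q : FGMod (WR g), KilledBy (sheet g 1) T ∧ KilledBy (sheet g 0) Q ∧
      G0.mk M = G0.mk T + G0.mk Q ∧
      ∃ ι : T →ₗ[WR g] M, Injective ι ∧ (∀ m : M, ∃ x, ι x = tW g • m) ∧
        (∀ x : T, ∃ m : M, ι x = tW g • m) := by
  let N : Submodule (WR g) M := LinearMap.range (LinearMap.lsmul (WR g) M (tW g))
  refine ⟨FGMod.of _ N, FGMod.of _ (M ⧸ N), ?_, ?_, ?_, N.subtype, N.subtype_injective,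
    fun m => ⟨⟨_, m, rfl⟩, rfl⟩, ?_⟩
  · refine killed_sheet _ (fun j m => Subtype.ext (h1 j _)) ?_
    rintro ⟨_, m, rfl⟩
    apply Subtype.ext
    change (tW g - (1 : ℕ)) • (tW g • m) = 0
    rw [sub_smul, t_sq M h1, Nat.cast_one, one_smul, sub_self]
  · refine killed_sheet _ (fun j m => ?_) (fun m => ?_)
    · obtain ⟨m, rfl⟩ := N.mkQ_surjective m
      rw [← map_smul, h1, map_zero]
    · obtain ⟨m, rfl⟩ := N.mkQ_surjective m
      rw [Nat.cast_zero, sub_zero, ← map_smul, Submodule.mkQ_apply,
        Submodule.Quotient.mk_eq_zero]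
      exact ⟨m, rfl⟩
  · exact G0.isAdd_mk.submodule M N (G0.killedBy_bot M)
  · rintro ⟨_, m, rfl⟩
    exact ⟨m, rfl⟩

lemma killedG_bc (hg : ∀ j, π (g j) = 0) (hπ : Surjective π) (N : FGMod B) :
    KilledG g (bc (MvPolynomial τ k) (WR g) (restr π hπ N)) := by
  intro j m
  induction m using TensorProduct.induction_on with
  | zero => exact smul_zero _
  | tmul w n =>
      have h1 : g j • n = 0 := by
        apply (restrEquiv π hπ N).injective
        rw [restrEquiv_smul, hg, zero_smul, map_zero]
      rw [TensorProduct.smul_tmul', smul_eq_mul, ← Algebra.smul_def, TensorProduct.smul_tmul, h1,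
        TensorProduct.tmul_zero]
  | add x y hx hy => exact (smul_add _ x y).trans (by rw [hx, hy, add_zero])

/-- the polynomial modules on the sheet `t = 1` -/
theorem mem_one {F₀ : WR g →+* MvPolynomial σ B} [IsNoetherianRing B] (h : IsEps g π F 1)
    (h' : IsEps g π F₀ 0) (hπ : Surjective π)
    (hker : RingHom.ker π = Ideal.span (Set.range g))
    (h0 : ∀ N : FGMod B, G0.mk (restr F₀ (h'.surj hπ) (polyMod σ N)) ∈ H)
    (hA : ∀ N : FGMod (MvPolynomial τ k), G0.mk (bc (MvPolynomial τ k) (WR g) N) ∈ H)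
    (N : FGMod B) : G0.mk (restr F (h.surj hπ) (polyMod σ N)) ∈ H := by
  have hg : ∀ j, π (g j) = 0 := fun j => by
    have : g j ∈ RingHom.ker π := by rw [hker]; exact Ideal.subset_span ⟨j, rfl⟩
    exact this
  let N' := restr π hπ N
  let X : FGMod (WR g) := bc (MvPolynomial τ k) (WR g) N'
  have hX : KilledG g X := killedG_bc hg hπ N
  obtain ⟨T, Q, hT, hQ, hTQ, ι, hι, hι1, hι2⟩ := split_sheets X hX
  have hQH : G0.mk Q ∈ H := mem_sheet h' hπ hker h0 Q hQ
  have hTH : G0.mk T ∈ H := by
    have : G0.mk T = G0.mk X - G0.mk Q := by rw [hTQ, add_sub_cancel_right]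
    rw [this]
    exact H.sub_mem (hA N') hQH
  suffices hiso : Nonempty (T ≃ₗ[WR g] restr F (h.surj hπ) (polyMod σ N)) by
    obtain ⟨e⟩ := hiso
    rw [← mk_iso e]
    exact hTH
  -- the map to the sheet
  let Z : FGMod (WR g) := restr F (h.surj hπ) (polyMod σ N)
  let z : Z ≃+ polyMod σ N := restrEquiv F (h.surj hπ) (polyMod σ N)
  have hz : ∀ (w : WR g) (x : Z), z (w • x) = F w • z x := fun w x => rfl
  let nn : N' ≃+ N := restrEquiv π hπ N
  have hnn : ∀ (a : MvPolynomial τ k) (x : N'), nn (a • x) = π a • nn x := fun a x => rfl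
  letI : Module (MvPolynomial τ k) Z := Module.compHom Z (algebraMap (MvPolynomial τ k) (WR g))
  haveI : IsScalarTower (MvPolynomial τ k) (WR g) Z := ⟨fun c v m => by
    rw [Algebra.smul_def, mul_smul]; rfl⟩
  have hCs : ∀ (b : B) (n : N), (C b : MvPolynomial σ B) • ((1 : MvPolynomial σ B) ⊗ₜ[B] n) =
      (1 : MvPolynomial σ B) ⊗ₜ[B] (b • n) := by
    intro b n
    rw [TensorProduct.smul_tmul', smul_eq_mul, mul_one, ← TensorProduct.smul_tmul,
      Algebra.smul_def, mul_one]
    rfl
  let q₀ : N' →ₗ[MvPolynomial τ k] Z :=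
    { toFun := fun n => z.symm ((1 : MvPolynomial σ B) ⊗ₜ[B] (nn n))
      map_add' := fun x y => by
        rw [map_add, TensorProduct.tmul_add]
        exact map_add z.symm _ _
      map_smul' := fun a n => by
        apply z.injective
        rw [RingHom.id_apply]
        change z (z.symm _) = z (algebraMap (MvPolynomial τ k) (WR g) a • _)
        rw [hz, AddEquiv.apply_symm_apply, AddEquiv.apply_symm_apply, h.a, hnn]
        exact (hCs _ _).symm }
  let q : X →ₗ[WR g] Z := LinearMap.liftBaseChange (WR g) q₀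
  have hq : ∀ (w : WR g) (n : N'), z (q (w ⊗ₜ[MvPolynomial τ k] n)) =
      F w • ((1 : MvPolynomial σ B) ⊗ₜ[B] (nn n)) := by
    intro w n
    have : q (w ⊗ₜ[MvPolynomial τ k] n) = w • q₀ n := LinearMap.liftBaseChange_tmul _ _ _ _
    rw [this, hz]
    congr 1
  have hqs : Surjective q := by
    intro x
    obtain ⟨y, rfl⟩ := z.symm.surjective x
    induction y using TensorProduct.induction_on with
    | zero => exact ⟨0, (map_zero q).trans (map_zero z.symm).symm⟩
    | tmul p n =>
        obtain ⟨w, rfl⟩ := h.surj hπ p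
        refine ⟨w ⊗ₜ[MvPolynomial τ k] (nn.symm n), z.injective ?_⟩
        rw [hq, AddEquiv.apply_symm_apply, AddEquiv.apply_symm_apply, TensorProduct.smul_tmul',
          smul_eq_mul, mul_one]
    | add y y' hy hy' =>
        obtain ⟨a, ha⟩ := hy
        obtain ⟨b, hb⟩ := hy'
        refine ⟨a + b, ?_⟩
        rw [map_add, ha, hb]
        exact (map_add z.symm y y').symm
  -- the inverse map
  obtain ⟨e, he⟩ := exists_descEquiv F (h.surj hπ) T (fun s hs => hT s (h.ker_le hker hs))
  let D := desc F (h.surj hπ) T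
  have ht1 : F (tW g) = 1 := h.t.trans Nat.cast_one
  choose tt htt using hι1
  have htt_add : ∀ x y, tt (x + y) = tt x + tt y := fun x y => hι (by
    rw [map_add, htt, htt, htt, smul_add])
  have htt_smul : ∀ (w : WR g) x, tt (w • x) = w • tt x := fun w x => hι (by
    rw [map_smul, htt, htt, smul_comm])
  letI : Module B D := Module.compHom D (C : B →+* MvPolynomial σ B)
  haveI : IsScalarTower B (MvPolynomial σ B) D := ⟨fun c v m => by
    rw [Algebra.smul_def, mul_smul]; rfl⟩
  let r₀ : N →ₗ[B] D :=
    { toFun := fun n => e (tt ((1 : WR g) ⊗ₜ[MvPolynomial τ k] (nn.symm n)))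
      map_add' := fun x y => by
        rw [map_add, TensorProduct.tmul_add, htt_add, map_add]
      map_smul' := fun b n => by
        obtain ⟨a, rfl⟩ := hπ b
        rw [RingHom.id_apply]
        change _ = (C (π a) : MvPolynomial σ B) • e _
        have h1 : nn.symm (π a • n) = a • nn.symm n := by
          apply nn.injective
          rw [hnn, AddEquiv.apply_symm_apply, AddEquiv.apply_symm_apply]
        rw [h1, ← h.a, ← he, ← htt_smul, TensorProduct.smul_tmul', smul_eq_mul, mul_one,
          TensorProduct.tmul_smul, TensorProduct.smul_tmul', Algebra.smul_def, mul_one] }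
  let r : polyMod σ N →ₗ[MvPolynomial σ B] D := LinearMap.liftBaseChange (MvPolynomial σ B) r₀
  have hr : ∀ x : X, r (z (q x)) = e (tt x) := by
    intro x
    induction x using TensorProduct.induction_on with
    | zero =>
        have h1 : tt 0 = 0 := hι (by rw [htt, smul_zero, map_zero])
        have h2 : q 0 = 0 := map_zero q
        exact ((congrArg (fun y => r (z y)) h2).trans (by rw [map_zero, map_zero])).trans
          ((congrArg e h1).trans (map_zero e)).symm
    | tmul w n =>
        refine (congrArg r (hq w n)).trans ?_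
        rw [map_smul]
        have h1 : r ((1 : MvPolynomial σ B) ⊗ₜ[B] (nn n)) = r₀ (nn n) := by
          change LinearMap.liftBaseChange (MvPolynomial σ B) r₀ _ = _
          rw [LinearMap.liftBaseChange_tmul, one_smul]
        rw [h1]
        change F w • e (tt ((1 : WR g) ⊗ₜ[MvPolynomial τ k] (nn.symm (nn n)))) = _
        rw [← he, ← htt_smul, AddEquiv.symm_apply_apply, TensorProduct.smul_tmul', smul_eq_mul,
          mul_one]
    | add x y hx hy =>
        have h1 : tt (x + y) = tt x + tt y := htt_add x y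
        have h2 : q (x + y) = q x + q y := map_add q x y
        refine (congrArg (fun y => r (z y)) h2).trans ?_
        refine Eq.trans ?_ ((congrArg e h1).trans (map_add e _ _)).symm
        rw [← hx, ← hy, map_add, map_add]
  let f : T →ₗ[WR g] Z := q.comp ι
  have hf : Bijective f := by
    constructor
    · rw [← LinearMap.ker_eq_bot, eq_bot_iff]
      intro x hx
      have hx' : q (ι x) = 0 := hx
      have h1 := hr (ι x)
      rw [hx', map_zero, map_zero] at h1
      have h2 : tt (ι x) = 0 := (map_eq_zero_iff e e.injective).mp h1.symm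
      have h3 : tW g • ι x = 0 := by rw [← htt, h2, map_zero]
      obtain ⟨m, hm⟩ := hι2 x
      have h4 : ι x = 0 := by
        have h5 : tW g • ι x = ι x := by rw [hm]; exact t_sq X hX m
        rw [← h5, h3]
      exact (map_eq_zero_iff ι hι).mp h4
    · intro x
      obtain ⟨y, rfl⟩ := hqs x
      refine ⟨tt y, ?_⟩
      change q (ι (tt y)) = q y
      rw [htt, map_smul]
      apply z.injective
      rw [hz, ht1, one_smul]
  exact ⟨LinearEquiv.ofBijective f hf⟩

end sheets

end Pool.Agent.Helper83.Bass
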